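import Mathlib

/-!
Zero free neighbourhoods of `-1` force convergence of normalised logarithms on both sides.
-/

namespace Pool.Agent.H.MP_25a9e0_co

open Filter Topology

/-- Taylor coefficients of the logarithm of the modulus of `1 - t / a` -/
noncomputable def cf (a : ℂ) (k : ℕ) : ℝ := -((a⁻¹ ^ k / (k : ℂ)).re)

theorem cf_zero (a : ℂ) : cf a 0 = 0 := by simp [cf]

theorem cf_bound (a : ℂ) (ρ : ℝ) (ha : ‖a⁻¹‖ ≤ ρ) (k : ℕ) : |cf a k| ≤ ρ ^ k := by
  unfold cf
  rw [abs_neg]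
  refine (Complex.abs_re_le_norm _).trans ?_
  rw [norm_div, norm_pow]
  cases k with
  | zero => simp
  | succ k =>
    have h1 : ‖((k + 1 : ℕ) : ℂ)‖ = ((k + 1 : ℕ) : ℝ) := Complex.norm_natCast _
    rw [h1]
    calc ‖a⁻¹‖ ^ (k + 1) / ((k + 1 : ℕ) : ℝ) ≤ ‖a⁻¹‖ ^ (k + 1) :=
          div_le_self (by positivity) (by push_cast; linarith [Nat.cast_nonneg (α := ℝ) k])
      _ ≤ ρ ^ (k + 1) := pow_le_pow_left₀ (norm_nonneg _) ha _

theorem cf_hasSum (a : ℂ) (ha : a ≠ 0) (t : ℝ) (ht : |t| < ‖a‖) :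
    HasSum (fun k => cf a k * t ^ k) (Real.log ‖1 - (t : ℂ) / a‖) := by
  have hz : ‖(t : ℂ) / a‖ < 1 := by
    rw [norm_div, div_lt_one (norm_pos_iff.2 ha), Complex.norm_real]; exact ht
  have h := (Complex.hasSum_re (Complex.hasSum_taylorSeries_neg_log hz)).neg
  rw [Complex.neg_re, neg_neg, Complex.log_re] at h
  have e : (fun k => cf a k * t ^ k) = fun k : ℕ => -(((t : ℂ) / a) ^ k / (k : ℂ)).re := by
    funext k
    have e1 : ((t : ℂ) / a) ^ k / (k : ℂ) = (a⁻¹ ^ k / (k : ℂ)) * ((t ^ k : ℝ) : ℂ) := by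
      rw [div_pow, inv_pow, Complex.ofReal_pow]
      ring
    rw [e1, Complex.re_mul_ofReal]
    unfold cf
    ring
  rw [e]
  exact h

theorem ms_hasSum (t : ℝ) (s : Multiset ℂ) : (∀ z ∈ s, |t| < ‖1 + z‖) →
    HasSum (fun k => (s.map (fun z => cf (1 + z) k)).sum * t ^ k)
      (Real.log ‖(s.map (fun z => (-1 + (t : ℂ)) - z)).prod‖
        - Real.log ‖(s.map (fun z => (-1 : ℂ) - z)).prod‖) := by
  induction s using Multiset.induction_on with
  | empty =>
    intro _
    simp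
  | cons z s ih =>
    intro hs
    have hz := hs z (Multiset.mem_cons_self z s)
    have h1 := ih (fun y hy => hs y (Multiset.mem_cons_of_mem hy))
    have hne : (1 + z) ≠ 0 := by
      intro e
      rw [e, norm_zero] at hz
      exact absurd (abs_nonneg t) (not_le.2 hz)
    have h2 := cf_hasSum (1 + z) hne t hz
    have h3 := h2.add h1
    have hn0 : ∀ y ∈ z ::ₘ s, (-1 + (t : ℂ)) - y ≠ 0 := by
      intro y hy e
      have h4 := hs y hy
      have h5 : 1 + y = (t : ℂ) := by linear_combination -e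
      rw [h5, Complex.norm_real] at h4
      exact absurd h4 (lt_irrefl _)
    have hn1 : ∀ y ∈ z ::ₘ s, (-1 : ℂ) - y ≠ 0 := by
      intro y hy e
      have h4 := hs y hy
      have h5 : 1 + y = 0 := by linear_combination -e
      rw [h5, norm_zero] at h4
      exact absurd (abs_nonneg t) (not_le.2 h4)
    have hp0 : (s.map (fun z => (-1 + (t : ℂ)) - z)).prod ≠ 0 := by
      apply Multiset.prod_ne_zero
      intro h
      obtain ⟨y, hy, e⟩ := Multiset.mem_map.1 h
      exact hn0 y (Multiset.mem_cons_of_mem hy) e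
    have hp1 : (s.map (fun z => (-1 : ℂ) - z)).prod ≠ 0 := by
      apply Multiset.prod_ne_zero
      intro h
      obtain ⟨y, hy, e⟩ := Multiset.mem_map.1 h
      exact hn1 y (Multiset.mem_cons_of_mem hy) e
    have hz0 := hn0 z (Multiset.mem_cons_self z s)
    have hz1 := hn1 z (Multiset.mem_cons_self z s)
    have e1 : ‖(-1 + (t : ℂ)) - z‖ = ‖(-1 : ℂ) - z‖ * ‖1 - (t : ℂ) / (1 + z)‖ := by
      rw [← norm_mul]
      congr 1
      field_simp
      ring
    have hz2 : ‖1 - (t : ℂ) / (1 + z)‖ ≠ 0 := by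
      intro e
      rw [e, mul_zero] at e1
      exact hz0 (norm_eq_zero.1 e1)
    convert h3 using 1
    · funext k
      rw [Multiset.map_cons, Multiset.sum_cons]
      ring
    · rw [Multiset.map_cons, Multiset.prod_cons, Multiset.map_cons, Multiset.prod_cons, norm_mul,
        norm_mul, Real.log_mul (norm_ne_zero_iff.2 hz0) (norm_ne_zero_iff.2 hp0),
        Real.log_mul (norm_ne_zero_iff.2 hz1) (norm_ne_zero_iff.2 hp1), e1,
        Real.log_mul (norm_ne_zero_iff.2 hz1) hz2]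
      ring

/-- complex roots of an integer polynomial -/
noncomputable def rts (P : Polynomial ℤ) : Multiset ℂ := (P.map (Int.castRingHom ℂ)).roots

theorem aeval_eq (P : Polynomial ℤ) (x : ℂ) :
    Polynomial.aeval x P = (P.map (Int.castRingHom ℂ)).eval x := by
  rw [Polynomial.aeval_def, Polynomial.eval₂_eq_eval_map]
  rfl

theorem poly_hasSum (P : Polynomial ℤ) (hP : P ≠ 0) (ε : ℝ)
    (hr : ∀ z : ℂ, Polynomial.aeval z P = 0 → ε ≤ ‖1 + z‖) (t : ℝ) (ht : |t| < ε) :
    HasSum (fun k => ((rts P).map (fun z => cf (1 + z) k)).sum * t ^ k)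
      (Real.log ‖Polynomial.aeval (-1 + (t : ℂ)) P‖ - Real.log ‖Polynomial.aeval (-1 : ℂ) P‖) := by
  have hinj : Function.Injective (Int.castRingHom ℂ) := Int.cast_injective
  have hf0 : P.map (Int.castRingHom ℂ) ≠ 0 := (Polynomial.map_ne_zero_iff hinj).2 hP
  have hs : ∀ z ∈ rts P, |t| < ‖1 + z‖ := by
    intro z hz
    have h1 : Polynomial.aeval z P = 0 := by
      rw [aeval_eq]
      exact (Polynomial.mem_roots hf0).1 hz
    exact ht.trans_le (hr z h1)
  have h := ms_hasSum t (rts P) hs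
  have hsp : (P.map (Int.castRingHom ℂ)).Splits := IsAlgClosed.splits _
  have hl : ‖(P.map (Int.castRingHom ℂ)).leadingCoeff‖ ≠ 0 :=
    norm_ne_zero_iff.2 (Polynomial.leadingCoeff_ne_zero.2 hf0)
  have hp0 : (rts P |>.map (fun z => (-1 + (t : ℂ)) - z)).prod ≠ 0 := by
    apply Multiset.prod_ne_zero
    intro h
    obtain ⟨y, hy, e⟩ := Multiset.mem_map.1 h
    have h4 := hs y hy
    have h5 : 1 + y = (t : ℂ) := by linear_combination -e
    rw [h5, Complex.norm_real] at h4
    exact absurd h4 (lt_irrefl _)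
  have hp1 : (rts P |>.map (fun z => (-1 : ℂ) - z)).prod ≠ 0 := by
    apply Multiset.prod_ne_zero
    intro h
    obtain ⟨y, hy, e⟩ := Multiset.mem_map.1 h
    have h4 := hs y hy
    have h5 : 1 + y = 0 := by linear_combination -e
    rw [h5, norm_zero] at h4
    exact absurd (abs_nonneg t) (not_le.2 h4)
  convert h using 1
  have hrt : (P.map (Int.castRingHom ℂ)).roots = rts P := rfl
  rw [aeval_eq, aeval_eq, hsp.eval_eq_prod_roots, hsp.eval_eq_prod_roots, norm_mul, norm_mul, hrt,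
    Real.log_mul hl (norm_ne_zero_iff.2 hp0), Real.log_mul hl (norm_ne_zero_iff.2 hp1)]
  ring

theorem ms_bound (s : Multiset ℂ) (f : ℂ → ℝ) (B : ℝ) : (∀ z ∈ s, |f z| ≤ B) →
    |(s.map f).sum| ≤ Multiset.card s * B := by
  induction s using Multiset.induction_on with
  | empty => intro _; simp
  | cons z s ih =>
    intro h
    have h1 := h z (Multiset.mem_cons_self z s)
    have h2 := ih (fun y hy => h y (Multiset.mem_cons_of_mem hy))
    rw [Multiset.map_cons, Multiset.sum_cons, Multiset.card_cons]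
    have h3 := abs_add_le (f z) (s.map f).sum
    push_cast
    linarith

theorem rts_bound (P : Polynomial ℤ) (hP : P ≠ 0) (n : ℕ) (hn : P.natDegree ≤ n) (ε : ℝ)
    (hε : 0 < ε) (hr : ∀ z : ℂ, Polynomial.aeval z P = 0 → ε ≤ ‖1 + z‖) (k : ℕ) :
    |((rts P).map (fun z => cf (1 + z) k)).sum| ≤ n * ε⁻¹ ^ k := by
  have hinj : Function.Injective (Int.castRingHom ℂ) := Int.cast_injective
  have hf0 : P.map (Int.castRingHom ℂ) ≠ 0 := (Polynomial.map_ne_zero_iff hinj).2 hP
  have h1 := ms_bound (rts P) (fun z => cf (1 + z) k) (ε⁻¹ ^ k) (by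
    intro z hz
    have h1 : Polynomial.aeval z P = 0 := by
      rw [aeval_eq]
      exact (Polynomial.mem_roots hf0).1 hz
    apply cf_bound
    rw [norm_inv]
    exact inv_anti₀ hε (hr z h1))
  refine h1.trans (mul_le_mul_of_nonneg_right ?_ (by positivity))
  have h2 : Multiset.card (rts P) ≤ P.natDegree := by
    unfold rts
    exact (Polynomial.card_roots' _).trans Polynomial.natDegree_map_le
  exact_mod_cast h2.trans hn

theorem tail_bound (a : ℕ → ℝ) (M ρ t : ℝ) (hρ : 0 < ρ) (ha : ∀ k, |a k| ≤ M * ρ ^ k)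
    (ht : ρ * |t| ≤ 1 / 2) : Summable (fun k => a k * t ^ k) ∧
      (∑' k, a k * t ^ k) = a 0 + t * ∑' k, a (k + 1) * t ^ k ∧
      |∑' k, a k * t ^ k| ≤ 2 * M := by
  have hM : 0 ≤ M := by
    have := (abs_nonneg _).trans (ha 0)
    simpa using this
  have h0 : 0 ≤ ρ * |t| := mul_nonneg hρ.le (abs_nonneg _)
  have hb : ∀ k, ‖a k * t ^ k‖ ≤ M * (ρ * |t|) ^ k := by
    intro k
    rw [norm_mul, norm_pow, Real.norm_eq_abs, Real.norm_eq_abs, mul_pow, ← mul_assoc]
    exact mul_le_mul_of_nonneg_right (ha k) (by positivity)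
  have hg : Summable (fun k => M * (ρ * |t|) ^ k) :=
    (summable_geometric_of_lt_one h0 (by linarith)).mul_left M
  have hs : Summable (fun k => a k * t ^ k) := Summable.of_norm_bounded hg hb
  refine ⟨hs, ?_, ?_⟩
  · rw [hs.tsum_eq_zero_add, pow_zero, mul_one, ← tsum_mul_left]
    congr 1
    apply tsum_congr
    intro k
    rw [pow_succ]
    ring
  · rw [← Real.norm_eq_abs]
    refine (tsum_of_norm_bounded hg.hasSum hb).trans ?_
    rw [tsum_mul_left, tsum_geometric_of_lt_one h0 (by linarith)]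
    have : (1 - ρ * |t|)⁻¹ ≤ 2 := by
      rw [inv_le_comm₀ (by linarith) (by norm_num)]
      linarith
    nlinarith

theorem coef_zero (k : ℕ) : ∀ (a : ℕ → ℕ → ℝ) (M ρ : ℝ), 0 < ρ →
    (∀ L k, |a L k| ≤ M * ρ ^ k) →
    (∀ t : ℝ, t < 0 → ρ * |t| ≤ 1 / 2 → Tendsto (fun L => ∑' k, a L k * t ^ k) atTop (𝓝 0)) →
    Tendsto (fun L => a L k) atTop (𝓝 0) := by
  have base : ∀ (a : ℕ → ℕ → ℝ) (M ρ : ℝ), 0 < ρ → (∀ L k, |a L k| ≤ M * ρ ^ k) →
      (∀ t : ℝ, t < 0 → ρ * |t| ≤ 1 / 2 → Tendsto (fun L => ∑' k, a L k * t ^ k) atTop (𝓝 0)) →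
      Tendsto (fun L => a L 0) atTop (𝓝 0) := by
    intro a M ρ hρ ha h
    have hM : 0 ≤ M := by
      have := (abs_nonneg _).trans (ha 0 0)
      simpa using this
    rw [Metric.tendsto_atTop]
    intro η hη
    have hx : ∃ x : ℝ, 0 < x ∧ ρ * x ≤ 1 / 2 ∧ 2 * (M * ρ) * x ≤ η / 2 := by
      refine ⟨min (1 / (2 * ρ)) (η / (4 * (M * ρ) + 1)), lt_min (by positivity) (by positivity), ?_, ?_⟩
      · calc ρ * min (1 / (2 * ρ)) (η / (4 * (M * ρ) + 1)) ≤ ρ * (1 / (2 * ρ)) :=
            mul_le_mul_of_nonneg_left (min_le_left _ _) hρ.le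
          _ = 1 / 2 := by field_simp
      · have h0 : 0 ≤ M * ρ := by positivity
        calc 2 * (M * ρ) * min (1 / (2 * ρ)) (η / (4 * (M * ρ) + 1))
            ≤ 2 * (M * ρ) * (η / (4 * (M * ρ) + 1)) :=
            mul_le_mul_of_nonneg_left (min_le_right _ _) (by positivity)
          _ ≤ η / 2 := by
            rw [← mul_div_assoc, div_le_div_iff₀ (by positivity) (by norm_num)]
            nlinarith
    obtain ⟨x, hx0, hx1, hx2⟩ := hx
    have habs : |-x| = x := by rw [abs_neg, abs_of_pos hx0]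
    have h1 := h (-x) (by linarith) (by rw [habs]; exact hx1)
    rw [Metric.tendsto_atTop] at h1
    obtain ⟨N, hN⟩ := h1 (η / 2) (by linarith)
    refine ⟨N, fun L hL => ?_⟩
    have h2 := hN L hL
    rw [Real.dist_eq, sub_zero] at h2 ⊢
    have h3 := (tail_bound (a L) M ρ (-x) hρ (ha L) (by rw [habs]; exact hx1)).2.1
    have h4 := (tail_bound (fun k => a L (k + 1)) (M * ρ) ρ (-x) hρ (fun k => by
      have := ha L (k + 1)
      rw [pow_succ] at this
      linarith) (by rw [habs]; exact hx1)).2.2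
    have h5 : a L 0 = (∑' k, a L k * (-x) ^ k) + x * ∑' k, a L (k + 1) * (-x) ^ k := by
      rw [h3]; ring
    rw [h5]
    refine (abs_add_le _ _).trans_lt ?_
    rw [abs_mul, abs_of_pos hx0]
    have h6 : x * |∑' k, a L (k + 1) * (-x) ^ k| ≤ x * (2 * (M * ρ)) :=
      mul_le_mul_of_nonneg_left h4 hx0.le
    linarith
  induction k with
  | zero => exact base
  | succ k ih =>
    intro a M ρ hρ ha h
    have hbase := base a M ρ hρ ha h
    apply ih (fun L k => a L (k + 1)) (M * ρ) ρ hρ (fun L k => by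
      have := ha L (k + 1)
      rw [pow_succ] at this
      linarith)
    intro t ht0 ht1
    have h1 := ((h t ht0 ht1).sub hbase).div_const t
    simp only [sub_zero, zero_div] at h1
    refine h1.congr (fun L => ?_)
    have h3 := (tail_bound (a L) M ρ t hρ (ha L) ht1).2.1
    rw [h3, add_sub_cancel_left, mul_div_cancel_left₀ _ ht0.ne]

theorem lim_zero (a : ℕ → ℕ → ℝ) (M ρ : ℝ) (hρ : 0 < ρ) (ha : ∀ L k, |a L k| ≤ M * ρ ^ k)
    (h : ∀ t : ℝ, t < 0 → ρ * |t| ≤ 1 / 2 → Tendsto (fun L => ∑' k, a L k * t ^ k) atTop (𝓝 0))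
    (t : ℝ) (ht : ρ * |t| ≤ 1 / 2) : Tendsto (fun L => ∑' k, a L k * t ^ k) atTop (𝓝 0) := by
  have h0 : 0 ≤ ρ * |t| := mul_nonneg hρ.le (abs_nonneg _)
  have h1 := tendsto_tsum_of_dominated_convergence (𝓕 := atTop)
    (f := fun L k => a L k * t ^ k) (g := fun _ => (0 : ℝ)) (bound := fun k => M * (ρ * |t|) ^ k)
    ((summable_geometric_of_lt_one h0 (by linarith)).mul_left M)
    (fun k => by
      have := (coef_zero k a M ρ hρ ha h).mul_const (t ^ k)
      simpa using this)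
    (Eventually.of_forall fun L k => by
      rw [norm_mul, norm_pow, Real.norm_eq_abs, Real.norm_eq_abs, mul_pow, ← mul_assoc]
      exact mul_le_mul_of_nonneg_right (ha L k) (by positivity))
  simpa using h1

/-- if the roots stay away from `-1`, convergence on the left implies convergence on the right -/
theorem no_gap (P : ℕ → Polynomial ℤ) (n : ℕ → ℕ) (hn : ∀ L, 0 < n L) (hP : ∀ L, P L ≠ 0)
    (hdeg : ∀ L, (P L).natDegree ≤ n L) (ε : ℝ) (hε : 0 < ε) (hε1 : ε ≤ 1)
    (hr : ∀ L, ∀ z : ℂ, Polynomial.aeval z (P L) = 0 → ε ≤ ‖1 + z‖) (D : ℕ → ℝ → ℝ)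
    (hD : ∀ L t, |t| < 1 → D L t = 1 / n L * Real.log ‖Polynomial.aeval (-1 + (t : ℂ)) (P L)‖
      - 3 / 2 * Real.log (2 - t) + 1 / 2 * Real.log (1 - t))
    (hD0 : ∀ L, |D L 0| ≤ 3)
    (hneg : ∀ t : ℝ, -1 < t → t < 0 → Tendsto (fun L => D L t) atTop (𝓝 0)) (t : ℝ)
    (ht : |t| ≤ ε / 2) : Tendsto (fun L => D L t) atTop (𝓝 0) := by
  have key : ∀ L (t : ℝ), |t| < ε → HasSum (fun k =>
      ((if k = 0 then D L 0 else 0) + (1 / (n L : ℝ) * ((rts (P L)).map (fun z => cf (1 + z) k)).sum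
        - 3 / 2 * cf 2 k + 1 / 2 * cf 1 k)) * t ^ k) (D L t) := by
    intro L t ht
    have ht1 : |t| < 1 := ht.trans_le hε1
    have ht2 := abs_lt.1 ht1
    have h1 := (poly_hasSum (P L) (hP L) ε (hr L) t ht).mul_left (1 / (n L : ℝ))
    have h2 := (cf_hasSum 2 (by norm_num) t (by
      have : ‖(2 : ℂ)‖ = 2 := by simp
      rw [this]; linarith)).mul_left (3 / 2)
    have h3 := (cf_hasSum 1 (by norm_num) t (by rw [norm_one]; exact ht1)).mul_left (1 / 2)
    have h4 : HasSum (fun k : ℕ => (if k = 0 then D L 0 else 0)) (D L 0) := hasSum_ite_eq 0 (D L 0)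
    have h5 := h4.add ((h1.sub h2).add h3)
    convert h5 using 1
    · funext k
      by_cases hk : k = 0
      · subst hk
        simp
      · simp only [hk, if_false]
        ring
    · rw [hD L t ht1, hD L 0 (by simp)]
      have e1 : ‖1 - (t : ℂ) / 2‖ = (2 - t) / 2 := by
        have : 1 - (t : ℂ) / 2 = (((2 - t) / 2 : ℝ) : ℂ) := by push_cast; ring
        rw [this, Complex.norm_real, Real.norm_eq_abs, abs_of_pos (by linarith)]
      have e2 : ‖1 - (t : ℂ) / 1‖ = 1 - t := by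
        have : 1 - (t : ℂ) / 1 = ((1 - t : ℝ) : ℂ) := by push_cast; ring
        rw [this, Complex.norm_real, Real.norm_eq_abs, abs_of_pos (by linarith)]
      rw [e1, e2, Real.log_div (by linarith) (by norm_num)]
      simp
      ring
  have hb : ∀ L k, |(if k = 0 then D L 0 else 0) + (1 / (n L : ℝ) *
      ((rts (P L)).map (fun z => cf (1 + z) k)).sum - 3 / 2 * cf 2 k + 1 / 2 * cf 1 k)|
      ≤ 3 * ε⁻¹ ^ k := by
    intro L k
    have hεi : 1 ≤ ε⁻¹ := (one_le_inv₀ hε).2 hε1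
    have hn' : (0 : ℝ) < n L := by exact_mod_cast hn L
    by_cases hk : k = 0
    · subst hk
      have e : ∀ s : Multiset ℂ, (s.map (fun z => cf (1 + z) 0)).sum = 0 := by
        intro s
        simp [cf_zero]
      rw [e, cf_zero, cf_zero]
      simpa using hD0 L
    · rw [if_neg hk, zero_add]
      have h1 := rts_bound (P L) (hP L) (n L) (hdeg L) ε hε (hr L) k
      have h2 := cf_bound 2 (ε⁻¹) (by
        have : ‖(2 : ℂ)⁻¹‖ = 1 / 2 := by simp
        rw [this]; linarith) k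
      have h3 := cf_bound 1 (ε⁻¹) (by simpa using hεi) k
      have h4 : |1 / (n L : ℝ) * ((rts (P L)).map (fun z => cf (1 + z) k)).sum| ≤ ε⁻¹ ^ k := by
        rw [abs_mul, abs_of_pos (by positivity : (0 : ℝ) < 1 / n L)]
        calc 1 / (n L : ℝ) * |((rts (P L)).map (fun z => cf (1 + z) k)).sum|
            ≤ 1 / (n L : ℝ) * (n L * ε⁻¹ ^ k) := mul_le_mul_of_nonneg_left h1 (by positivity)
          _ = ε⁻¹ ^ k := by field_simp
      rw [abs_le] at *
      constructor <;> linarith [h2.1, h2.2, h3.1, h3.2, h4.1, h4.2]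
  have hlim := lim_zero _ 3 ε⁻¹ (inv_pos.2 hε) hb (fun t ht0 ht1 => by
    have ht2 : |t| ≤ ε / 2 := by
      rw [inv_mul_le_iff₀ hε] at ht1
      linarith
    have ht3 : |t| < ε := by linarith
    refine (hneg t ?_ ht0).congr (fun L => ((key L t ht3).tsum_eq).symm)
    have := neg_abs_le t
    linarith) t (by
    rw [inv_mul_le_iff₀ hε]
    linarith)
  refine hlim.congr (fun L => (key L t (by linarith)).tsum_eq)

end Pool.Agent.H.MP_25a9e0_co
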