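import Pool.Agent.H.MP_25a9e0_co.Walk

/-!
Two sided estimates of the survival probability on cubic graphs of large girth.
-/

namespace Pool.Agent.H.MP_25a9e0_co

open Finset

set_option linter.unusedSectionVars false
set_option linter.unnecessarySeqFocus false

/-- the recursion of the probabilities -/
noncomputable def bb (p : ℝ) : ℕ → ℝ
  | 0 => 1
  | k + 1 => 1 - (1 - p * bb p k) ^ 2

theorem bb_mem (p : ℝ) (hp0 : 0 ≤ p) (hp1 : p ≤ 1) (k : ℕ) : 0 ≤ bb p k ∧ bb p k ≤ 1 := by
  induction k with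
  | zero => unfold bb; norm_num
  | succ k ih =>
    unfold bb
    have h1 : 0 ≤ p * bb p k := mul_nonneg hp0 ih.1
    have h2 : p * bb p k ≤ 1 := by nlinarith
    constructor <;> nlinarith

theorem bb_le (p : ℝ) (hp0 : 0 ≤ p) (k : ℕ) : bb p k ≤ (2 * p) ^ k := by
  induction k with
  | zero => unfold bb; norm_num
  | succ k ih =>
    rw [bb, pow_succ (2 * p) k]
    have h1 : 1 - (1 - p * bb p k) ^ 2 ≤ bb p k * (2 * p) := by nlinarith [sq_nonneg (p * bb p k)]
    have h2 : bb p k * (2 * p) ≤ (2 * p) ^ k * (2 * p) :=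
      mul_le_mul_of_nonneg_right ih (by linarith)
    linarith

section
variable {V E : Type} [DecidableEq V] [DecidableEq E] (C : Cub V E)

theorem Dep.one_sub {A : Finset E} {f : Finset E → ℝ} (hf : Dep A f) :
    Dep A (fun S => 1 - f S) := by
  intro e he S
  simp only [hf e he S]

theorem Ex_one_sub (p : ℝ) (l : List E) (f : Finset E → ℝ) :
    Ex p l (fun S => 1 - f S) = 1 - Ex p l f := by
  have := Ex_sub p l (fun _ => 1) f
  rw [Ex_const] at this
  exact this

theorem EY_of (p : ℝ) (L : ℕ) (hG : Gir C L) (l : List E) (hl : l.Nodup) (hall : ∀ e, e ∈ l)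
    (k : ℕ) (hk : k + 1 ≤ L) (v : V) (j : Fin 3) :
    Ex p l (Y C k v j) = p * Ex p l (X C k (C.nx v j) j) := by
  have h1 : Dep {C.ed v j} (fun S : Finset E => if C.ed v j ∈ S then (1 : ℝ) else 0) := by
    intro e he S
    rw [Finset.mem_singleton] at he
    have : (C.ed v j ∈ insert e S) ↔ C.ed v j ∈ S := by simp [Ne.symm he]
    simp only [this]
  have h2 := Ex_indep p l _ _ _ _ h1 (X_dep C k (C.nx v j) j)
    (Finset.disjoint_singleton_left.2 (ed_notMem C L hG k hk v j))
  have h3 : Y C k v j = fun S => (if C.ed v j ∈ S then (1 : ℝ) else 0) * X C k (C.nx v j) j S := rfl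
  rw [h3, h2, Ex_open p _ l hl (hall _)]

theorem EX (p : ℝ) (L : ℕ) (hG : Gir C L) (l : List E) (hl : l.Nodup) (hall : ∀ e, e ∈ l)
    (k : ℕ) : k ≤ L → ∀ v i, Ex p l (X C k v i) = bb p k := by
  induction k with
  | zero =>
    intro _ v i
    have : X C 0 v i = fun _ => (1 : ℝ) := rfl
    rw [this, Ex_const]
    rfl
  | succ k ih =>
    intro hk v i
    have hY : ∀ j, Ex p l (Y C k v j) = p * bb p k := by
      intro j
      rw [EY_of C p L hG l hl hall k hk v j, ih (by omega)]
    have h1 : X C (k + 1) v i = fun S => 1 - (1 - Y C k v (i + 1) S) * (1 - Y C k v (i + 2) S) := by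
      funext S; exact X_succ C k v i S
    have hne : i + 1 ≠ i + 2 := by fin_cases i <;> decide
    rw [h1, Ex_one_sub p l (fun S => (1 - Y C k v (i + 1) S) * (1 - Y C k v (i + 2) S)),
      Ex_indep p l _ _ _ _ (Y_dep C k v (i + 1)).one_sub (Y_dep C k v (i + 2)).one_sub
        (AA_disj C L hG k k hk hk v _ _ hne), Ex_one_sub, Ex_one_sub, hY, hY, bb]
    ring

theorem EY (p : ℝ) (L : ℕ) (hG : Gir C L) (l : List E) (hl : l.Nodup) (hall : ∀ e, e ∈ l)
    (k : ℕ) (hk : k + 1 ≤ L) (v : V) (j : Fin 3) : Ex p l (Y C k v j) = p * bb p k := by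
  rw [EY_of C p L hG l hl hall k hk v j, EX C p L hG l hl hall k (by omega)]

/-- the survival indicator of the whole graph -/
noncomputable def svg (l : List E) (S : Finset E) : ℝ :=
  sv C.st (fun e => C.nx (C.st e) (C.dr e)) l id S

theorem svg_or (l : List E) (S : Finset E) : svg C l S = 0 ∨ svg C l S = 1 := sv_or _ _ _ _ _

/-- lower bound for the survival probability -/
theorem lowZ [Fintype V] (p : ℝ) (hp0 : 0 ≤ p) (hp1 : p ≤ 1 / 2) (L : ℕ) (hL : 1 ≤ L)
    (hG : Gir C L) (l : List E) (hl : l.Nodup) (hall : ∀ e, e ∈ l) :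
    (1 - (2 * p) ^ L) ^ (Fintype.card V * 3) ≤ Ex p l (svg C l) := by
  have hp1' : p ≤ 1 := by linarith
  have h0 : (2 * p) ^ L ≤ 1 := pow_le_one₀ (by linarith) (by linarith)
  have h1 := Ex_harris_prod p hp0 hp1' l (Finset.univ : Finset (V × Fin 3))
    (fun x S => 1 - X C L x.1 x.2 S) (fun x S T hST => by
      have := X_mono C L x.1 x.2 hST
      show 1 - X C L x.1 x.2 T ≤ 1 - X C L x.1 x.2 S
      linarith) (fun x S => by
      have := X_le_one C L x.1 x.2 S
      show 0 ≤ 1 - X C L x.1 x.2 S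
      linarith) (1 - (2 * p) ^ L) (by linarith) (fun x => by
      rw [Ex_one_sub, EX C p L hG l hl hall L le_rfl]
      have := bb_le p hp0 L
      linarith)
  rw [Finset.card_univ, Fintype.card_prod, Fintype.card_fin] at h1
  refine h1.trans (Ex_mono p hp0 hp1' l _ _ (fun S => ?_))
  by_cases h : ∀ v i, X C L v i S = 0
  · have h2 : svg C l S = 1 := sv_eq_one C L hL hG S l hl h
    rw [h2]
    apply Finset.prod_le_one
    · intro x _
      have := X_le_one C L x.1 x.2 S
      linarith
    · intro x _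
      have := X_nonneg C L x.1 x.2 S
      linarith
  · push Not at h
    obtain ⟨v, i, hvi⟩ := h
    have h2 : X C L v i S = 1 := by
      rcases X_or C L v i S with h3 | h3
      · exact absurd h3 hvi
      · exact h3
    rw [Finset.prod_eq_zero (Finset.mem_univ (v, i)) (by simp only [h2]; ring)]
    rcases svg_or C l S with h3 | h3 <;> rw [h3] <;> norm_num

/-- good edges -/
noncomputable def GE (k : ℕ) (e : E) (S : Finset E) : ℝ :=
  Y C (k + 1) (C.st e) (C.dr e) S * X C (k + 1) (C.st e) (C.dr e) S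

/-- good vertices -/
noncomputable def GV (k : ℕ) (v : V) (S : Finset E) : ℝ :=
  Y C k v 0 S * Y C k v 1 S + Y C k v 0 S * Y C k v 2 S + Y C k v 1 S * Y C k v 2 S
    - 2 * ((Y C k v 0 S * Y C k v 1 S) * Y C k v 2 S)

theorem GE_or (k : ℕ) (e : E) (S : Finset E) : GE C k e S = 0 ∨ GE C k e S = 1 := by
  unfold GE
  rcases Y_or C (k + 1) (C.st e) (C.dr e) S with h | h <;>
    rcases X_or C (k + 1) (C.st e) (C.dr e) S with h' | h' <;> rw [h, h'] <;> norm_num

theorem GV_or (k : ℕ) (v : V) (S : Finset E) : GV C k v S = 0 ∨ GV C k v S = 1 := by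
  unfold GV
  rcases Y_or C k v 0 S with h0 | h0 <;> rcases Y_or C k v 1 S with h1 | h1 <;>
    rcases Y_or C k v 2 S with h2 | h2 <;> rw [h0, h1, h2] <;> norm_num

theorem GV_one (k : ℕ) (v : V) (i : Fin 3) (S : Finset E) (h1 : Y C k v i S = 1)
    (h2 : X C (k + 1) v i S = 1) : GV C k v S = 1 := by
  rw [X_succ] at h2
  have h3 : Y C k v (i + 1) S = 1 ∨ Y C k v (i + 2) S = 1 := by
    rcases Y_or C k v (i + 1) S with h | h
    · rcases Y_or C k v (i + 2) S with h' | h'
      · rw [h, h'] at h2; norm_num at h2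
      · right; exact h'
    · left; exact h
  unfold GV
  fin_cases i
  · simp only [Fin.zero_eta, Fin.isValue, zero_add] at h1 h3
    rcases h3 with h3 | h3
    · rw [h1, h3]; ring
    · rw [h1, h3]; ring
  · have e1 : (⟨1, by omega⟩ : Fin 3) + 1 = 2 := by decide
    have e2 : (⟨1, by omega⟩ : Fin 3) + 2 = 0 := by decide
    rw [e1, e2] at h3
    have h1' : Y C k v 1 S = 1 := h1
    rcases h3 with h3 | h3
    · rw [h1', h3]; ring
    · rw [h1', h3]; ring
  · have e1 : (⟨2, by omega⟩ : Fin 3) + 1 = 0 := by decide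
    have e2 : (⟨2, by omega⟩ : Fin 3) + 2 = 1 := by decide
    rw [e1, e2] at h3
    have h1' : Y C k v 2 S = 1 := h1
    rcases h3 with h3 | h3
    · rw [h1', h3]; ring
    · rw [h1', h3]; ring

theorem GE_imp (k : ℕ) (e : E) (S : Finset E) (h : GE C k e S = 1) :
    e ∈ S ∧ GV C k (C.st e) S = 1 ∧ GV C k (C.nx (C.st e) (C.dr e)) S = 1 := by
  unfold GE at h
  have hY : Y C (k + 1) (C.st e) (C.dr e) S = 1 := by
    rcases Y_or C (k + 1) (C.st e) (C.dr e) S with h1 | h1
    · rw [h1] at h; norm_num at h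
    · exact h1
  have hX : X C (k + 1) (C.st e) (C.dr e) S = 1 := by
    rw [hY, one_mul] at h; exact h
  unfold Y at hY
  have hS : C.ed (C.st e) (C.dr e) ∈ S := by
    by_contra hn
    rw [if_neg hn] at hY
    norm_num at hY
  rw [if_pos hS, one_mul] at hY
  have anti : ∀ v i, X C (k + 1) v i S = 1 → X C k v i S = 1 := by
    intro v i h1
    have h2 := X_anti C k v i S
    rcases X_or C k v i S with h3 | h3
    · rw [h1, h3] at h2; norm_num at h2
    · exact h3
  refine ⟨by rwa [C.ed_st] at hS, GV_one C k _ (C.dr e) S ?_ hX, GV_one C k _ (C.dr e) S ?_ hY⟩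
  · unfold Y
    rw [if_pos hS, one_mul]
    exact anti _ _ hY
  · unfold Y
    rw [C.ed_nx, if_pos hS, one_mul, C.nx_nx]
    exact anti _ _ hX

theorem good_le [Fintype V] [Fintype E] (k : ℕ) (l : List E) (hl : l.Nodup) (hall : ∀ e, e ∈ l)
    (S : Finset E) (h : svg C l S = 1) : ∑ e, GE C k e S ≤ ∑ v, GV C k v S := by
  classical
  have h1 : ∑ e, GE C k e S = ((Finset.univ.filter (fun e => GE C k e S = 1)).card : ℝ) := by
    rw [Finset.card_filter]
    push_cast
    apply Finset.sum_congr rfl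
    intro e _
    rcases GE_or C k e S with h | h <;> rw [h] <;> norm_num
  have h2 : ∑ v, GV C k v S = ((Finset.univ.filter (fun v => GV C k v S = 1)).card : ℝ) := by
    rw [Finset.card_filter]
    push_cast
    apply Finset.sum_congr rfl
    intro v _
    rcases GV_or C k v S with h | h <;> rw [h] <;> norm_num
  rw [h1, h2]
  have h3 := sv_sparse C.st (fun e => C.nx (C.st e) (C.dr e)) S
    (Finset.univ.filter (fun v => GV C k v S = 1)) l id hl h
  rw [Finset.image_id] at h3
  refine Nat.cast_le.2 (le_trans (Finset.card_le_card ?_) h3)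
  intro e he
  have he' : GE C k e S = 1 := by simpa using he
  obtain ⟨g1, g2, g3⟩ := GE_imp C k e S he'
  simp [hall e, g1, g2, g3]

theorem EGE (p : ℝ) (L : ℕ) (hG : Gir C L) (l : List E) (hl : l.Nodup) (hall : ∀ e, e ∈ l)
    (k : ℕ) (hk : k + 2 ≤ L) (e : E) :
    Ex p l (GE C k e) = p * bb p (k + 1) * bb p (k + 1) := by
  have hd : Disjoint (AA C (k + 1) (C.st e) (C.dr e)) (sup C (k + 1) (C.st e) (C.dr e)) := by
    rw [sup_succ, Finset.disjoint_union_right]
    constructor
    · exact AA_disj C L hG _ _ (by omega) (by omega) _ _ _ (by generalize C.dr e = i; fin_cases i <;> decide)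
    · exact AA_disj C L hG _ _ (by omega) (by omega) _ _ _ (by generalize C.dr e = i; fin_cases i <;> decide)
  have h1 : GE C k e = fun S => Y C (k + 1) (C.st e) (C.dr e) S * X C (k + 1) (C.st e) (C.dr e) S :=
    rfl
  rw [h1, Ex_indep p l _ _ _ _ (Y_dep C (k + 1) (C.st e) (C.dr e)) (X_dep C (k + 1) _ _) hd,
    EY C p L hG l hl hall (k + 1) (by omega), EX C p L hG l hl hall (k + 1) (by omega)]

theorem EGV (p : ℝ) (L : ℕ) (hG : Gir C L) (l : List E) (hl : l.Nodup) (hall : ∀ e, e ∈ l)
    (k : ℕ) (hk : k + 1 ≤ L) (v : V) :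
    Ex p l (GV C k v) = 3 * (p * bb p k) ^ 2 - 2 * (p * bb p k) ^ 3 := by
  have hE : ∀ j, Ex p l (Y C k v j) = p * bb p k := fun j => EY C p L hG l hl hall k hk v j
  have h2 : ∀ i j : Fin 3, i ≠ j → Ex p l (fun S => Y C k v i S * Y C k v j S)
      = (p * bb p k) * (p * bb p k) := by
    intro i j hij
    rw [Ex_indep p l _ _ _ _ (Y_dep C k v i) (Y_dep C k v j) (AA_disj C L hG k k hk hk v i j hij),
      hE, hE]
  have h3 : Ex p l (fun S => (Y C k v 0 S * Y C k v 1 S) * Y C k v 2 S)
      = (p * bb p k) * (p * bb p k) * (p * bb p k) := by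
    have d1 : Dep (AA C k v 0 ∪ AA C k v 1) (fun S => Y C k v 0 S * Y C k v 1 S) :=
      ((Y_dep C k v 0).mono Finset.subset_union_left).mul
        ((Y_dep C k v 1).mono Finset.subset_union_right)
    have d2 : Disjoint (AA C k v 0 ∪ AA C k v 1) (AA C k v 2) := by
      rw [Finset.disjoint_union_left]
      exact ⟨AA_disj C L hG k k hk hk v 0 2 (by decide), AA_disj C L hG k k hk hk v 1 2 (by decide)⟩
    rw [Ex_indep p l _ _ _ _ d1 (Y_dep C k v 2) d2, h2 0 1 (by decide), hE]
  have h4 : GV C k v = fun S => ((Y C k v 0 S * Y C k v 1 S + Y C k v 0 S * Y C k v 2 S)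
      + Y C k v 1 S * Y C k v 2 S) - 2 * ((Y C k v 0 S * Y C k v 1 S) * Y C k v 2 S) := rfl
  rw [h4, Ex_sub, Ex_add, Ex_add, Ex_smul, h2 0 1 (by decide), h2 0 2 (by decide),
    h2 1 2 (by decide), h3]
  ring

/-- balls -/
def ball : ℕ → V → Finset V
  | 0, c => {c}
  | k + 1, c => ball k c ∪ (ball k c ×ˢ (Finset.univ : Finset (Fin 3))).image
      (fun x => C.nx x.1 x.2)

theorem ball_card (k : ℕ) (c : V) : (ball C k c).card ≤ 4 ^ k := by
  induction k with
  | zero => simp [ball]
  | succ k ih =>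
    unfold ball
    refine (Finset.card_union_le _ _).trans ?_
    have h1 : ((ball C k c ×ˢ (Finset.univ : Finset (Fin 3))).image
      (fun x => C.nx x.1 x.2)).card ≤ (ball C k c).card * 3 := by
      refine Finset.card_image_le.trans ?_
      rw [Finset.card_product, Finset.card_univ, Fintype.card_fin]
    rw [pow_succ]
    omega

theorem ball_succ (k : ℕ) (c v : V) (h : v ∈ ball C k c) : v ∈ ball C (k + 1) c := by
  unfold ball
  exact Finset.mem_union_left _ h

theorem ball_nx (k : ℕ) (c v : V) (i : Fin 3) (h : v ∈ ball C k c) :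
    C.nx v i ∈ ball C (k + 1) c := by
  unfold ball
  exact Finset.mem_union_right _ (Finset.mem_image.2 ⟨(v, i), by simp [h], rfl⟩)

/-- the vertices whose events may look at `e` -/
def BB (k : ℕ) (e : E) : Finset V := ball C k (C.st e) ∪ ball C k (C.nx (C.st e) (C.dr e))

theorem BB_card (k : ℕ) (e : E) : (BB C k e).card ≤ 2 * 4 ^ k := by
  unfold BB
  refine (Finset.card_union_le _ _).trans ?_
  have h1 := ball_card C k (C.st e)
  have h2 := ball_card C k (C.nx (C.st e) (C.dr e))
  omega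

theorem BB_succ (k : ℕ) (e : E) (v : V) (h : v ∈ BB C k e) : v ∈ BB C (k + 1) e := by
  unfold BB at *
  rcases Finset.mem_union.1 h with h | h
  · exact Finset.mem_union_left _ (ball_succ C k _ _ h)
  · exact Finset.mem_union_right _ (ball_succ C k _ _ h)

theorem BB_nx (k : ℕ) (e : E) (v : V) (i : Fin 3) (h : v ∈ BB C k e) :
    C.nx v i ∈ BB C (k + 1) e := by
  unfold BB at *
  rcases Finset.mem_union.1 h with h | h
  · exact Finset.mem_union_left _ (ball_nx C k _ _ _ h)
  · exact Finset.mem_union_right _ (ball_nx C k _ _ _ h)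

theorem ball_self (k : ℕ) (c : V) : c ∈ ball C k c := by
  induction k with
  | zero => simp [ball]
  | succ k ih => exact ball_succ C k c c ih

theorem AA_BB (e : E) (k : ℕ) : ∀ v j, e ∈ AA C k v j → v ∈ BB C k e := by
  have base : ∀ k v j, e = C.ed v j → v ∈ BB C k e := by
    intro k v j h
    have h1 : C.ed v j = C.ed (C.st e) (C.dr e) := by rw [C.ed_st, h]
    obtain ⟨h2, h3⟩ := C.ed_eq _ _ _ _ h1
    unfold BB
    rcases h3 with h3 | h3
    · rw [h3]; exact Finset.mem_union_left _ (ball_self C k _)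
    · rw [h3]; exact Finset.mem_union_right _ (ball_self C k _)
  induction k with
  | zero =>
    intro v j h
    unfold AA sup at h
    exact base 0 v j (by simpa using h)
  | succ k ih =>
    intro v j h
    unfold AA at h
    rcases Finset.mem_insert.1 h with h | h
    · exact base _ v j h
    · rw [sup_succ] at h
      have h2 : C.nx v j ∈ BB C k e := by
        rcases Finset.mem_union.1 h with h | h
        · exact ih _ _ h
        · exact ih _ _ h
      have h3 := BB_nx C k e _ j h2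
      rwa [C.nx_nx] at h3

theorem GV_change (k : ℕ) (e : E) (v : V) (S : Finset E) (h : v ∉ BB C k e) :
    GV C k v (insert e S) = GV C k v S := by
  have hY : ∀ j, Y C k v j (insert e S) = Y C k v j S := fun j =>
    Y_dep C k v j e (fun h' => h (AA_BB C e k v j h')) S
  unfold GV
  rw [hY, hY, hY]

theorem GE_change (k : ℕ) (e e' : E) (S : Finset E) (h : C.st e' ∉ BB C (k + 1) e) :
    GE C k e' (insert e S) = GE C k e' S := by
  unfold GE
  rw [Y_dep C (k + 1) _ _ e (fun h' => h (AA_BB C e (k + 1) _ _ h')) S,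
    X_dep C (k + 1) _ _ e (fun h' => by
      rw [sup_succ] at h'
      rcases Finset.mem_union.1 h' with h' | h'
      · exact h (BB_succ C k e _ (AA_BB C e k _ _ h'))
      · exact h (BB_succ C k e _ (AA_BB C e k _ _ h'))) S]

/-- good edges minus good vertices -/
noncomputable def FF [Fintype V] [Fintype E] (k : ℕ) (S : Finset E) : ℝ :=
  ∑ e, GE C k e S - ∑ v, GV C k v S

theorem abs_sub_le_one {x y : ℝ} (hx : x = 0 ∨ x = 1) (hy : y = 0 ∨ y = 1) : |x - y| ≤ 1 := by
  rcases hx with h | h <;> rcases hy with h' | h' <;> rw [h, h'] <;> norm_num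

theorem FF_change [Fintype V] [Fintype E] (k : ℕ) (e : E) (S : Finset E) :
    |FF C k (insert e S) - FF C k S| ≤ 8 * 4 ^ (k + 1) := by
  classical
  have h1 : FF C k (insert e S) - FF C k S = ∑ e', (GE C k e' (insert e S) - GE C k e' S)
      - ∑ v, (GV C k v (insert e S) - GV C k v S) := by
    unfold FF
    rw [Finset.sum_sub_distrib, Finset.sum_sub_distrib]
    ring
  have h2 : |∑ e', (GE C k e' (insert e S) - GE C k e' S)|
      ≤ ((Finset.univ.filter (fun e' => C.st e' ∈ BB C (k + 1) e)).card : ℝ) := by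
    refine (Finset.abs_sum_le_sum_abs _ _).trans ?_
    rw [Finset.card_filter]
    push_cast
    apply Finset.sum_le_sum
    intro e' _
    split_ifs with h
    · exact abs_sub_le_one (GE_or C k e' _) (GE_or C k e' _)
    · rw [GE_change C k e e' S h, sub_self, abs_zero]
  have h3 : |∑ v, (GV C k v (insert e S) - GV C k v S)|
      ≤ ((Finset.univ.filter (fun v => v ∈ BB C k e)).card : ℝ) := by
    refine (Finset.abs_sum_le_sum_abs _ _).trans ?_
    rw [Finset.card_filter]
    push_cast
    apply Finset.sum_le_sum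
    intro v _
    split_ifs with h
    · exact abs_sub_le_one (GV_or C k v _) (GV_or C k v _)
    · rw [GV_change C k e v S h, sub_self, abs_zero]
  have h4 : (Finset.univ.filter (fun e' => C.st e' ∈ BB C (k + 1) e)).card
      ≤ 3 * (2 * 4 ^ (k + 1)) := by
    have h5 : (Finset.univ.filter (fun e' => C.st e' ∈ BB C (k + 1) e)).card
        ≤ (BB C (k + 1) e ×ˢ (Finset.univ : Finset (Fin 3))).card := by
      apply Finset.card_le_card_of_injOn (fun e' => (C.st e', C.dr e'))
      · intro e' he'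
        have : C.st e' ∈ BB C (k + 1) e := by simpa using he'
        simp [this]
      · intro x _ y _ hxy
        have h6 : C.st x = C.st y := (Prod.ext_iff.1 hxy).1
        have h7 : C.dr x = C.dr y := (Prod.ext_iff.1 hxy).2
        rw [← C.ed_st x, ← C.ed_st y, h6, h7]
    rw [Finset.card_product, Finset.card_univ, Fintype.card_fin] at h5
    have h6 := BB_card C (k + 1) e
    omega
  have h5 : (Finset.univ.filter (fun v => v ∈ BB C k e)).card ≤ 2 * 4 ^ (k + 1) := by
    have h6 : Finset.univ.filter (fun v => v ∈ BB C k e) ⊆ BB C k e := by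
      intro v hv
      simpa using hv
    refine (Finset.card_le_card h6).trans ((BB_card C k e).trans ?_)
    rw [pow_succ]
    omega
  have h4' : ((Finset.univ.filter (fun e' => C.st e' ∈ BB C (k + 1) e)).card : ℝ)
      ≤ 3 * (2 * 4 ^ (k + 1)) := by exact_mod_cast h4
  have h5' : ((Finset.univ.filter (fun v => v ∈ BB C k e)).card : ℝ)
      ≤ 2 * 4 ^ (k + 1) := by exact_mod_cast h5
  rw [h1]
  have h6 := abs_sub (∑ e', (GE C k e' (insert e S) - GE C k e' S))
    (∑ v, (GV C k v (insert e S) - GV C k v S))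
  linarith

/-- upper bound for the survival probability with free parameters -/
theorem upZ_t [Fintype V] [Fintype E] (p : ℝ) (hp0 : 0 ≤ p) (hp1 : p ≤ 1) (L : ℕ)
    (hG : Gir C L) (l : List E) (hl : l.Nodup) (hall : ∀ e, e ∈ l) (k : ℕ) (hk : k + 2 ≤ L)
    (t : ℝ) (ht : 0 ≤ t) (ht1 : t * (8 * 4 ^ (k + 1)) ≤ 1) :
    Ex p l (svg C l) ≤ Real.exp (-t * (Fintype.card E * (p * bb p (k + 1) * bb p (k + 1))
      - Fintype.card V * (3 * (p * bb p k) ^ 2 - 2 * (p * bb p k) ^ 3))
      + (t * (8 * 4 ^ (k + 1))) ^ 2 * l.length) := by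
  have h1 : Ex p l (svg C l) ≤ Ex p l (fun S => Real.exp (-t * FF C k S)) := by
    apply Ex_mono p hp0 hp1
    intro S
    rcases svg_or C l S with h | h
    · rw [h]; exact Real.exp_nonneg _
    · rw [h]
      apply Real.one_le_exp
      have := good_le C k l hl hall S h
      have h2 : FF C k S ≤ 0 := by unfold FF; linarith
      nlinarith
  have h2 := Ex_exp p (t * (8 * 4 ^ (k + 1))) hp0 hp1 ht1 l (fun S => -t * FF C k S)
    (fun e S => by
      have h3 := FF_change C k e S
      have h4 : -t * FF C k (insert e S) - -t * FF C k S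
          = -t * (FF C k (insert e S) - FF C k S) := by ring
      rw [h4, abs_mul, abs_neg, abs_of_nonneg ht]
      exact mul_le_mul_of_nonneg_left h3 ht)
  refine h1.trans (h2.trans (le_of_eq ?_))
  congr 2
  rw [Ex_smul]
  congr 1
  have h5 : FF C k = fun S => (∑ e, GE C k e S) - ∑ v, GV C k v S := rfl
  rw [h5, Ex_sub, Ex_sum, Ex_sum, Finset.sum_congr rfl (fun e _ => EGE C p L hG l hl hall k hk e),
    Finset.sum_congr rfl (fun v _ => EGV C p L hG l hl hall k (by omega) v)]
  simp only [Finset.sum_const, Finset.card_univ, nsmul_eq_mul]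

end

theorem cc_lim (p : ℝ) (hp0 : 1 / 2 < p) (hp1 : p ≤ 1) (k : ℕ) :
    0 ≤ p * bb p k - (2 - 1 / p) ∧ p * bb p k - (2 - 1 / p) ≤ (2 - 2 * p) ^ k := by
  have hp : 0 < p := by linarith
  have hinv : p * (1 / p) = 1 := by field_simp
  have hinv1 : 1 ≤ 1 / p := by rw [le_div_iff₀ hp]; linarith
  have hinv2 : 1 / p < 2 := by rw [div_lt_iff₀ hp]; linarith
  generalize 1 / p = s at *
  induction k with
  | zero =>
    unfold bb
    have : p ≤ s := by linarith
    constructor
    · nlinarith [sq_nonneg (p - 1)]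
    · rw [pow_zero]; nlinarith
  | succ k ih =>
    have hb := bb_mem p hp.le hp1 k
    have hc1 : p * bb p k ≤ p := by nlinarith
    have hb' : bb p (k + 1) = 2 * (p * bb p k) - (p * bb p k) ^ 2 := by
      rw [bb]; ring
    rw [hb', pow_succ (2 - 2 * p) k]
    generalize p * bb p k = c at *
    have key : p * (2 * c - c ^ 2) - (2 - s) = (c - (2 - s)) * (p * (s - c)) := by
      have h1 : p * (2 * c - c ^ 2) - (2 - s) - (c - (2 - s)) * (p * (s - c))
          = (s - 2) * (1 - p * s) := by ring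
      rw [hinv] at h1
      linarith
    have h2 : 0 ≤ p * (s - c) := by
      apply mul_nonneg hp.le
      linarith
    have h3 : p * (s - c) ≤ 2 - 2 * p := by
      have : p * (s - c) ≤ p * (s - (2 - s)) := mul_le_mul_of_nonneg_left (by linarith [ih.1]) hp.le
      nlinarith
    rw [key]
    constructor
    · exact mul_nonneg ih.1 h2
    · exact mul_le_mul ih.2 h3 h2 (pow_nonneg (by linarith) _)

/-- for some depth the expected surplus is positive -/
theorem exists_depth (p : ℝ) (hp0 : 1 / 2 < p) (hp1 : p ≤ 1) : ∃ k : ℕ,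
    0 < 3 / 2 * (p * bb p (k + 1) * bb p (k + 1)) -
      (3 * (p * bb p k) ^ 2 - 2 * (p * bb p k) ^ 3) := by
  have hp : 0 < p := by linarith
  have hinv : p * (1 / p) = 1 := by field_simp
  have hinv1 : 1 ≤ 1 / p := by rw [le_div_iff₀ hp]; linarith
  have hinv2 : 1 / p < 2 := by rw [div_lt_iff₀ hp]; linarith
  obtain ⟨k, hk⟩ := exists_pow_lt_of_lt_one (show 0 < (2 - 1 / p) / 8 by linarith)
    (show 2 - 2 * p < 1 by linarith)
  refine ⟨k, ?_⟩
  have h1 := cc_lim p hp0 hp1 k
  have hb := bb_mem p hp.le hp1 k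
  have hc1 : p * bb p k ≤ p := by nlinarith
  have hb' : bb p (k + 1) = 2 * (p * bb p k) - (p * bb p k) ^ 2 := by
    rw [bb]; ring
  rw [hb']
  generalize p * bb p k = c at *
  generalize 1 / p = s at *
  have hc0 : 0 < c := by linarith
  have key : 3 / 2 * (p * (2 * c - c ^ 2) * (2 * c - c ^ 2)) - (3 * c ^ 2 - 2 * c ^ 3)
      = c ^ 2 * (3 / 2 * p * (2 - c) ^ 2 - 3 + 2 * c) := by ring
  rw [key]
  apply mul_pos (by positivity)
  have e1 : 3 / 2 * p * (2 - c) ^ 2 - 3 + 2 * c
      = (2 - s) / 2 + (c - (2 - s)) * (2 - 3 / 2 * p * (2 - c + s)) + (3 / 2) * s * (p * s - 1) := by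
    ring
  rw [e1, hinv]
  have h5 : 2 - 3 / 2 * p * (2 - c + s) ≥ -4 := by
    have : p * (2 - c + s) ≤ 1 * 4 := by
      apply mul_le_mul hp1 (by linarith) (by linarith) (by norm_num)
    nlinarith
  have h6 : (c - (2 - s)) * (2 - 3 / 2 * p * (2 - c + s)) ≥ (c - (2 - s)) * (-4) :=
    mul_le_mul_of_nonneg_left h5 h1.1
  nlinarith

/-- exponential decay of the survival probability above one half -/
theorem upZ (p : ℝ) (hp0 : 1 / 2 < p) (hp1 : p ≤ 1) : ∃ κ : ℝ, 0 < κ ∧ ∃ K : ℕ,
    ∀ (V E : Type) [Fintype V] [Fintype E] [DecidableEq V] [DecidableEq E] (C : Cub V E) (L : ℕ),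
      Gir C L → K ≤ L → 2 * Fintype.card E = 3 * Fintype.card V →
      ∀ l : List E, l.Nodup → (∀ e, e ∈ l) →
        Ex p l (svg C l) ≤ Real.exp (-κ * Fintype.card V) := by
  obtain ⟨k, hk⟩ := exists_depth p hp0 hp1
  generalize hθ : 3 / 2 * (p * bb p (k + 1) * bb p (k + 1)) -
      (3 * (p * bb p k) ^ 2 - 2 * (p * bb p k) ^ 3) = θ at hk
  have hD : (0 : ℝ) < 8 * 4 ^ (k + 1) := by positivity
  generalize hDD : (8 * 4 ^ (k + 1) : ℝ) = D at hD
  have ht : ∃ t : ℝ, 0 < t ∧ t * D ≤ 1 ∧ 0 < t * θ - 3 / 2 * (t * D) ^ 2 := by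
    refine ⟨min (1 / D) (θ / (3 * D ^ 2)), lt_min (by positivity) (by positivity), ?_, ?_⟩
    · calc min (1 / D) (θ / (3 * D ^ 2)) * D ≤ 1 / D * D :=
          mul_le_mul_of_nonneg_right (min_le_left _ _) hD.le
        _ = 1 := by field_simp
    · have ht0 : 0 < min (1 / D) (θ / (3 * D ^ 2)) := lt_min (by positivity) (by positivity)
      have h2 : min (1 / D) (θ / (3 * D ^ 2)) * (3 * D ^ 2) ≤ θ := by
        calc min (1 / D) (θ / (3 * D ^ 2)) * (3 * D ^ 2) ≤ θ / (3 * D ^ 2) * (3 * D ^ 2) :=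
            mul_le_mul_of_nonneg_right (min_le_right _ _) (by positivity)
          _ = θ := by field_simp
      generalize min (1 / D) (θ / (3 * D ^ 2)) = t at *
      have h3 : t * θ - 3 / 2 * (t * D) ^ 2 = t * (θ - 1 / 2 * (t * (3 * D ^ 2))) := by ring
      rw [h3]
      apply mul_pos ht0
      linarith
  obtain ⟨t, ht0, ht1, ht2⟩ := ht
  refine ⟨t * θ - 3 / 2 * (t * D) ^ 2, ht2, k + 2, ?_⟩
  intro V E _ _ _ _ C L hG hL hcard l hl hall
  have h1 := upZ_t C p (by linarith) hp1 L hG l hl hall k hL t ht0.le (by rw [hDD]; exact ht1)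
  refine h1.trans (Real.exp_le_exp.2 (le_of_eq ?_))
  have hlen : l.length = Fintype.card E := by
    rw [← List.toFinset_card_of_nodup hl, Finset.eq_univ_of_forall (fun e => List.mem_toFinset.2 (hall e)),
      Finset.card_univ]
  have hc' : (Fintype.card E : ℝ) = 3 / 2 * Fintype.card V := by
    have : (2 : ℝ) * Fintype.card E = 3 * Fintype.card V := by exact_mod_cast hcard
    linarith
  rw [hDD, hlen, hc', ← hθ]
  ring

end Pool.Agent.H.MP_25a9e0_co
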