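import Mathlib

/-!
Counting proper colourings of a finite graph that are constant on a set `S` of vertices:
the two vertex removal recursions and the polynomials that interpolate the counts.
-/

namespace Pool.Agent.H.MP_25a9e0_co

open Finset

/-- Proper colourings of `G` with `k` colours that are constant on `S`, counted. -/
noncomputable def cnt {V : Type} [Fintype V] (G : SimpleGraph V) (S : Finset V) (k : ℕ) : ℕ :=
  Nat.card {c : V → Fin k // (∀ u v, G.Adj u v → c u ≠ c v) ∧ ∀ u ∈ S, ∀ v ∈ S, c u = c v}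

/-- the indicator of a proposition -/
noncomputable def ind (P : Prop) : ℤ := @ite _ P (Classical.propDecidable P) 1 0

theorem ind_and (P Q : Prop) : ind (P ∧ Q) = ind P * ind Q := by
  unfold ind; by_cases hP : P <;> by_cases hQ : Q <;> simp [hP, hQ]

theorem ind_congr {P Q : Prop} (h : P ↔ Q) : ind P = ind Q := by
  unfold ind; by_cases hP : P
  · rw [if_pos hP, if_pos (h.1 hP)]
  · rw [if_neg hP, if_neg (fun hq => hP (h.2 hq))]

theorem cnt_eq_sum {V : Type} [Fintype V] [DecidableEq V] (G : SimpleGraph V) (S : Finset V) (k : ℕ) :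
    (cnt G S k : ℤ) = ∑ c : V → Fin k,
      ind ((∀ u v, G.Adj u v → c u ≠ c v) ∧ ∀ u ∈ S, ∀ v ∈ S, c u = c v) := by
  classical
  unfold cnt
  rw [Nat.card_eq_fintype_card, Fintype.card_subtype, Finset.card_filter]
  push_cast
  apply Finset.sum_congr rfl
  intro c _
  unfold ind
  split_ifs <;> rfl

theorem prod_one_sub_ind {α : Type} [DecidableEq α] (N : Finset α) (P : α → Prop) :
    ∑ T ∈ N.powerset, (-1 : ℤ) ^ T.card * ind (∀ a ∈ T, P a) = ind (∀ a ∈ N, ¬ P a) := by
  have h1 : ∀ T : Finset α, ind (∀ a ∈ T, P a) = ∏ a ∈ T, ind (P a) := by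
    intro T
    induction T using Finset.induction_on with
    | empty => simp [ind]
    | insert a T ha ih =>
      rw [Finset.prod_insert ha, ← ih, ← ind_and]
      apply ind_congr
      simp
  have h2 : ind (∀ a ∈ N, ¬ P a) = ∏ a ∈ N, (-ind (P a) + 1) := by
    induction N using Finset.induction_on with
    | empty => simp [ind]
    | insert a T ha ih =>
      rw [Finset.prod_insert ha, ← ih]
      have : (-ind (P a) + 1) = ind (¬ P a) := by
        unfold ind; by_cases h : P a <;> simp [h]
      rw [this, ← ind_and]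
      apply ind_congr
      simp
  rw [h2, Finset.prod_add]
  apply Finset.sum_congr rfl
  intro T _
  rw [h1 T, Finset.prod_const_one, mul_one, Finset.prod_neg]

/-- the graph with one vertex removed -/
def del {V : Type} (G : SimpleGraph V) (u : V) : SimpleGraph {v : V // v ≠ u} :=
  G.comap Subtype.val

open Classical in
/-- the remaining neighbours of the removed vertex -/
noncomputable def nb {V : Type} [Fintype V] (G : SimpleGraph V) (u : V) :
    Finset {v : V // v ≠ u} :=
  Finset.univ.filter (fun v => G.Adj u v.1)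

open Classical in
/-- the trace of a set of vertices -/
noncomputable def tr {V : Type} [Fintype V] (S : Finset V) (u : V) : Finset {v : V // v ≠ u} :=
  Finset.univ.filter (fun v => v.1 ∈ S)

theorem sum_split {V : Type} [Fintype V] [DecidableEq V] (u : V) (k : ℕ) (F : (V → Fin k) → ℤ) :
    ∑ c : V → Fin k, F c
      = ∑ c' : {v : V // v ≠ u} → Fin k, ∑ x : Fin k, F ((Equiv.funSplitAt u (Fin k)).symm (x, c')) := by
  rw [← Equiv.sum_comp (Equiv.funSplitAt u (Fin k)).symm, Fintype.sum_prod_type, Finset.sum_comm]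

theorem split_at {V : Type} [DecidableEq V] (u : V) (k : ℕ) (x : Fin k) (c' : {v : V // v ≠ u} → Fin k) :
    (Equiv.funSplitAt u (Fin k)).symm (x, c') u = x := by
  simp [Equiv.funSplitAt, Equiv.piSplitAt]

theorem split_ne {V : Type} [DecidableEq V] (u : V) (k : ℕ) (x : Fin k) (c' : {v : V // v ≠ u} → Fin k)
    (v : {v : V // v ≠ u}) : (Equiv.funSplitAt u (Fin k)).symm (x, c') v.1 = c' v := by
  have := v.2
  simp [Equiv.funSplitAt, Equiv.piSplitAt, this]

theorem proper_split {V : Type} [Fintype V] [DecidableEq V] (G : SimpleGraph V) (u : V) (k : ℕ) (x : Fin k)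
    (c' : {v : V // v ≠ u} → Fin k) :
    (∀ a b, G.Adj a b → (Equiv.funSplitAt u (Fin k)).symm (x, c') a
        ≠ (Equiv.funSplitAt u (Fin k)).symm (x, c') b)
      ↔ (∀ a b, (del G u).Adj a b → c' a ≠ c' b) ∧ ∀ a ∈ nb G u, ¬ (c' a = x) := by
  constructor
  · intro h
    refine ⟨fun a b hab => ?_, fun a ha => ?_⟩
    · have := h a.1 b.1 hab
      rwa [split_ne, split_ne] at this
    · have h1 : G.Adj u a.1 := by simpa [nb] using ha
      have := h u a.1 h1
      rw [split_ne, split_at] at this
      exact fun he => this he.symm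
  · rintro ⟨h1, h2⟩ a b hab
    by_cases ha : a = u
    · subst ha
      have hb : b ≠ a := fun e => G.loopless.irrefl _ (e ▸ hab)
      have hm : (⟨b, hb⟩ : {v : V // v ≠ a}) ∈ nb G a := by simp [nb, hab]
      have := h2 _ hm
      rw [split_at, show b = (⟨b, hb⟩ : {v : V // v ≠ a}).1 from rfl, split_ne]
      exact fun he => this he.symm
    · by_cases hb : b = u
      · subst hb
        have hm : (⟨a, ha⟩ : {v : V // v ≠ b}) ∈ nb G b := by simp [nb, hab.symm]
        have := h2 _ hm
        rw [split_at, show a = (⟨a, ha⟩ : {v : V // v ≠ b}).1 from rfl, split_ne]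
        exact this
      · have := h1 ⟨a, ha⟩ ⟨b, hb⟩ hab
        rwa [← split_ne u k x c', ← split_ne u k x c'] at this

theorem rec_one {V : Type} [Fintype V] [DecidableEq V] (G : SimpleGraph V) (S : Finset V) (u : V) (hu : u ∈ S)
    (s : {v : V // v ≠ u}) (hs : s ∈ tr S u) (k : ℕ) :
    (cnt G S k : ℤ) = ∑ T ∈ (nb G u).powerset, (-1 : ℤ) ^ T.card * cnt (del G u) (tr S u ∪ T) k := by
  rw [cnt_eq_sum, sum_split u]
  have hR : ∑ T ∈ (nb G u).powerset, (-1 : ℤ) ^ T.card * cnt (del G u) (tr S u ∪ T) k
      = ∑ c' : {v : V // v ≠ u} → Fin k, ∑ T ∈ (nb G u).powerset, (-1 : ℤ) ^ T.card *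
        ind ((∀ a b, (del G u).Adj a b → c' a ≠ c' b) ∧
          ∀ a ∈ tr S u ∪ T, ∀ b ∈ tr S u ∪ T, c' a = c' b) := by
    rw [Finset.sum_comm]
    apply Finset.sum_congr rfl
    intro T _
    rw [cnt_eq_sum, Finset.mul_sum]
  rw [hR]
  apply Finset.sum_congr rfl
  intro c' _
  have h1 : ∀ x : Fin k, ind ((∀ a b, G.Adj a b → (Equiv.funSplitAt u (Fin k)).symm (x, c') a
        ≠ (Equiv.funSplitAt u (Fin k)).symm (x, c') b) ∧
        ∀ a ∈ S, ∀ b ∈ S, (Equiv.funSplitAt u (Fin k)).symm (x, c') a
          = (Equiv.funSplitAt u (Fin k)).symm (x, c') b)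
      = if x = c' s then ind (((∀ a b, (del G u).Adj a b → c' a ≠ c' b) ∧
          ∀ a ∈ tr S u, ∀ b ∈ tr S u, c' a = c' b) ∧ ∀ a ∈ nb G u, ¬ (c' a = c' s)) else 0 := by
    intro x
    rw [ind_congr (and_congr_left' (proper_split G u k x c'))]
    split_ifs with hx
    · subst hx
      apply ind_congr
      constructor
      · rintro ⟨⟨h1, h2⟩, h3⟩
        refine ⟨⟨h1, fun a ha b hb => ?_⟩, h2⟩
        have := h3 a.1 (by simpa [tr] using ha) b.1 (by simpa [tr] using hb)
        rwa [split_ne, split_ne] at this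
      · rintro ⟨⟨h1, h2⟩, h3⟩
        refine ⟨⟨h1, h3⟩, ?_⟩
        have key : ∀ a ∈ S, (Equiv.funSplitAt u (Fin k)).symm (c' s, c') a = c' s := by
          intro a ha
          by_cases hau : a = u
          · rw [hau, split_at]
          · rw [show a = (⟨a, hau⟩ : {v : V // v ≠ u}).1 from rfl, split_ne]
            exact h2 _ (by simpa [tr] using ha) _ hs
        intro a ha b hb
        rw [key a ha, key b hb]
    · unfold ind
      rw [if_neg]
      rintro ⟨_, h3⟩
      apply hx
      have := h3 u hu s.1 (by simpa [tr] using hs)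
      rwa [split_at, split_ne] at this
  rw [Finset.sum_congr rfl (fun x _ => h1 x), Finset.sum_ite_eq' Finset.univ, if_pos (Finset.mem_univ _),
    ind_and, ← prod_one_sub_ind (nb G u) (fun a => c' a = c' s), Finset.mul_sum]
  apply Finset.sum_congr rfl
  intro T _
  rw [mul_left_comm, ← ind_and]
  congr 1
  apply ind_congr
  constructor
  · rintro ⟨⟨h1, h2⟩, h3⟩
    refine ⟨h1, ?_⟩
    have key : ∀ a ∈ tr S u ∪ T, c' a = c' s := by
      intro a ha
      rcases Finset.mem_union.1 ha with h | h
      · exact h2 a h s hs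
      · exact h3 a h
    intro a ha b hb
    rw [key a ha, key b hb]
  · rintro ⟨h1, h2⟩
    refine ⟨⟨h1, fun a ha b hb => h2 a (Finset.mem_union_left _ ha) b (Finset.mem_union_left _ hb)⟩,
      fun a ha => h2 a (Finset.mem_union_right _ ha) s (Finset.mem_union_left _ hs)⟩

theorem rec_two {V : Type} [Fintype V] [DecidableEq V] (G : SimpleGraph V) (u : V) (k : ℕ) :
    (cnt G ∅ k : ℤ) = ∑ T ∈ (nb G u).powerset, (-1 : ℤ) ^ T.card *
      (if T = ∅ then (k : ℤ) * cnt (del G u) ∅ k else cnt (del G u) T k) := by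
  rw [cnt_eq_sum, sum_split u]
  have hR : ∑ T ∈ (nb G u).powerset, (-1 : ℤ) ^ T.card *
      (if T = ∅ then (k : ℤ) * cnt (del G u) ∅ k else cnt (del G u) T k)
      = ∑ c' : {v : V // v ≠ u} → Fin k, ∑ T ∈ (nb G u).powerset, (-1 : ℤ) ^ T.card *
        (ind (∀ a b, (del G u).Adj a b → c' a ≠ c' b) * ∑ x : Fin k, ind (∀ a ∈ T, c' a = x)) := by
    rw [Finset.sum_comm]
    apply Finset.sum_congr rfl
    intro T _
    rw [← Finset.mul_sum]
    congr 1
    split_ifs with hT
    · subst hT
      rw [cnt_eq_sum, Finset.mul_sum]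
      apply Finset.sum_congr rfl
      intro c' _
      rw [ind_and]
      simp [ind]
    · rw [cnt_eq_sum]
      apply Finset.sum_congr rfl
      intro c' _
      rw [ind_and]
      congr 1
      obtain ⟨t, ht⟩ := Finset.nonempty_iff_ne_empty.2 hT
      rw [Finset.sum_eq_single (c' t)]
      · apply ind_congr
        constructor
        · intro h a ha
          exact h a ha t ht
        · intro h a ha b hb
          rw [h a ha, h b hb]
      · intro x _ hx
        unfold ind
        rw [if_neg]
        intro h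
        exact hx (h t ht).symm
      · intro h
        exact absurd (Finset.mem_univ _) h
  rw [hR]
  apply Finset.sum_congr rfl
  intro c' _
  have h1 : ∀ x : Fin k, ind ((∀ a b, G.Adj a b → (Equiv.funSplitAt u (Fin k)).symm (x, c') a
        ≠ (Equiv.funSplitAt u (Fin k)).symm (x, c') b) ∧
        ∀ a ∈ (∅ : Finset V), ∀ b ∈ (∅ : Finset V), (Equiv.funSplitAt u (Fin k)).symm (x, c') a
          = (Equiv.funSplitAt u (Fin k)).symm (x, c') b)
      = ∑ T ∈ (nb G u).powerset, (-1 : ℤ) ^ T.card *
        (ind (∀ a b, (del G u).Adj a b → c' a ≠ c' b) * ind (∀ a ∈ T, c' a = x)) := by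
    intro x
    rw [ind_congr (and_congr_left' (proper_split G u k x c')), ind_and, ind_and,
      ← prod_one_sub_ind (nb G u) (fun a => c' a = x)]
    have : ind (∀ a ∈ (∅ : Finset V), ∀ b ∈ (∅ : Finset V), (Equiv.funSplitAt u (Fin k)).symm (x, c') a
          = (Equiv.funSplitAt u (Fin k)).symm (x, c') b) = 1 := by simp [ind]
    rw [this, mul_one, Finset.mul_sum]
    apply Finset.sum_congr rfl
    intro T _
    ring
  rw [Finset.sum_congr rfl (fun x _ => h1 x), Finset.sum_comm]
  apply Finset.sum_congr rfl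
  intro T _
  rw [← Finset.mul_sum, ← Finset.mul_sum]

theorem cnt_small {V : Type} [Fintype V] (G : SimpleGraph V) (S : Finset V) (hS : S.card ≤ 1)
    (k : ℕ) : cnt G S k = cnt G ∅ k := by
  classical
  have : (cnt G S k : ℤ) = cnt G ∅ k := by
    rw [cnt_eq_sum, cnt_eq_sum]
    apply Finset.sum_congr rfl
    intro c _
    apply ind_congr
    apply and_congr_right'
    constructor
    · intro _ a ha
      exact absurd ha (Finset.notMem_empty _)
    · intro _ a ha b hb
      rw [Finset.card_le_one.1 hS a ha b hb]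
  exact_mod_cast this

theorem exists_poly (n : ℕ) : ∀ (V : Type) [Fintype V], Fintype.card V = n →
    ∀ (G : SimpleGraph V) (S : Finset V), ∃ P : Polynomial ℤ, ∀ k : ℕ, P.eval (k : ℤ) = cnt G S k := by
  classical
  induction n with
  | zero =>
    intro V _ hV G S
    refine ⟨1, fun k => ?_⟩
    have : IsEmpty V := Fintype.card_eq_zero_iff.1 hV
    rw [cnt_eq_sum]
    simp [ind]
  | succ n ih =>
    intro V _ hV G S
    have hc : ∀ u : V, Fintype.card {v : V // v ≠ u} = n := by
      intro u
      have := Fintype.card_subtype_compl (fun v : V => v = u)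
      rw [Fintype.card_subtype_eq] at this
      rw [this, hV]
      rfl
    by_cases hS : S.card ≤ 1
    · have hne : Nonempty V := by
        rw [← Fintype.card_pos_iff, hV]; omega
      obtain ⟨u⟩ := hne
      choose P hP using fun T => ih {v : V // v ≠ u} (hc u) (del G u) T
      refine ⟨∑ T ∈ (nb G u).powerset, (-1) ^ T.card * (if T = ∅ then Polynomial.X * P ∅ else P T),
        fun k => ?_⟩
      rw [cnt_small G S hS, rec_two G u, Polynomial.eval_finsetSum]
      apply Finset.sum_congr rfl
      intro T _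
      rw [Polynomial.eval_mul]
      congr 1
      · simp
      · split_ifs with hT
        · rw [Polynomial.eval_mul, Polynomial.eval_X, hP]
        · rw [hP]
    · obtain ⟨a, ha, b, hb, hab⟩ := Finset.one_lt_card.1 (not_le.1 hS)
      choose P hP using fun T => ih {v : V // v ≠ a} (hc a) (del G a) T
      refine ⟨∑ T ∈ (nb G a).powerset, (-1) ^ T.card * P (tr S a ∪ T), fun k => ?_⟩
      rw [rec_one G S a ha ⟨b, hab.symm⟩ (by simp [tr, hb]), Polynomial.eval_finsetSum]
      apply Finset.sum_congr rfl
      intro T _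
      rw [Polynomial.eval_mul, hP]
      simp

/-- the polynomial counting the proper colourings constant on `S` -/
noncomputable def pol {V : Type} [Fintype V] (G : SimpleGraph V) (S : Finset V) : Polynomial ℤ :=
  Classical.choose (exists_poly _ V rfl G S)

theorem pol_eval {V : Type} [Fintype V] (G : SimpleGraph V) (S : Finset V) (k : ℕ) :
    (pol G S).eval (k : ℤ) = cnt G S k :=
  Classical.choose_spec (exists_poly _ V rfl G S) k

theorem poly_ext {P Q : Polynomial ℤ} (h : ∀ k : ℕ, P.eval (k : ℤ) = Q.eval (k : ℤ)) : P = Q := by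
  apply Polynomial.eq_of_infinite_eval_eq
  apply Set.Infinite.mono (s := Set.range (fun k : ℕ => (k : ℤ)))
  · rintro _ ⟨k, rfl⟩
    exact h k
  · exact Set.infinite_range_of_injective Nat.cast_injective

theorem pol_one {V : Type} [Fintype V] [DecidableEq V] (G : SimpleGraph V) (S : Finset V) (u : V) (hu : u ∈ S)
    (s : {v : V // v ≠ u}) (hs : s ∈ tr S u) :
    pol G S = ∑ T ∈ (nb G u).powerset, (-1) ^ T.card * pol (del G u) (tr S u ∪ T) := by
  apply poly_ext
  intro k
  rw [pol_eval, rec_one G S u hu s hs, Polynomial.eval_finsetSum]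
  apply Finset.sum_congr rfl
  intro T _
  rw [Polynomial.eval_mul, pol_eval]
  simp

theorem pol_two {V : Type} [Fintype V] [DecidableEq V] (G : SimpleGraph V) (u : V) :
    pol G ∅ = ∑ T ∈ (nb G u).powerset, (-1) ^ T.card *
      (if T = ∅ then Polynomial.X * pol (del G u) ∅ else pol (del G u) T) := by
  apply poly_ext
  intro k
  rw [pol_eval, rec_two G u, Polynomial.eval_finsetSum]
  apply Finset.sum_congr rfl
  intro T _
  rw [Polynomial.eval_mul]
  congr 1
  · simp
  · split_ifs with hT
    · rw [Polynomial.eval_mul, Polynomial.eval_X, pol_eval]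
    · rw [pol_eval]

theorem pol_small {V : Type} [Fintype V] (G : SimpleGraph V) (S : Finset V) (hS : S.card ≤ 1) :
    pol G S = pol G ∅ := by
  apply poly_ext
  intro k
  rw [pol_eval, pol_eval, cnt_small G S hS]

theorem pol_adj {V : Type} [Fintype V] (G : SimpleGraph V) (S : Finset V) (a b : V) (ha : a ∈ S)
    (hb : b ∈ S) (hab : G.Adj a b) : pol G S = 0 := by
  classical
  apply poly_ext
  intro k
  rw [pol_eval, cnt_eq_sum, Polynomial.eval_zero]
  apply Finset.sum_eq_zero
  intro c _
  unfold ind
  rw [if_neg]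
  rintro ⟨h1, h2⟩
  exact h1 a b hab (h2 a ha b hb)

end Pool.Agent.H.MP_25a9e0_co
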