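import Mathlib

/-!
Chromatic polynomials, chromatic roots of cubic graphs and the infimum of their real parts.
-/

namespace Pool.Agent.H.MP_25a9e0_co

/-- `P` is the chromatic polynomial of `G`: its value at every positive integer `k` is the number
of proper colourings of `G` with `k` colours. -/
def IsChromaticPolynomial {V : Type} (G : SimpleGraph V) (P : Polynomial ℤ) : Prop :=
  ∀ k : ℕ, 1 ≤ k → P.eval (k : ℤ) = (Nat.card (G.Coloring (Fin k)) : ℤ)

/-- The chromatic roots of finite graphs in which every vertex has exactly three neighbours. -/
def cubicRoots : Set ℂ :=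
  {z | ∃ (V : Type) (_ : Finite V) (G : SimpleGraph V) (P : Polynomial ℤ),
    (∀ v, Nat.card (G.neighborSet v) = 3) ∧ IsChromaticPolynomial G P ∧
      Polynomial.aeval z P = 0}

/-- The infimum of the real parts of the chromatic roots of cubic graphs. -/
noncomputable def m3 : ℝ := sInf (Complex.re '' cubicRoots)

end Pool.Agent.H.MP_25a9e0_co
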