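import Pool.Agent.H.MP_25a9e0_co.Count

/-!
The disc around 2 that contains all chromatic roots of graphs of maximum degree at most three.
-/

namespace Pool.Agent.H.MP_25a9e0_co

open Finset

/-- value of the counting polynomial at a complex number -/
noncomputable def val {V : Type} [Fintype V] (G : SimpleGraph V) (S : Finset V) (q : ℂ) : ℂ :=
  Polynomial.aeval q (pol G S)

theorem val_one {V : Type} [Fintype V] [DecidableEq V] (G : SimpleGraph V) (S : Finset V) (u : V)
    (hu : u ∈ S) (s : {v : V // v ≠ u}) (hs : s ∈ tr S u) (q : ℂ) :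
    val G S q = ∑ T ∈ (nb G u).powerset, (-1) ^ T.card * val (del G u) (tr S u ∪ T) q := by
  unfold val
  rw [pol_one G S u hu s hs, map_sum]
  apply Finset.sum_congr rfl
  intro T _
  rw [map_mul]
  simp

theorem val_two {V : Type} [Fintype V] [DecidableEq V] (G : SimpleGraph V) (u : V) (q : ℂ) :
    val G ∅ q = ∑ T ∈ (nb G u).powerset, (-1) ^ T.card *
      (if T = ∅ then q * val (del G u) ∅ q else val (del G u) T q) := by
  unfold val
  rw [pol_two G u, map_sum]
  apply Finset.sum_congr rfl
  intro T _
  rw [map_mul]
  congr 1
  · simp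
  · split_ifs with hT
    · rw [map_mul, Polynomial.aeval_X]
    · rfl

theorem lower {V : Type} [Fintype V] [DecidableEq V] (G : SimpleGraph V) (u : V) (q : ℂ) (δ : ℝ)
    (hd : (nb G u).card ≤ 3)
    (hT : ∀ T ∈ (nb G u).powerset, T.Nonempty →
      ‖val (del G u) T q‖ ≤ δ ^ (T.card - 1) * ‖val (del G u) ∅ q‖) :
    (‖q - ((nb G u).card : ℂ)‖ - ∑ m ∈ Finset.range ((nb G u).card + 1),
      ((nb G u).card.choose m : ℝ) * (if m ≤ 1 then 0 else δ ^ (m - 1))) * ‖val (del G u) ∅ q‖
      ≤ ‖val G ∅ q‖ := by
  have hone : ∀ T : Finset {v : V // v ≠ u}, T.card = 1 →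
      val (del G u) T q = val (del G u) ∅ q := by
    intro T h
    unfold val
    rw [pol_small _ T h.le]
  generalize hN : nb G u = N at *
  generalize hP : val (del G u) ∅ q = P at *
  have h1 : val G ∅ q - (q - N.card) * P
      = ∑ T ∈ N.powerset, ((-1) ^ T.card * (if T = ∅ then q * P else val (del G u) T q)
        - (if T.card = 0 then q * P else if T.card = 1 then -P else 0)) := by
    rw [Finset.sum_sub_distrib, val_two G u, hN, hP]
    congr 1
    rw [Finset.sum_powerset_apply_card (fun m => if m = 0 then q * P else if m = 1 then -P else 0)]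
    generalize N.card = n at *
    interval_cases n <;> simp [Finset.sum_range_succ, Nat.choose] <;> ring
  have h2 : ‖val G ∅ q - (q - N.card) * P‖ ≤ (∑ m ∈ Finset.range (N.card + 1),
      (N.card.choose m : ℝ) * (if m ≤ 1 then 0 else δ ^ (m - 1))) * ‖P‖ := by
    rw [h1]
    have h3 := Finset.sum_powerset_apply_card (x := N)
      (fun m => (if m ≤ 1 then (0 : ℝ) else δ ^ (m - 1)))
    simp only [nsmul_eq_mul] at h3
    rw [← h3, Finset.sum_mul]
    refine (norm_sum_le _ _).trans (Finset.sum_le_sum fun T hTm => ?_)
    rcases Nat.lt_trichotomy T.card 1 with h | h | h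
    · have h0 : T.card = 0 := by omega
      have : T = ∅ := Finset.card_eq_zero.1 h0
      subst this
      simp
    · have hne : T ≠ ∅ := by
        intro e; rw [e] at h; simp at h
      rw [if_neg hne, hone T h]
      simp [h]
    · have hne : T ≠ ∅ := by
        intro e; rw [e] at h; simp at h
      have h5 := hT T hTm (Finset.nonempty_iff_ne_empty.2 hne)
      rw [if_neg hne, if_neg (by omega), if_neg (by omega), if_neg (by omega), sub_zero, norm_mul,
        norm_pow, norm_neg, norm_one, one_pow, one_mul]
      exact h5
  have h3 : ‖(q - N.card) * P‖ ≤ ‖val G ∅ q‖ + ‖val G ∅ q - (q - N.card) * P‖ := by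
    have := norm_sub_le (val G ∅ q) (val G ∅ q - (q - N.card) * P)
    rwa [sub_sub_cancel] at this
  rw [norm_mul] at h3
  rw [sub_mul]
  linarith

open Classical in
/-- the degree of a vertex -/
noncomputable def dg {V : Type} [Fintype V] (G : SimpleGraph V) (u : V) : ℕ :=
  (Finset.univ.filter (fun v => G.Adj u v)).card

theorem nb_card {V : Type} [Fintype V] (G : SimpleGraph V) (u : V) : (nb G u).card = dg G u := by
  classical
  unfold nb dg
  apply Finset.card_bij (fun v _ => v.1)
  · intro v hv
    simpa using hv
  · intro a _ b _ h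
    exact Subtype.ext h
  · intro v hv
    have hv' : G.Adj u v := by simpa using hv
    exact ⟨⟨v, fun e => G.loopless.irrefl _ (e ▸ hv')⟩, by simpa using hv', rfl⟩

theorem dg_del {V : Type} [Fintype V] [DecidableEq V] (G : SimpleGraph V) (u : V) (v : {v : V // v ≠ u}) :
    dg (del G u) v ≤ dg G v.1 := by
  classical
  unfold dg
  apply Finset.card_le_card_of_injOn (fun w => w.1)
  · intro w hw
    simpa [del] using hw
  · intro a _ b _ h
    exact Subtype.ext h

theorem dg_del_adj {V : Type} [Fintype V] [DecidableEq V] (G : SimpleGraph V) (u : V) (v : {v : V // v ≠ u})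
    (h : G.Adj u v.1) : dg (del G u) v + 1 ≤ dg G v.1 := by
  classical
  unfold dg
  have hu : u ∈ Finset.univ.filter (fun w => G.Adj v.1 w) := by simpa using h.symm
  rw [← Finset.card_erase_add_one hu]
  apply Nat.succ_le_succ
  apply Finset.card_le_card_of_injOn (fun w => w.1)
  · intro w hw
    have := w.2
    simpa [del, this] using hw
  · intro a _ b _ h
    exact Subtype.ext h

theorem disc (q : ℂ) (hq : 2 + 2 * Real.sqrt 2 ≤ ‖q - 2‖) (n : ℕ) :
    ∀ (V : Type) [Fintype V], Fintype.card V = n → ∀ G : SimpleGraph V, (∀ u, dg G u ≤ 3) →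
      val G ∅ q ≠ 0 ∧ ∀ S : Finset V, S.Nonempty → (∀ u ∈ S, dg G u ≤ 2) →
        ‖val G S q‖ ≤ (1 / Real.sqrt 2) ^ (S.card - 1) * ‖val G ∅ q‖ := by
  classical
  have hs2 : Real.sqrt 2 * Real.sqrt 2 = 2 := Real.mul_self_sqrt (by norm_num)
  have hs0 : 0 < Real.sqrt 2 := Real.sqrt_pos.2 (by norm_num)
  have hs1 : (1.4 : ℝ) < Real.sqrt 2 := by
    rw [Real.lt_sqrt (by norm_num)]; norm_num
  generalize hδ : 1 / Real.sqrt 2 = δ
  have hδs : δ * Real.sqrt 2 = 1 := by rw [← hδ]; field_simp
  have hδ0 : 0 < δ := by rw [← hδ]; positivity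
  have hδ1 : δ < 1 := by nlinarith
  have hδ2 : δ * δ = 1 / 2 := by
    have : (δ * Real.sqrt 2) * (δ * Real.sqrt 2) = 1 := by rw [hδs]; ring
    nlinarith
  have hδe : δ = Real.sqrt 2 / 2 := by
    have : δ * (Real.sqrt 2 * Real.sqrt 2) = Real.sqrt 2 := by rw [← mul_assoc, hδs, one_mul]
    rw [hs2] at this
    linarith
  have hq0 : 2 * Real.sqrt 2 ≤ ‖q‖ := by
    have := norm_sub_le q (2 : ℂ)
    have h2 : ‖(2 : ℂ)‖ = 2 := by simp
    linarith
  have hq1 : 1 + 2 * Real.sqrt 2 ≤ ‖q - 1‖ := by
    have := norm_sub_le (q - 1) (1 : ℂ)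
    rw [norm_one, show q - 1 - 1 = q - 2 by ring] at this
    linarith
  have hq3 : 1 + 2 * Real.sqrt 2 ≤ ‖q - 3‖ := by
    have := norm_add_le (q - 3) (1 : ℂ)
    rw [norm_one, show q - 3 + 1 = q - 2 by ring] at this
    linarith
  induction n with
  | zero =>
    intro V _ hV G _
    have : IsEmpty V := Fintype.card_eq_zero_iff.1 hV
    have h1 : pol G ∅ = 1 := by
      apply poly_ext
      intro k
      rw [pol_eval, cnt_eq_sum]
      simp [ind]
    refine ⟨?_, fun S hS => ?_⟩
    · unfold val
      rw [h1]
      simp
    · obtain ⟨x, _⟩ := hS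
      exact (IsEmpty.false x).elim
  | succ n ih =>
    intro V _ hV G hG
    have hc : ∀ u : V, Fintype.card {v : V // v ≠ u} = n := by
      intro u
      have := Fintype.card_subtype_compl (fun v : V => v = u)
      rw [Fintype.card_subtype_eq] at this
      rw [this, hV]
      rfl
    have hIH : ∀ u : V, val (del G u) ∅ q ≠ 0 ∧ ∀ S : Finset {v : V // v ≠ u}, S.Nonempty →
        (∀ w ∈ S, dg (del G u) w ≤ 2) →
        ‖val (del G u) S q‖ ≤ δ ^ (S.card - 1) * ‖val (del G u) ∅ q‖ := by
      intro u
      exact ih _ (hc u) (del G u) (fun v => (dg_del G u v).trans (hG v.1))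
    have hnb : ∀ u : V, ∀ v ∈ nb G u, dg (del G u) v ≤ 2 := by
      intro u v hv
      have h1 : G.Adj u v.1 := by simpa [nb] using hv
      have h2 := dg_del_adj G u v h1
      have h3 := hG v.1
      omega
    have hlow : ∀ u : V, (‖q - ((nb G u).card : ℂ)‖ - ∑ m ∈ Finset.range ((nb G u).card + 1),
      ((nb G u).card.choose m : ℝ) * (if m ≤ 1 then 0 else δ ^ (m - 1))) * ‖val (del G u) ∅ q‖
      ≤ ‖val G ∅ q‖ := by
      intro u
      apply lower G u q δ ((nb_card G u).le.trans (hG u))
      intro T hT hne
      exact (hIH u).2 T hne (fun w hw => hnb u w (Finset.mem_powerset.1 hT hw))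
    refine ⟨?_, ?_⟩
    · have hne : Nonempty V := by
        rw [← Fintype.card_pos_iff, hV]; omega
      obtain ⟨u⟩ := hne
      have h1 := hlow u
      have h2 : 0 < ‖val (del G u) ∅ q‖ := norm_pos_iff.2 (hIH u).1
      have h3 : (nb G u).card ≤ 3 := (nb_card G u).le.trans (hG u)
      intro h0
      rw [h0, norm_zero] at h1
      generalize (nb G u).card = m at *
      have h4 : 0 < ‖q - (m : ℂ)‖ - ∑ m' ∈ Finset.range (m + 1),
          (m.choose m' : ℝ) * (if m' ≤ 1 then 0 else δ ^ (m' - 1)) := by
        interval_cases m
        · simp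
          intro e
          rw [e, norm_zero] at hq0
          linarith
        · simp [Finset.sum_range_succ]
          intro e
          rw [e, norm_zero] at hq1
          linarith
        · simp [Finset.sum_range_succ, Nat.choose]
          linarith
        · simp [Finset.sum_range_succ, Nat.choose]
          nlinarith
      nlinarith
    · intro S hS hSd
      by_cases hS1 : S.card ≤ 1
      · have : S.card - 1 = 0 := by omega
        rw [this, pow_zero, one_mul]
        unfold val
        rw [pol_small G S hS1]
      · obtain ⟨a, ha, b, hb, hab⟩ := Finset.one_lt_card.1 (not_le.1 hS1)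
        by_cases hadj : ∃ v ∈ S, G.Adj a v
        · obtain ⟨v, hv, hav⟩ := hadj
          have : val G S q = 0 := by
            unfold val
            rw [pol_adj G S a v ha hv hav, map_zero]
          rw [this, norm_zero]
          positivity
        · push Not at hadj
          have htr : (tr S a).card = S.card - 1 := by
            rw [← Finset.card_erase_of_mem ha]
            apply Finset.card_bij (fun v _ => v.1)
            · intro v hv
              rw [Finset.mem_erase]
              exact ⟨v.2, by simpa [tr] using hv⟩
            · intro x _ y _ h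
              exact Subtype.ext h
            · intro v hv
              rw [Finset.mem_erase] at hv
              exact ⟨⟨v, hv.1⟩, by simpa [tr] using hv.2, rfl⟩
          have hbt : (⟨b, hab.symm⟩ : {v : V // v ≠ a}) ∈ tr S a := by simp [tr, hb]
          have hbound : ∀ T ∈ (nb G a).powerset,
              ‖(-1) ^ T.card * val (del G a) (tr S a ∪ T) q‖
                ≤ δ ^ T.card * (δ ^ (S.card - 2) * ‖val (del G a) ∅ q‖) := by
            intro T hT
            have hT' := Finset.mem_powerset.1 hT
            rw [norm_mul, norm_pow, norm_neg, norm_one, one_pow, one_mul]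
            have hdisj : Disjoint (tr S a) T := by
              rw [Finset.disjoint_left]
              intro x hx hxT
              have h1 : G.Adj a x.1 := by simpa [nb] using hT' hxT
              have h2 : x.1 ∈ S := by simpa [tr] using hx
              exact hadj _ h2 h1
            have hcard : (tr S a ∪ T).card - 1 = T.card + (S.card - 2) := by
              rw [Finset.card_union_of_disjoint hdisj, htr]
              omega
            have h1 := (hIH a).2 (tr S a ∪ T) ⟨_, Finset.mem_union_left _ hbt⟩ (by
              intro w hw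
              rcases Finset.mem_union.1 hw with h | h
              · exact (dg_del G a w).trans (hSd _ (by simpa [tr] using h))
              · exact hnb a w (hT' h))
            rw [hcard, pow_add, mul_assoc] at h1
            exact h1
          have hsum : ‖val G S q‖ ≤ (1 + δ) ^ (nb G a).card *
              (δ ^ (S.card - 2) * ‖val (del G a) ∅ q‖) := by
            rw [val_one G S a ha ⟨b, hab.symm⟩ hbt q]
            refine (norm_sum_le _ _).trans ((Finset.sum_le_sum hbound).trans ?_)
            rw [← Finset.sum_mul]
            apply le_of_eq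
            congr 1
            have h3 := Finset.sum_powerset_apply_card (x := nb G a) (fun m => δ ^ m)
            rw [h3, add_comm 1 δ, add_pow]
            apply Finset.sum_congr rfl
            intro m _
            rw [nsmul_eq_mul]
            ring
          have hd2 : (nb G a).card ≤ 2 := (nb_card G a).le.trans (hSd a ha)
          have h1 := hlow a
          have hkey : (1 + δ) ^ (nb G a).card ≤ δ * (‖q - ((nb G a).card : ℂ)‖ -
              ∑ m ∈ Finset.range ((nb G a).card + 1),
              ((nb G a).card.choose m : ℝ) * (if m ≤ 1 then 0 else δ ^ (m - 1))) := by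
            clear h1 hsum hbound
            generalize (nb G a).card = m at *
            interval_cases m
            · simp
              nlinarith
            · simp [Finset.sum_range_succ]
              nlinarith
            · simp [Finset.sum_range_succ, Nat.choose]
              nlinarith
          have h5 : S.card - 1 = (S.card - 2) + 1 := by omega
          rw [h5, pow_succ]
          calc ‖val G S q‖ ≤ (1 + δ) ^ (nb G a).card *
                (δ ^ (S.card - 2) * ‖val (del G a) ∅ q‖) := hsum
            _ ≤ (δ * (‖q - ((nb G a).card : ℂ)‖ -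
              ∑ m ∈ Finset.range ((nb G a).card + 1),
              ((nb G a).card.choose m : ℝ) * (if m ≤ 1 then 0 else δ ^ (m - 1)))) *
                (δ ^ (S.card - 2) * ‖val (del G a) ∅ q‖) := by
              apply mul_le_mul_of_nonneg_right hkey
              positivity
            _ = δ ^ (S.card - 2) * δ * ((‖q - ((nb G a).card : ℂ)‖ -
              ∑ m ∈ Finset.range ((nb G a).card + 1),
              ((nb G a).card.choose m : ℝ) * (if m ≤ 1 then 0 else δ ^ (m - 1))) *
                ‖val (del G a) ∅ q‖) := by ring
            _ ≤ δ ^ (S.card - 2) * δ * ‖val G ∅ q‖ := by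
              apply mul_le_mul_of_nonneg_left h1
              positivity

end Pool.Agent.H.MP_25a9e0_co
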