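import Mathlib

/-!
Few points of the unit disc have a small normalised sum of logarithms at almost every real point.
Proof: `∫ |log |t - w|| dt` over `|t| ≤ 1` is bounded by a constant for `‖w‖ ≤ 1` (as
`|t - re w| ≤ ‖t - w‖ ≤ 2`), so the sum over `L` of the normalised sums has a finite integral,
hence is finite almost everywhere, hence its terms tend to zero.
-/

namespace Pool.Agent.H.MP_25a9e0_co.GG

open Filter Topology MeasureTheory

/-- the sum of the absolute values of the logarithms -/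
noncomputable def GAe_h (s : Multiset ℂ) (t : ℝ) : ℝ :=
  (s.map (fun w => |Real.log ‖(t : ℂ) - w‖|)).sum

theorem GAe_cons (a : ℂ) (s : Multiset ℂ) (t : ℝ) :
    GAe_h (a ::ₘ s) t = |Real.log ‖(t : ℂ) - a‖| + GAe_h s t := by
  simp [GAe_h]

theorem GAe_nonneg (s : Multiset ℂ) (t : ℝ) : 0 ≤ GAe_h s t := by
  refine Multiset.sum_nonneg fun x hx => ?_
  obtain ⟨w, -, rfl⟩ := Multiset.mem_map.1 hx
  exact abs_nonneg _

theorem GAe_abs (s : Multiset ℂ) (t : ℝ) :
    |(s.map (fun w => Real.log ‖(t : ℂ) - w‖)).sum| ≤ GAe_h s t := by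
  induction s using Multiset.induction_on with
  | empty => simp [GAe_h]
  | cons a s ih =>
    rw [GAe_cons, Multiset.map_cons, Multiset.sum_cons]
    exact (abs_add_le _ _).trans (by linarith)

theorem GAe_meas1 (w : ℂ) : Measurable fun t : ℝ => |Real.log ‖(t : ℂ) - w‖| := by
  have h1 : Measurable fun t : ℝ => ‖(t : ℂ) - w‖ :=
    (Complex.continuous_ofReal.sub continuous_const).norm.measurable
  exact (Real.measurable_log.comp h1).abs

theorem GAe_meas (s : Multiset ℂ) : Measurable (GAe_h s) := by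
  induction s using Multiset.induction_on with
  | empty =>
    have : GAe_h 0 = fun _ => 0 := by
      funext t
      simp [GAe_h]
    rw [this]
    exact measurable_const
  | cons a s ih =>
    have : GAe_h (a ::ₘ s) = fun t : ℝ => |Real.log ‖(t : ℂ) - a‖| + GAe_h s t := by
      funext t
      exact GAe_cons a s t
    rw [this]
    exact (GAe_meas1 a).add ih

theorem GAe_pt (w : ℂ) (hw : ‖w‖ ≤ 1) (t : ℝ) (ht : |t| ≤ 1) (hne : t ≠ w.re) :
    |Real.log ‖(t : ℂ) - w‖| ≤ |Real.log (t - w.re)| + Real.log 2 := by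
  have h1 : |t - w.re| ≤ ‖(t : ℂ) - w‖ := by
    have := Complex.abs_re_le_norm ((t : ℂ) - w)
    simpa using this
  have h2 : ‖(t : ℂ) - w‖ ≤ 2 := by
    refine (norm_sub_le _ _).trans ?_
    have : ‖(t : ℂ)‖ = |t| := by simp
    rw [this]
    linarith
  have h0 : 0 < |t - w.re| := abs_pos.2 (sub_ne_zero.2 hne)
  have hl2 : 0 ≤ Real.log 2 := Real.log_nonneg (by norm_num)
  rcases le_total 1 ‖(t : ℂ) - w‖ with h | h
  · rw [abs_of_nonneg (Real.log_nonneg h)]
    have := Real.log_le_log (by linarith) h2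
    have := abs_nonneg (Real.log (t - w.re))
    linarith
  · rw [abs_of_nonpos (Real.log_nonpos (norm_nonneg _) h)]
    have h3 := Real.log_le_log h0 h1
    rw [Real.log_abs] at h3
    have := neg_abs_le (Real.log (t - w.re))
    linarith

/-- the integral over `|s| ≤ 2` -/
noncomputable def GAe_C0 : ENNReal := ∫⁻ s in Set.Icc (-2 : ℝ) 2, ENNReal.ofReal |Real.log s|

theorem GAe_C0_lt : GAe_C0 < ⊤ := by
  have h1 : IntervalIntegrable Real.log volume (-2) 2 := intervalIntegral.intervalIntegrable_log'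
  have h2 : IntegrableOn Real.log (Set.Icc (-2 : ℝ) 2) volume := by
    rw [integrableOn_Icc_iff_integrableOn_Ioc]
    exact (intervalIntegrable_iff_integrableOn_Ioc_of_le (by norm_num)).1 h1
  have h3 := h2.abs
  have h4 := h3.hasFiniteIntegral
  rw [hasFiniteIntegral_iff_ofReal (Filter.Eventually.of_forall fun _ => abs_nonneg _)] at h4
  exact h4

/-- the constant -/
noncomputable def GAe_C : ENNReal := GAe_C0 + 2 * ENNReal.ofReal (Real.log 2)

theorem GAe_C_lt : GAe_C < ⊤ := by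
  unfold GAe_C
  exact ENNReal.add_lt_top.2 ⟨GAe_C0_lt, ENNReal.mul_lt_top (by simp) ENNReal.ofReal_lt_top⟩

theorem GAe_ne1 (r : ℝ) : ∀ᵐ t : ℝ, t ≠ r := by
  have := (Set.countable_singleton r).ae_notMem (volume : Measure ℝ)
  filter_upwards [this] with t ht
  exact ht

theorem GAe_one (w : ℂ) (hw : ‖w‖ ≤ 1) :
    ∫⁻ t in Set.Icc (-1 : ℝ) 1, ENNReal.ofReal |Real.log ‖(t : ℂ) - w‖| ≤ GAe_C := by
  have hre : |w.re| ≤ 1 := (Complex.abs_re_le_norm w).trans hw
  have h1 : ∫⁻ t in Set.Icc (-1 : ℝ) 1, ENNReal.ofReal |Real.log ‖(t : ℂ) - w‖| ≤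
      ∫⁻ t in Set.Icc (-1 : ℝ) 1, (ENNReal.ofReal |Real.log (t - w.re)| +
        ENNReal.ofReal (Real.log 2)) := by
    refine lintegral_mono_ae ?_
    filter_upwards [ae_restrict_mem measurableSet_Icc, ae_restrict_of_ae (GAe_ne1 w.re)] with t ht hne
    rw [← ENNReal.ofReal_add (abs_nonneg _) (Real.log_nonneg (by norm_num))]
    exact ENNReal.ofReal_le_ofReal (GAe_pt w hw t (abs_le.2 ht) hne)
  refine h1.trans ?_
  rw [lintegral_add_right _ measurable_const]
  unfold GAe_C
  refine add_le_add ?_ ?_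
  · have h2 : ∫⁻ t in Set.Icc (-1 : ℝ) 1, ENNReal.ofReal |Real.log (t - w.re)| =
        ∫⁻ t : ℝ, (Set.Icc (-1 : ℝ) 1).indicator
          (fun t => ENNReal.ofReal |Real.log (t - w.re)|) t :=
      (lintegral_indicator measurableSet_Icc _).symm
    have h3 : GAe_C0 = ∫⁻ t : ℝ, (Set.Icc (-2 : ℝ) 2).indicator
        (fun s => ENNReal.ofReal |Real.log s|) (t - w.re) := by
      rw [lintegral_sub_right_eq_self
        (fun t => (Set.Icc (-2 : ℝ) 2).indicator (fun s => ENNReal.ofReal |Real.log s|) t) w.re,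
        lintegral_indicator measurableSet_Icc]
      rfl
    rw [h2, h3]
    refine lintegral_mono fun t => ?_
    by_cases ht : t ∈ Set.Icc (-1 : ℝ) 1
    · have ht2 : t - w.re ∈ Set.Icc (-2 : ℝ) 2 := by
        have h4 := abs_le.1 hre
        exact ⟨by linarith [ht.1, h4.2], by linarith [ht.2, h4.1]⟩
      simp only [Set.indicator_of_mem ht, Set.indicator_of_mem ht2]
      exact le_rfl
    · simp only [Set.indicator_of_notMem ht]
      exact zero_le
  · rw [lintegral_const, Measure.restrict_apply_univ, Real.volume_Icc, mul_comm]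
    refine mul_le_mul_left ?_ _
    norm_num

theorem GAe_int (s : Multiset ℂ) (hs : ∀ w ∈ s, ‖w‖ ≤ 1) :
    ∫⁻ t in Set.Icc (-1 : ℝ) 1, ENNReal.ofReal (GAe_h s t) ≤ Multiset.card s * GAe_C := by
  induction s using Multiset.induction_on with
  | empty => simp [GAe_h]
  | cons a s ih =>
    have h1 : ∀ t, ENNReal.ofReal (GAe_h (a ::ₘ s) t) =
        ENNReal.ofReal |Real.log ‖(t : ℂ) - a‖| + ENNReal.ofReal (GAe_h s t) := by
      intro t
      rw [GAe_cons, ENNReal.ofReal_add (abs_nonneg _) (GAe_nonneg _ _)]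
    simp only [h1]
    rw [lintegral_add_left (GAe_meas1 a).ennreal_ofReal, Multiset.card_cons, Nat.cast_add,
      Nat.cast_one, add_mul, one_mul, add_comm]
    exact add_le_add (ih fun w hw => hs w (Multiset.mem_cons_of_mem hw))
      (GAe_one a (hs a (Multiset.mem_cons_self a s)))

theorem ae_small (N : ℕ → Multiset ℂ) (n : ℕ → ℕ) (hn : ∀ L, 0 < n L)
    (hc : ∀ L, 2 ^ L * Multiset.card (N L) ≤ n L) (hN : ∀ L, ∀ w ∈ N L, ‖w‖ ≤ 1) :
    ∀ᵐ t : ℝ, |t| ≤ 1 → Tendsto (fun L => 1 / (n L : ℝ) *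
      ((N L).map (fun w => Real.log ‖(t : ℂ) - w‖)).sum) atTop (𝓝 0) := by
  have hL : ∀ L, ∫⁻ t in Set.Icc (-1 : ℝ) 1, ENNReal.ofReal (1 / (n L : ℝ) * GAe_h (N L) t) ≤
      (2 : ENNReal)⁻¹ ^ L * GAe_C := by
    intro L
    have hn' : (0 : ℝ) < n L := by exact_mod_cast hn L
    have h1 : ∀ t, ENNReal.ofReal (1 / (n L : ℝ) * GAe_h (N L) t) =
        ENNReal.ofReal (1 / (n L : ℝ)) * ENNReal.ofReal (GAe_h (N L) t) :=
      fun t => ENNReal.ofReal_mul (by positivity)
    simp only [h1]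
    rw [lintegral_const_mul _ (GAe_meas _).ennreal_ofReal]
    refine (mul_le_mul_right (GAe_int (N L) (hN L)) _).trans ?_
    rw [← mul_assoc]
    refine mul_le_mul_left ?_ _
    have h2 : ENNReal.ofReal (1 / (n L : ℝ)) * (Multiset.card (N L) : ENNReal) =
        ENNReal.ofReal (1 / (n L : ℝ) * (Multiset.card (N L) : ℝ)) := by
      rw [ENNReal.ofReal_mul (by positivity), ENNReal.ofReal_natCast]
    have h3 : (2 : ENNReal)⁻¹ ^ L = ENNReal.ofReal ((1 / 2 : ℝ) ^ L) := by
      rw [ENNReal.ofReal_pow (by norm_num), one_div, ENNReal.ofReal_inv_of_pos (by norm_num)]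
      norm_num
    rw [h2, h3]
    refine ENNReal.ofReal_le_ofReal ?_
    have h4 : (2 : ℝ) ^ L * Multiset.card (N L) ≤ n L := by exact_mod_cast hc L
    rw [one_div, one_div, inv_pow, inv_mul_le_iff₀ hn', ← div_eq_mul_inv, le_div_iff₀ (by positivity)]
    linarith
  have hmeas : ∀ L, AEMeasurable (fun t => ENNReal.ofReal (1 / (n L : ℝ) * GAe_h (N L) t))
      (volume.restrict (Set.Icc (-1 : ℝ) 1)) := fun L =>
    ((GAe_meas (N L)).const_mul _).ennreal_ofReal.aemeasurable
  have hsum : ∫⁻ t in Set.Icc (-1 : ℝ) 1, ∑' L, ENNReal.ofReal (1 / (n L : ℝ) * GAe_h (N L) t) ≠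
      ⊤ := by
    rw [lintegral_tsum hmeas]
    refine ne_top_of_le_ne_top ?_ (ENNReal.tsum_le_tsum hL)
    rw [ENNReal.tsum_mul_right, ENNReal.tsum_geometric]
    refine (ENNReal.mul_lt_top ?_ GAe_C_lt).ne
    rw [ENNReal.one_sub_inv_two, inv_inv]
    simp
  have hae := ae_lt_top' (AEMeasurable.tsum hmeas) hsum
  rw [ae_restrict_iff' measurableSet_Icc] at hae
  filter_upwards [hae] with t ht habs
  have h1 := ENNReal.tendsto_atTop_zero_of_tsum_ne_top (ht (abs_le.1 habs)).ne
  have h2 : Tendsto (fun L => 1 / (n L : ℝ) * GAe_h (N L) t) atTop (𝓝 0) := by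
    have h3 := (ENNReal.tendsto_toReal ENNReal.zero_ne_top).comp h1
    refine h3.congr fun L => ?_
    show (ENNReal.ofReal (1 / (n L : ℝ) * GAe_h (N L) t)).toReal = _
    exact ENNReal.toReal_ofReal (mul_nonneg (by positivity) (GAe_nonneg _ _))
  refine squeeze_zero_norm (fun L => ?_) h2
  rw [norm_mul, Real.norm_eq_abs, Real.norm_eq_abs, abs_of_nonneg (by positivity)]
  exact mul_le_mul_of_nonneg_left (GAe_abs _ _) (by positivity)

theorem ae_ne (N : ℕ → Multiset ℂ) : ∀ᵐ t : ℝ, ∀ L, ∀ w ∈ N L, (t : ℂ) ≠ w := by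
  classical
  refine ae_all_iff.2 fun L => ?_
  have h1 : ∀ᵐ t : ℝ, ∀ w ∈ (N L).toFinset, (t : ℂ) ≠ w := by
    refine (Filter.eventually_all_finset (N L).toFinset).2 fun w _ => ?_
    filter_upwards [GAe_ne1 w.re] with t ht h
    exact ht (by rw [← h, Complex.ofReal_re])
  filter_upwards [h1] with t ht w hw
  exact ht w (Multiset.mem_toFinset.2 hw)

/-- a set of full measure meets every interval -/
theorem ae_meets (p : ℝ → Prop) (hp : ∀ᵐ t : ℝ, p t) (a b : ℝ) (hab : a < b) :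
    ∃ t, a < t ∧ t < b ∧ p t := by
  by_contra h
  push Not at h
  have h1 : Set.Ioo a b ⊆ {t | ¬ p t} := fun t ht => h t ht.1 ht.2
  have h2 : volume (Set.Ioo a b) = 0 := measure_mono_null h1 (ae_iff.1 hp)
  rw [Real.volume_Ioo, ENNReal.ofReal_eq_zero] at h2
  linarith

end Pool.Agent.H.MP_25a9e0_co.GG
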