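import Pool.Agent.H.MP_25a9e0_co.Analytic

/-!
Convergence on a set accumulating at zero from the left forces convergence near zero.
The proof is the one of `coef_zero` and `lim_zero` of the imported file, with a point `t` of `T`
in place of `-x`.
-/

namespace Pool.Agent.H.MP_25a9e0_co.GG

open Filter Topology

theorem GCoef_coef (T : Set ℝ) (hT : ∀ δ : ℝ, 0 < δ → ∃ t ∈ T, -δ < t ∧ t < 0) (k : ℕ) :
    ∀ (a : ℕ → ℕ → ℝ) (M ρ : ℝ), 0 < ρ → (∀ L k, |a L k| ≤ M * ρ ^ k) →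
    (∀ t ∈ T, t < 0 → ρ * |t| ≤ 1 / 2 → Tendsto (fun L => ∑' k, a L k * t ^ k) atTop (𝓝 0)) →
    Tendsto (fun L => a L k) atTop (𝓝 0) := by
  have base : ∀ (a : ℕ → ℕ → ℝ) (M ρ : ℝ), 0 < ρ → (∀ L k, |a L k| ≤ M * ρ ^ k) →
      (∀ t ∈ T, t < 0 → ρ * |t| ≤ 1 / 2 → Tendsto (fun L => ∑' k, a L k * t ^ k) atTop (𝓝 0)) →
      Tendsto (fun L => a L 0) atTop (𝓝 0) := by
    intro a M ρ hρ ha h
    have hM : 0 ≤ M := by
      have := (abs_nonneg _).trans (ha 0 0)
      simpa using this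
    rw [Metric.tendsto_atTop]
    intro η hη
    have hx : ∃ x : ℝ, 0 < x ∧ ρ * x ≤ 1 / 2 ∧ 2 * (M * ρ) * x ≤ η / 2 := by
      refine ⟨min (1 / (2 * ρ)) (η / (4 * (M * ρ) + 1)), lt_min (by positivity) (by positivity), ?_, ?_⟩
      · calc ρ * min (1 / (2 * ρ)) (η / (4 * (M * ρ) + 1)) ≤ ρ * (1 / (2 * ρ)) :=
            mul_le_mul_of_nonneg_left (min_le_left _ _) hρ.le
          _ = 1 / 2 := by field_simp
      · have h0 : 0 ≤ M * ρ := by positivity
        calc 2 * (M * ρ) * min (1 / (2 * ρ)) (η / (4 * (M * ρ) + 1))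
            ≤ 2 * (M * ρ) * (η / (4 * (M * ρ) + 1)) :=
            mul_le_mul_of_nonneg_left (min_le_right _ _) (by positivity)
          _ ≤ η / 2 := by
            rw [← mul_div_assoc, div_le_div_iff₀ (by positivity) (by norm_num)]
            nlinarith
    obtain ⟨x, hx0, hx1, hx2⟩ := hx
    obtain ⟨t, htT, ht1, ht2⟩ := hT x hx0
    have habs : |t| ≤ x := abs_le.2 ⟨by linarith, by linarith⟩
    have hρt : ρ * |t| ≤ 1 / 2 := (mul_le_mul_of_nonneg_left habs hρ.le).trans hx1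
    have h1 := h t htT ht2 hρt
    rw [Metric.tendsto_atTop] at h1
    obtain ⟨N, hN⟩ := h1 (η / 2) (by linarith)
    refine ⟨N, fun L hL => ?_⟩
    have h2 := hN L hL
    rw [Real.dist_eq, sub_zero] at h2 ⊢
    have h3 := (tail_bound (a L) M ρ t hρ (ha L) hρt).2.1
    have h4 := (tail_bound (fun k => a L (k + 1)) (M * ρ) ρ t hρ (fun k => by
      have := ha L (k + 1)
      rw [pow_succ] at this
      linarith) hρt).2.2
    have h5 : a L 0 = (∑' k, a L k * t ^ k) + -(t * ∑' k, a L (k + 1) * t ^ k) := by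
      rw [h3]; ring
    rw [h5]
    refine (abs_add_le _ _).trans_lt ?_
    rw [abs_neg, abs_mul]
    have h6 : |t| * |∑' k, a L (k + 1) * t ^ k| ≤ x * (2 * (M * ρ)) :=
      mul_le_mul habs h4 (abs_nonneg _) hx0.le
    linarith
  induction k with
  | zero => exact base
  | succ k ih =>
    intro a M ρ hρ ha h
    have hbase := base a M ρ hρ ha h
    apply ih (fun L k => a L (k + 1)) (M * ρ) ρ hρ (fun L k => by
      have := ha L (k + 1)
      rw [pow_succ] at this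
      linarith)
    intro t htT ht0 ht1
    have h1 := ((h t htT ht0 ht1).sub hbase).div_const t
    simp only [sub_zero, zero_div] at h1
    refine h1.congr (fun L => ?_)
    have h3 := (tail_bound (a L) M ρ t hρ (ha L) ht1).2.1
    rw [h3, add_sub_cancel_left, mul_div_cancel_left₀ _ ht0.ne]

theorem lim_zero_set (T : Set ℝ) (hT : ∀ δ : ℝ, 0 < δ → ∃ t ∈ T, -δ < t ∧ t < 0)
    (a : ℕ → ℕ → ℝ) (M ρ : ℝ) (hρ : 0 < ρ) (ha : ∀ L k, |a L k| ≤ M * ρ ^ k)
    (h : ∀ t ∈ T, t < 0 → ρ * |t| ≤ 1 / 2 → Tendsto (fun L => ∑' k, a L k * t ^ k) atTop (𝓝 0))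
    (t : ℝ) (ht : ρ * |t| ≤ 1 / 2) : Tendsto (fun L => ∑' k, a L k * t ^ k) atTop (𝓝 0) := by
  have h0 : 0 ≤ ρ * |t| := mul_nonneg hρ.le (abs_nonneg _)
  have h1 := tendsto_tsum_of_dominated_convergence (𝓕 := atTop)
    (f := fun L k => a L k * t ^ k) (g := fun _ => (0 : ℝ)) (bound := fun k => M * (ρ * |t|) ^ k)
    ((summable_geometric_of_lt_one h0 (by linarith)).mul_left M)
    (fun k => by
      have := (GCoef_coef T hT k a M ρ hρ ha h).mul_const (t ^ k)
      simpa using this)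
    (Eventually.of_forall fun L k => by
      rw [norm_mul, norm_pow, Real.norm_eq_abs, Real.norm_eq_abs, mul_pow, ← mul_assoc]
      exact mul_le_mul_of_nonneg_right (ha L k) (by positivity))
  simpa using h1

end Pool.Agent.H.MP_25a9e0_co.GG
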