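import Pool.Agent.H.MP_25a9e0_co.GBound

/-!
Vertices whose neighbourhood is a tree.
-/

namespace Pool.Agent.H.MP_25a9e0_co.GG

/-- no two short reduced walks from `v` have the same end -/
def Gdv {V E : Type} (C : Cubg V E) (L : ℕ) (v : V) : Prop :=
  ∀ w u, Red C v w → Red C v u → w.length ≤ L → u.length ≤ L → fn C v w = fn C v u → w = u

end Pool.Agent.H.MP_25a9e0_co.GG
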