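import Pool.Agent.H.MP_25a9e0_co.GAe
import Pool.Agent.H.MP_25a9e0_co.GCoef

/-!
Few roots near `-1`: convergence on the left of `-1` implies convergence at some point on the
right.

Proof. Split the roots `z` of `P L` into near (`‖1 + z‖ < ε`) and far ones. Put
`S L t = 1 / n L * ∑_{near} log ‖t - (1 + z)‖`, `c L = D L 0 - S L 0`,
`a L k = (if k = 0 then c L else 0) + 1 / n L * ∑_{far} cf (1 + z) k - 3 / 2 * cf 2 k
+ 1 / 2 * cf 1 k`.
(1) `∑ k, a L k * t ^ k = D L t - S L t` for `|t| < ε` with `t ≠ 1 + z` for all near `z`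
(`ms_hasSum` for the far roots, `cf_hasSum` for `2` and `1`, and
`‖P (-1 + t)‖ = ‖lead‖ * ∏_{near} ‖t - (1 + z)‖ * ∏_{far} ‖t - (1 + z)‖`).
(2) `|c L| ≤ 100`: from below since `log ‖1 + z‖ ≤ 0` for near `z`; from above by the maximum
principle for `B = lead * ∏_{far} (X - z)` on the ball of radius `2` around `-1`: on its boundary
`‖B‖ ≤ ‖P‖ ≤ 100 ^ n` as `‖x - z‖ ≥ 1` for near `z` (`Complex.norm_le_of_forall_mem_frontier_norm_le`).
(3) `|a L k| ≤ M * ε⁻¹ ^ k` (`ms_bound`, `cf_bound`).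
(4) `ae_small`, `ae_ne` give `S L t → 0` for almost every `t`, so `∑ k, a L k * t ^ k → 0` for almost
every `t ∈ (-1, 0)`; by `lim_zero_set` for every `|t| ≤ ε / 2`; by `ae_meets` there is a good `t` in
`(0, ε / 2)`.
-/

namespace Pool.Agent.H.MP_25a9e0_co.GG

open Filter Topology

/-- the normalised sum over the near roots -/
noncomputable def GG_S (n : ℕ) (N : Multiset ℂ) (t : ℝ) : ℝ :=
  1 / (n : ℝ) * (N.map (fun z => Real.log ‖(t : ℂ) - (1 + z)‖)).sum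

theorem GG_logsum (x : ℂ) (N : Multiset ℂ) : (∀ z ∈ N, x ≠ z) →
    (N.map (fun z => x - z)).prod ≠ 0 ∧
      Real.log ‖(N.map (fun z => x - z)).prod‖ = (N.map (fun z => Real.log ‖x - z‖)).sum := by
  induction N using Multiset.induction_on with
  | empty => intro _; simp
  | cons z s ih =>
    intro h
    obtain ⟨h1, h2⟩ := ih (fun y hy => h y (Multiset.mem_cons_of_mem hy))
    have h3 : x - z ≠ 0 := sub_ne_zero.2 (h z (Multiset.mem_cons_self z s))
    refine ⟨?_, ?_⟩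
    · rw [Multiset.map_cons, Multiset.prod_cons]
      exact mul_ne_zero h3 h1
    · rw [Multiset.map_cons, Multiset.prod_cons, Multiset.map_cons, Multiset.sum_cons, norm_mul,
        Real.log_mul (norm_ne_zero_iff.2 h3) (norm_ne_zero_iff.2 h1), h2]

theorem GG_eval (P : Polynomial ℤ) (N F : Multiset ℂ) (hNF : rts P = N + F) (x : ℂ) :
    Polynomial.aeval x P = (P.map (Int.castRingHom ℂ)).leadingCoeff *
      ((N.map (fun z => x - z)).prod * (F.map (fun z => x - z)).prod) := by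
  have hsp : (P.map (Int.castRingHom ℂ)).Splits := IsAlgClosed.splits _
  have hrt : (P.map (Int.castRingHom ℂ)).roots = rts P := rfl
  rw [aeval_eq, hsp.eval_eq_prod_roots, hrt, hNF, Multiset.map_add, Multiset.prod_add]

theorem GG_lc (P : Polynomial ℤ) (hP : P ≠ 0) :
    ‖(P.map (Int.castRingHom ℂ)).leadingCoeff‖ ≠ 0 := by
  have hinj : Function.Injective (Int.castRingHom ℂ) := Int.cast_injective
  exact norm_ne_zero_iff.2 (Polynomial.leadingCoeff_ne_zero.2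
    ((Polynomial.map_ne_zero_iff hinj).2 hP))

theorem GG_far (F : Multiset ℂ) (ε t : ℝ) (hF : ∀ z ∈ F, ε ≤ ‖1 + z‖) (ht : |t| < ε) :
    (F.map (fun z => (-1 + (t : ℂ)) - z)).prod ≠ 0 := by
  refine (GG_logsum (-1 + (t : ℂ)) F fun z hz h => ?_).1
  have h1 := hF z hz
  have h2 : 1 + z = (t : ℂ) := by rw [← h]; ring
  rw [h2, Complex.norm_real, Real.norm_eq_abs] at h1
  linarith

theorem GG_log (P : Polynomial ℤ) (hP : P ≠ 0) (ε : ℝ) (N F : Multiset ℂ) (hNF : rts P = N + F)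
    (hF : ∀ z ∈ F, ε ≤ ‖1 + z‖) (t : ℝ) (ht : |t| < ε) (hN : ∀ z ∈ N, (t : ℂ) ≠ 1 + z) :
    Real.log ‖Polynomial.aeval (-1 + (t : ℂ)) P‖ =
      Real.log ‖(P.map (Int.castRingHom ℂ)).leadingCoeff‖ +
        (N.map (fun z => Real.log ‖(t : ℂ) - (1 + z)‖)).sum +
        Real.log ‖(F.map (fun z => (-1 + (t : ℂ)) - z)).prod‖ := by
  obtain ⟨h1, h2⟩ := GG_logsum (-1 + (t : ℂ)) N fun z hz h => hN z hz (by rw [← h]; ring)
  have h3 := GG_far F ε t hF ht
  have h4 : (N.map (fun z => Real.log ‖(-1 + (t : ℂ)) - z‖)) =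
      N.map (fun z => Real.log ‖(t : ℂ) - (1 + z)‖) := by
    refine Multiset.map_congr rfl fun z _ => ?_
    congr 2
    ring
  rw [GG_eval P N F hNF, norm_mul, norm_mul, Real.log_mul (GG_lc P hP)
    (mul_ne_zero (norm_ne_zero_iff.2 h1) (norm_ne_zero_iff.2 h3)),
    Real.log_mul (norm_ne_zero_iff.2 h1) (norm_ne_zero_iff.2 h3), h2, h4, add_assoc]

theorem GG_hasSum (P : Polynomial ℤ) (hP : P ≠ 0) (n : ℕ) (ε : ℝ) (hε : 0 < ε) (hε1 : ε ≤ 1)
    (N F : Multiset ℂ) (hNF : rts P = N + F) (hF : ∀ z ∈ F, ε ≤ ‖1 + z‖)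
    (hN0 : ∀ z ∈ N, ((0 : ℝ) : ℂ) ≠ 1 + z) (D : ℝ → ℝ)
    (hD : ∀ t, |t| < 1 → D t = 1 / n * Real.log ‖Polynomial.aeval (-1 + (t : ℂ)) P‖
      - 3 / 2 * Real.log (2 - t) + 1 / 2 * Real.log (1 - t)) (t : ℝ) (ht : |t| < ε)
    (hN : ∀ z ∈ N, (t : ℂ) ≠ 1 + z) :
    HasSum (fun k => ((if k = 0 then D 0 - GG_S n N 0 else 0) + (1 / (n : ℝ) *
      (F.map (fun z => cf (1 + z) k)).sum - 3 / 2 * cf 2 k + 1 / 2 * cf 1 k)) * t ^ k)
      (D t - GG_S n N t) := by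
  have ht1 : |t| < 1 := ht.trans_le hε1
  have ht2 := abs_lt.1 ht1
  have h1 := (ms_hasSum t F (fun z hz => ht.trans_le (hF z hz))).mul_left (1 / (n : ℝ))
  have h2 := (cf_hasSum 2 (by norm_num) t (by
    have : ‖(2 : ℂ)‖ = 2 := by simp
    rw [this]; linarith)).mul_left (3 / 2)
  have h3 := (cf_hasSum 1 (by norm_num) t (by rw [norm_one]; exact ht1)).mul_left (1 / 2)
  have h4 : HasSum (fun k : ℕ => (if k = 0 then D 0 - GG_S n N 0 else 0)) (D 0 - GG_S n N 0) :=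
    hasSum_ite_eq 0 _
  have h5 := h4.add ((h1.sub h2).add h3)
  convert h5 using 1
  · funext k
    by_cases hk : k = 0
    · subst hk
      simp
    · simp only [hk, if_false]
      ring
  · have ht0 : |(0 : ℝ)| < ε := by rw [abs_zero]; exact hε
    rw [hD t ht1, hD 0 (by simp), GG_log P hP ε N F hNF hF t ht hN,
      GG_log P hP ε N F hNF hF 0 ht0 hN0]
    have e1 : ‖1 - (t : ℂ) / 2‖ = (2 - t) / 2 := by
      have : 1 - (t : ℂ) / 2 = (((2 - t) / 2 : ℝ) : ℂ) := by push_cast; ring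
      rw [this, Complex.norm_real, Real.norm_eq_abs, abs_of_pos (by linarith)]
    have e2 : ‖1 - (t : ℂ) / 1‖ = 1 - t := by
      have : 1 - (t : ℂ) / 1 = ((1 - t : ℝ) : ℂ) := by push_cast; ring
      rw [this, Complex.norm_real, Real.norm_eq_abs, abs_of_pos (by linarith)]
    have e3 : (F.map (fun z => (-1 + ((0 : ℝ) : ℂ)) - z)) = F.map (fun z => (-1 : ℂ) - z) := by
      refine Multiset.map_congr rfl fun z _ => ?_
      rw [Complex.ofReal_zero, add_zero]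
    rw [e1, e2, e3, Real.log_div (by linarith) (by norm_num), sub_zero, sub_zero, Real.log_one]
    unfold GG_S
    ring

theorem GG_prod_ge (x : ℂ) (N : Multiset ℂ) : (∀ z ∈ N, 1 ≤ ‖x - z‖) →
    1 ≤ ‖(N.map (fun z => x - z)).prod‖ := by
  induction N using Multiset.induction_on with
  | empty => intro _; simp
  | cons z s ih =>
    intro h
    rw [Multiset.map_cons, Multiset.prod_cons, norm_mul]
    exact one_le_mul_of_one_le_of_one_le (h z (Multiset.mem_cons_self z s))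
      (ih fun y hy => h y (Multiset.mem_cons_of_mem hy))

/-- the maximum principle for the far part -/
theorem GG_max (P : Polynomial ℤ) (n : ℕ) (N F : Multiset ℂ) (hNF : rts P = N + F)
    (hN : ∀ z ∈ N, ‖1 + z‖ ≤ 1)
    (hup : ∀ z : ℂ, ‖1 + z‖ = 2 → ‖Polynomial.aeval z P‖ ≤ 100 ^ n) :
    ‖(P.map (Int.castRingHom ℂ)).leadingCoeff * (F.map (fun z => (-1 : ℂ) - z)).prod‖ ≤
      100 ^ n := by
  obtain ⟨c, hc⟩ : ∃ c, c = (P.map (Int.castRingHom ℂ)).leadingCoeff := ⟨_, rfl⟩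
  have hev : ∀ x : ℂ, (Polynomial.C c * (F.map (fun z => Polynomial.X - Polynomial.C z)).prod).eval x
      = c * (F.map (fun z => x - z)).prod := by
    intro x
    rw [Polynomial.eval_mul, Polynomial.eval_C, Polynomial.eval_multiset_prod, Multiset.map_map]
    congr 2
    refine Multiset.map_congr rfl fun z _ => ?_
    simp
  have h1 := Complex.norm_le_of_forall_mem_frontier_norm_le (U := Metric.ball (-1 : ℂ) 2)
    (f := fun x => (Polynomial.C c * (F.map (fun z => Polynomial.X - Polynomial.C z)).prod).eval x)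
    (C := 100 ^ n) Metric.isBounded_ball
    ((Polynomial.differentiable _).diffContOnCl) (by
      intro x hx
      rw [frontier_ball (-1 : ℂ) (by norm_num)] at hx
      have hx2 : ‖1 + x‖ = 2 := by
        have h2 := mem_sphere_iff_norm.1 hx
        rw [← h2]
        congr 1
        ring
      have h3 : 1 ≤ ‖(N.map (fun z => x - z)).prod‖ := by
        refine GG_prod_ge x N fun z hz => ?_
        have h4 := hN z hz
        have h5 : ‖1 + x‖ ≤ ‖x - z‖ + ‖1 + z‖ := by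
          have h6 := norm_add_le (x - z) (1 + z)
          have h7 : x - z + (1 + z) = 1 + x := by ring
          rwa [h7] at h6
        linarith
      have h8 := hup x hx2
      rw [GG_eval P N F hNF, ← hc, norm_mul, norm_mul] at h8
      simp only [hev]
      rw [norm_mul]
      refine le_trans ?_ h8
      refine mul_le_mul_of_nonneg_left ?_ (norm_nonneg _)
      exact le_mul_of_one_le_left (norm_nonneg _) h3)
    (z := -1) (subset_closure (Metric.mem_ball_self (by norm_num)))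
  simp only [hev] at h1
  rw [← hc]
  exact h1

theorem GG_sum_nonpos (N : Multiset ℂ) (f : ℂ → ℝ) : (∀ z ∈ N, f z ≤ 0) → (N.map f).sum ≤ 0 := by
  induction N using Multiset.induction_on with
  | empty => intro _; simp
  | cons z s ih =>
    intro h
    rw [Multiset.map_cons, Multiset.sum_cons]
    exact add_nonpos (h z (Multiset.mem_cons_self z s))
      (ih fun y hy => h y (Multiset.mem_cons_of_mem hy))

theorem GG_c (P : Polynomial ℤ) (hP : P ≠ 0) (n : ℕ) (hn : 0 < n) (ε : ℝ) (hε : 0 < ε)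
    (N F : Multiset ℂ) (hNF : rts P = N + F) (hF : ∀ z ∈ F, ε ≤ ‖1 + z‖)
    (hN1 : ∀ z ∈ N, ‖1 + z‖ ≤ 1)
    (hN0 : ∀ z ∈ N, ((0 : ℝ) : ℂ) ≠ 1 + z) (D : ℝ → ℝ)
    (hD : ∀ t, |t| < 1 → D t = 1 / n * Real.log ‖Polynomial.aeval (-1 + (t : ℂ)) P‖
      - 3 / 2 * Real.log (2 - t) + 1 / 2 * Real.log (1 - t)) (hD0 : |D 0| ≤ 3)
    (hup : ∀ z : ℂ, ‖1 + z‖ = 2 → ‖Polynomial.aeval z P‖ ≤ 100 ^ n) :
    |D 0 - GG_S n N 0| ≤ 100 := by
  have hn' : (0 : ℝ) < n := by exact_mod_cast hn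
  have h1 := abs_le.1 hD0
  have h2 : GG_S n N 0 ≤ 0 := by
    unfold GG_S
    refine mul_nonpos_of_nonneg_of_nonpos (by positivity) (GG_sum_nonpos N _ fun z hz => ?_)
    refine Real.log_nonpos (norm_nonneg _) ?_
    rw [Complex.ofReal_zero, zero_sub, norm_neg]
    exact hN1 z hz
  have ht0 : |(0 : ℝ)| < ε := by rw [abs_zero]; exact hε
  have h3 := GG_far F ε 0 hF ht0
  have e3 : (F.map (fun z => (-1 + ((0 : ℝ) : ℂ)) - z)) = F.map (fun z => (-1 : ℂ) - z) := by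
    refine Multiset.map_congr rfl fun z _ => ?_
    rw [Complex.ofReal_zero, add_zero]
  rw [e3] at h3
  have h4 := GG_max P n N F hNF hN1 hup
  rw [norm_mul] at h4
  have hl := GG_lc P hP
  have h5 : Real.log ‖(P.map (Int.castRingHom ℂ)).leadingCoeff‖ +
      Real.log ‖(F.map (fun z => (-1 : ℂ) - z)).prod‖ ≤ n * Real.log 100 := by
    rw [← Real.log_mul hl (norm_ne_zero_iff.2 h3), ← Real.log_pow]
    refine Real.log_le_log ?_ h4
    exact mul_pos (lt_of_le_of_ne (norm_nonneg _) hl.symm) (norm_pos_iff.2 h3)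
  have h6 : D 0 - GG_S n N 0 = 1 / n * (Real.log ‖(P.map (Int.castRingHom ℂ)).leadingCoeff‖ +
      Real.log ‖(F.map (fun z => (-1 : ℂ) - z)).prod‖) - 3 / 2 * Real.log 2 := by
    rw [hD 0 (by simp), GG_log P hP ε N F hNF hF 0 ht0 hN0, e3, sub_zero, sub_zero, Real.log_one]
    unfold GG_S
    ring
  have h7 : 1 / (n : ℝ) * (Real.log ‖(P.map (Int.castRingHom ℂ)).leadingCoeff‖ +
      Real.log ‖(F.map (fun z => (-1 : ℂ) - z)).prod‖) ≤ Real.log 100 := by
    rw [one_div, inv_mul_le_iff₀ hn']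
    exact h5
  have h8 : Real.log 100 ≤ 99 := by
    have := Real.log_le_sub_one_of_pos (show (0 : ℝ) < 100 by norm_num)
    linarith
  have h9 : 0 ≤ Real.log 2 := Real.log_nonneg (by norm_num)
  refine abs_le.2 ⟨by linarith, ?_⟩
  rw [h6]
  linarith

theorem GG_b (P : Polynomial ℤ) (n : ℕ) (hn : 0 < n)
    (hdeg : P.natDegree ≤ n) (ε : ℝ) (hε : 0 < ε) (hε1 : ε ≤ 1)
    (N F : Multiset ℂ) (hNF : rts P = N + F) (hF : ∀ z ∈ F, ε ≤ ‖1 + z‖) (c : ℝ)
    (hc : |c| ≤ 100) (k : ℕ) :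
    |(if k = 0 then c else 0) + (1 / (n : ℝ) *
      (F.map (fun z => cf (1 + z) k)).sum - 3 / 2 * cf 2 k + 1 / 2 * cf 1 k)| ≤
      103 * ε⁻¹ ^ k := by
  have hεi : 1 ≤ ε⁻¹ := (one_le_inv₀ hε).2 hε1
  have hn' : (0 : ℝ) < n := by exact_mod_cast hn
  have hk1 : 1 ≤ ε⁻¹ ^ k := one_le_pow₀ hεi
  have hcard : Multiset.card F ≤ n := by
    have h2 : Multiset.card (rts P) ≤ P.natDegree := by
      unfold rts
      exact (Polynomial.card_roots' _).trans Polynomial.natDegree_map_le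
    rw [hNF, Multiset.card_add] at h2
    omega
  have h1 : |(F.map (fun z => cf (1 + z) k)).sum| ≤ n * ε⁻¹ ^ k := by
    refine (ms_bound F (fun z => cf (1 + z) k) (ε⁻¹ ^ k) (fun z hz => ?_)).trans
      (mul_le_mul_of_nonneg_right (by exact_mod_cast hcard) (by positivity))
    apply cf_bound
    rw [norm_inv]
    exact inv_anti₀ hε (hF z hz)
  have h2 := cf_bound 2 (ε⁻¹) (by
    have : ‖(2 : ℂ)⁻¹‖ = 1 / 2 := by simp
    rw [this]; linarith) k
  have h3 := cf_bound 1 (ε⁻¹) (by simpa using hεi) k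
  have h4 : |1 / (n : ℝ) * (F.map (fun z => cf (1 + z) k)).sum| ≤ ε⁻¹ ^ k := by
    rw [abs_mul, abs_of_pos (by positivity : (0 : ℝ) < 1 / n)]
    calc 1 / (n : ℝ) * |(F.map (fun z => cf (1 + z) k)).sum|
        ≤ 1 / (n : ℝ) * (n * ε⁻¹ ^ k) := mul_le_mul_of_nonneg_left h1 (by positivity)
      _ = ε⁻¹ ^ k := by field_simp
  have h5 : |(if k = 0 then c else 0)| ≤ 100 * ε⁻¹ ^ k := by
    split_ifs with hk
    · linarith
    · rw [abs_zero]
      positivity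
  rw [abs_le] at *
  constructor <;> linarith [h2.1, h2.2, h3.1, h3.2, h4.1, h4.2, h5.1, h5.2]

theorem gap_prop (P : ℕ → Polynomial ℤ) (n : ℕ → ℕ) (hn : ∀ L, 0 < n L) (hP : ∀ L, P L ≠ 0)
    (hdeg : ∀ L, (P L).natDegree ≤ n L) (ε : ℝ) (hε : 0 < ε) (hε1 : ε ≤ 1)
    (hz : ∀ L, Polynomial.aeval (-1 : ℂ) (P L) ≠ 0)
    (hr : ∀ L, 2 ^ L * Multiset.card ((rts (P L)).filter (fun z => ‖1 + z‖ < ε)) ≤ n L)
    (hup : ∀ L, ∀ z : ℂ, ‖1 + z‖ = 2 → ‖Polynomial.aeval z (P L)‖ ≤ 100 ^ n L)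
    (D : ℕ → ℝ → ℝ)
    (hD : ∀ L t, |t| < 1 → D L t = 1 / n L * Real.log ‖Polynomial.aeval (-1 + (t : ℂ)) (P L)‖
      - 3 / 2 * Real.log (2 - t) + 1 / 2 * Real.log (1 - t))
    (hD0 : ∀ L, |D L 0| ≤ 3)
    (hneg : ∀ t : ℝ, -1 < t → t < 0 → Tendsto (fun L => D L t) atTop (𝓝 0)) :
    ∃ t : ℝ, 0 < t ∧ t < ε / 2 ∧ Tendsto (fun L => D L t) atTop (𝓝 0) := by
  obtain ⟨nr, hnr⟩ : ∃ nr : ℕ → Multiset ℂ, ∀ L, nr L =
      (rts (P L)).filter (fun z => ‖1 + z‖ < ε) := ⟨_, fun _ => rfl⟩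
  obtain ⟨fr, hfr⟩ : ∃ fr : ℕ → Multiset ℂ, ∀ L, fr L =
      (rts (P L)).filter (fun z => ¬ ‖1 + z‖ < ε) := ⟨_, fun _ => rfl⟩
  have hNF : ∀ L, rts (P L) = nr L + fr L := fun L => by
    rw [hnr, hfr, Multiset.filter_add_not]
  have hinj : Function.Injective (Int.castRingHom ℂ) := Int.cast_injective
  have hroot : ∀ L, ∀ z ∈ rts (P L), Polynomial.aeval z (P L) = 0 := fun L z hz => by
    rw [aeval_eq]
    exact (Polynomial.mem_roots ((Polynomial.map_ne_zero_iff hinj).2 (hP L))).1 hz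
  have hF : ∀ L, ∀ z ∈ fr L, ε ≤ ‖1 + z‖ := fun L z hz => by
    rw [hfr] at hz
    exact not_lt.1 (Multiset.mem_filter.1 hz).2
  have hN1 : ∀ L, ∀ z ∈ nr L, ‖1 + z‖ ≤ 1 := fun L z hz => by
    rw [hnr] at hz
    exact ((Multiset.mem_filter.1 hz).2.trans_le hε1).le
  have hN0 : ∀ L, ∀ z ∈ nr L, ((0 : ℝ) : ℂ) ≠ 1 + z := fun L z hzm h => by
    rw [hnr] at hzm
    have h1 := hroot L z (Multiset.mem_filter.1 hzm).1
    have h2 : z = -1 := by
      rw [Complex.ofReal_zero] at h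
      linear_combination -h
    rw [h2] at h1
    exact hz L h1
  have hc : ∀ L, |D L 0 - GG_S (n L) (nr L) 0| ≤ 100 := fun L =>
    GG_c (P L) (hP L) (n L) (hn L) ε hε (nr L) (fr L) (hNF L) (hF L) (hN1 L) (hN0 L) (D L)
      (hD L) (hD0 L) (hup L)
  have key := fun L (t : ℝ) (ht : |t| < ε) (hN : ∀ z ∈ nr L, (t : ℂ) ≠ 1 + z) =>
    GG_hasSum (P L) (hP L) (n L) ε hε hε1 (nr L) (fr L) (hNF L) (hF L) (hN0 L) (D L) (hD L) t ht hN
  obtain ⟨N', hN'⟩ : ∃ N' : ℕ → Multiset ℂ, ∀ L, N' L = (nr L).map (fun z => 1 + z) :=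
    ⟨_, fun _ => rfl⟩
  have hS : ∀ L (t : ℝ), 1 / (n L : ℝ) * ((N' L).map (fun w => Real.log ‖(t : ℂ) - w‖)).sum =
      GG_S (n L) (nr L) t := fun L t => by
    rw [hN', Multiset.map_map]
    rfl
  have hae1 := ae_small N' n hn (fun L => by
    rw [hN', Multiset.card_map, hnr]
    exact hr L) (fun L w hw => by
    rw [hN'] at hw
    obtain ⟨z, hz, rfl⟩ := Multiset.mem_map.1 hw
    exact hN1 L z hz)
  have hae := hae1.and (ae_ne N')
  obtain ⟨T, hT⟩ : ∃ T : Set ℝ, T = {t : ℝ | (|t| ≤ 1 → Tendsto (fun L => 1 / (n L : ℝ) *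
      ((N' L).map (fun w => Real.log ‖(t : ℂ) - w‖)).sum) atTop (𝓝 0)) ∧
      ∀ L, ∀ w ∈ N' L, (t : ℂ) ≠ w} := ⟨_, rfl⟩
  have hTm : ∀ a b : ℝ, a < b → ∃ t ∈ T, a < t ∧ t < b := fun a b hab => by
    obtain ⟨t, h1, h2, h3⟩ := ae_meets _ hae a b hab
    refine ⟨t, ?_, h1, h2⟩
    rw [hT]
    exact h3
  have hTS : ∀ t ∈ T, |t| ≤ 1 → Tendsto (fun L => GG_S (n L) (nr L) t) atTop (𝓝 0) := by
    intro t ht h1
    rw [hT] at ht
    exact (ht.1 h1).congr fun L => hS L t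
  have hTN : ∀ t ∈ T, ∀ L, ∀ z ∈ nr L, (t : ℂ) ≠ 1 + z := by
    intro t ht L z hz
    rw [hT] at ht
    exact ht.2 L (1 + z) (by rw [hN']; exact Multiset.mem_map_of_mem _ hz)
  have hlim := lim_zero_set T (fun δ hδ => by
      obtain ⟨t, h1, h2, h3⟩ := hTm (-δ) 0 (by linarith)
      exact ⟨t, h1, h2, h3⟩)
    (fun L k => (if k = 0 then D L 0 - GG_S (n L) (nr L) 0 else 0) + (1 / (n L : ℝ) *
      ((fr L).map (fun z => cf (1 + z) k)).sum - 3 / 2 * cf 2 k + 1 / 2 * cf 1 k))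
    103 ε⁻¹ (inv_pos.2 hε)
    (fun L k => GG_b (P L) (n L) (hn L) (hdeg L) ε hε hε1 (nr L) (fr L) (hNF L) (hF L) _ (hc L) k)
    (fun t htT ht0 ht1 => by
      have ht2 : |t| ≤ ε / 2 := by
        rw [inv_mul_le_iff₀ hε] at ht1
        linarith
      have ht3 : |t| < ε := by linarith
      have ht4 := neg_abs_le t
      have h1 := (hneg t (by linarith) ht0).sub (hTS t htT (by linarith))
      rw [sub_zero] at h1
      exact h1.congr fun L => ((key L t ht3 (hTN t htT L)).tsum_eq).symm)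
  obtain ⟨t, htT, h1, h2⟩ := hTm 0 (ε / 2) (by linarith)
  have ht : |t| ≤ ε / 2 := by
    rw [abs_of_pos h1]
    exact h2.le
  refine ⟨t, h1, h2, ?_⟩
  have h3 := (hlim t (by
    rw [inv_mul_le_iff₀ hε]
    linarith)).add (hTS t htT (by linarith))
  rw [add_zero] at h3
  refine h3.congr fun L => ?_
  rw [(key L t (by linarith) (hTN t htT L)).tsum_eq]
  ring

end Pool.Agent.H.MP_25a9e0_co.GG
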