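import Pool.Agent.H.MP_25a9e0_co.Half

/-!
The centre and the ratio exist for every `r` with real part at least `5 / √6`.
-/

namespace Pool.Agent.H.MP_25a9e0_co

theorem exists_small_root (r : ℂ) : ∃ a : ℂ, a * a + r * a = 1 ∧ ‖a‖ ≤ 1 := by
  obtain ⟨w, hw⟩ := IsAlgClosed.exists_pow_nat_eq (r ^ 2 + 4) (n := 2) (by norm_num)
  have h1 : ((-r + w) / 2) * ((-r + w) / 2) + r * ((-r + w) / 2) = 1 := by
    linear_combination (1 / 4) * hw
  have h2 : ((-r - w) / 2) * ((-r - w) / 2) + r * ((-r - w) / 2) = 1 := by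
    linear_combination (1 / 4) * hw
  have h3 : ‖(-r + w) / 2‖ * ‖(-r - w) / 2‖ = 1 := by
    rw [← norm_mul]
    have : (-r + w) / 2 * ((-r - w) / 2) = -1 := by
      linear_combination (-1 / 4) * hw
    rw [this, norm_neg, norm_one]
  by_cases h : ‖(-r + w) / 2‖ ≤ 1
  · exact ⟨_, h1, h⟩
  · refine ⟨_, h2, ?_⟩
    by_contra h'
    push Not at h h'
    nlinarith

theorem exists_good (r : ℂ) (hr : 5 / Real.sqrt 6 ≤ r.re) : ∃ (a : ℂ) (μ : ℝ), Good r a μ := by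
  have hs2 : Real.sqrt 6 * Real.sqrt 6 = 6 := Real.mul_self_sqrt (by norm_num)
  have hs0 : 0 < Real.sqrt 6 := Real.sqrt_pos.2 (by norm_num)
  have hs1 : (2.4 : ℝ) < Real.sqrt 6 := by
    rw [Real.lt_sqrt (by norm_num)]; norm_num
  have hs3 : Real.sqrt 6 < 2.5 := by
    rw [Real.sqrt_lt' (by norm_num)]; norm_num
  have hinv : 5 / Real.sqrt 6 = 5 * Real.sqrt 6 / 6 := by
    rw [div_eq_div_iff hs0.ne' (by norm_num)]
    nlinarith
  rw [hinv] at hr
  generalize Real.sqrt 6 = s at *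
  obtain ⟨a, hq, ha1⟩ := exists_small_root r
  have ha0 : a ≠ 0 := by
    intro e
    rw [e] at hq
    simp at hq
  have ht0 : 0 < ‖a‖ := norm_pos_iff.2 ha0
  have hnsq : ‖a‖ ^ 2 = a.re ^ 2 + a.im ^ 2 := by
    rw [← Complex.normSq_eq_norm_sq, Complex.normSq_apply]
    ring
  have hre : (a * a + r * a).re = 1 := by rw [hq]; simp
  have him : (a * a + r * a).im = 0 := by rw [hq]; simp
  simp only [Complex.add_re, Complex.mul_re, Complex.add_im, Complex.mul_im] at hre him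
  have hkey : r.re * ‖a‖ ^ 2 = a.re * (1 - ‖a‖ ^ 2) := by
    rw [hnsq]
    linear_combination a.re * hre + a.im * him
  have hxt : a.re ≤ ‖a‖ := Complex.re_le_norm a
  have hL2 : ‖1 + 2 * a‖ ^ 2 = 1 + 4 * a.re + 4 * ‖a‖ ^ 2 := by
    rw [hnsq, ← Complex.normSq_eq_norm_sq, Complex.normSq_apply]
    simp only [Complex.add_re, Complex.one_re, Complex.mul_re, Complex.re_ofNat,
      Complex.im_ofNat, Complex.add_im, Complex.one_im, Complex.mul_im]
    ring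
  have hL0 : 0 ≤ ‖1 + 2 * a‖ := norm_nonneg _
  have hfin : ∀ μ : ℝ, 0 < μ → μ ≤ 1 → ‖a‖ ≤ 1 / 2 → 2 ≤ r.re → 0 ≤ a.re →
      2 * ‖a‖ + 2 * ‖a‖ * μ + 2 * ‖a‖ ^ 2 ≤ ‖1 + 2 * a‖ →
      ‖a‖ * (1 + μ) ^ 2 + μ * ‖a‖ ^ 2 ≤ μ * ‖1 + 2 * a‖ → ∃ (a : ℂ) (μ : ℝ), Good r a μ :=
    fun μ h1 h2 h3 h4 h5 h6 h7 => ⟨a, μ, ⟨hq, h1, h2, ht0, h3, h4, h5, h6, h7⟩⟩
  generalize ‖a‖ = t at *
  generalize ‖1 + 2 * a‖ = L at *
  have hrpos : 2 ≤ r.re := by nlinarith
  have hx0 : 0 < a.re := by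
    by_contra h
    push Not at h
    have h1 : 0 < r.re * t ^ 2 := by positivity
    have h2 : a.re * (1 - t ^ 2) ≤ 0 := mul_nonpos_of_nonpos_of_nonneg h (by nlinarith)
    linarith
  have ht1 : t ^ 2 < 1 := by
    by_contra h
    push Not at h
    have h1 : 0 < r.re * t ^ 2 := by positivity
    have h2 : a.re * (1 - t ^ 2) ≤ 0 := mul_nonpos_of_nonneg_of_nonpos hx0.le (by linarith)
    linarith
  -- `t ≤ 1 / √6`
  have hct : r.re * t ≤ 1 - t ^ 2 := by
    have h1 : r.re * t ^ 2 ≤ t * (1 - t ^ 2) := by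
      rw [hkey]
      exact mul_le_mul_of_nonneg_right hxt (by linarith)
    have h2 : t * (r.re * t) ≤ t * (1 - t ^ 2) := by nlinarith
    exact le_of_mul_le_mul_left h2 ht0
  have hts : t * s ≤ 1 := by
    by_contra h
    push Not at h
    have h1 : 5 * s / 6 * t ≤ 1 - t ^ 2 := (mul_le_mul_of_nonneg_right hr ht0.le).trans hct
    have h2 : 1 < (t * s) * (t * s) := by nlinarith
    nlinarith
  have ht6 : 6 * t ^ 2 ≤ 1 := by
    have h1 : (t * s) * (t * s) ≤ 1 := by nlinarith [mul_pos ht0 hs0]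
    nlinarith
  have hx : 5 * s / 6 * t ^ 2 ≤ a.re * (1 - t ^ 2) := by
    rw [← hkey]
    exact mul_le_mul_of_nonneg_right hr (by positivity)
  have hL : t * (2 + s) ≤ L := by
    have h1 : t ^ 2 * (10 + 4 * s) * (1 - t ^ 2) ≤ L ^ 2 * (1 - t ^ 2) := by
      rw [hL2]
      have h2 : 0 ≤ (1 - 6 * t ^ 2) * (1 - (1 + 2 * s / 3) * t ^ 2) := by
        apply mul_nonneg (by linarith)
        nlinarith
      nlinarith
    have h3 : t ^ 2 * (10 + 4 * s) ≤ L ^ 2 := le_of_mul_le_mul_right h1 (by linarith)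
    have h4 : (t * (2 + s)) ^ 2 ≤ L ^ 2 := by nlinarith
    exact abs_le_of_sq_le_sq' h4 hL0 |>.2
  have ht2 : t ≤ 1 / 2 := by nlinarith
  by_cases hc : 4 * t + 2 * t ^ 2 ≤ L
  · exact hfin 1 one_pos le_rfl ht2 hrpos hx0.le (by linarith) (by nlinarith)
  · push Not at hc
    obtain ⟨M, hM⟩ : ∃ M : ℝ, 2 * t * M = L - 2 * t - 2 * t ^ 2 :=
      ⟨(L - 2 * t - 2 * t ^ 2) / (2 * t), by field_simp⟩
    have hM1 : M ≤ 1 := by
      have : 2 * t * M ≤ 2 * t * 1 := by linarith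
      exact le_of_mul_le_mul_left this (by linarith)
    have hts6 : 6 * t ≤ s := by nlinarith
    have hMt : s / 2 ≤ M + t := by
      have : 2 * t * (s / 2) ≤ 2 * t * (M + t) := by nlinarith
      exact le_of_mul_le_mul_left this (by linarith)
    have hM3 : s / 3 ≤ M := by linarith
    have hM0 : 0 < M := by linarith
    have hprod : 1 ≤ M * (M + t) := by
      have : s / 3 * (s / 2) ≤ M * (M + t) := mul_le_mul hM3 hMt (by linarith) hM0.le
      nlinarith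
    refine hfin M hM0 hM1 ht2 hrpos hx0.le (by linarith) ?_
    have hL' : L = 2 * t * M + 2 * t + 2 * t ^ 2 := by linarith
    rw [hL']
    have h5 := mul_le_mul_of_nonneg_left hprod ht0.le
    nlinarith

end Pool.Agent.H.MP_25a9e0_co
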