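import Pool.Agent.H.MP_25a9e0_co.Defs
import Pool.Agent.H.MP_25a9e0_co.HalfNum

/-!
The half plane bound in terms of the definitions.
-/

namespace Pool.Agent.H.MP_25a9e0_co

theorem card_col {V : Type} [Fintype V] (G : SimpleGraph V) (k : ℕ) :
    Nat.card (G.Coloring (Fin k)) = cnt G ∅ k := by
  unfold cnt
  apply Nat.card_congr
  exact
    { toFun := fun c => ⟨c, fun u v h => c.valid h, fun u hu => absurd hu (Finset.notMem_empty u)⟩
      invFun := fun c => SimpleGraph.Coloring.mk c.1 (fun {u v} h => c.2.1 u v h)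
      left_inv := fun c => by ext v; rfl
      right_inv := fun c => by apply Subtype.ext; rfl }

theorem eq_pol {V : Type} [Fintype V] (G : SimpleGraph V) (P : Polynomial ℤ)
    (hP : IsChromaticPolynomial G P) : P = pol G ∅ := by
  apply Polynomial.eq_of_infinite_eval_eq
  apply Set.Infinite.mono (s := Set.range (fun k : ℕ => ((k + 1 : ℕ) : ℤ)))
  · rintro _ ⟨k, rfl⟩
    show P.eval ((k + 1 : ℕ) : ℤ) = (pol G ∅).eval ((k + 1 : ℕ) : ℤ)
    rw [hP (k + 1) (by omega), card_col, pol_eval]
  · apply Set.infinite_range_of_injective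
    intro a b h
    have h1 : ((a + 1 : ℕ) : ℤ) = ((b + 1 : ℕ) : ℤ) := h
    have h2 : a + 1 = b + 1 := by exact_mod_cast h1
    omega

theorem dg_eq {V : Type} [Fintype V] (G : SimpleGraph V) (u : V) :
    dg G u = Nat.card (G.neighborSet u) := by
  classical
  unfold dg
  rw [Nat.card_eq_fintype_card, Fintype.card_subtype]
  rfl

theorem half_plane (V : Type) (_ : Finite V) (G : SimpleGraph V) (P : Polynomial ℤ) (z : ℂ)
    (hG : ∀ v, Nat.card (G.neighborSet v) ≤ 3) (hP : IsChromaticPolynomial G P)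
    (hz : Polynomial.aeval z P = 0) : -(5 / Real.sqrt 6) < z.re := by
  by_contra hcon
  push Not at hcon
  have := Fintype.ofFinite V
  obtain ⟨a, μ, hg⟩ := exists_good (-z) (by rw [Complex.neg_re]; linarith)
  have h1 := (inv_all (-z) a μ hg (Fintype.card V) V rfl G (fun u => by
    rw [dg_eq]; exact hG u)).1
  apply h1
  unfold val
  rw [← eq_pol G P hP, neg_neg]
  exact hz

theorem cubic_low : ∀ x ∈ Complex.re '' cubicRoots, -(5 / Real.sqrt 6) ≤ x := by
  rintro x ⟨z, ⟨V, hV, G, P, hG, hP, hz⟩, rfl⟩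
  exact (half_plane V hV G P z (fun v => (hG v).le) hP hz).le

end Pool.Agent.H.MP_25a9e0_co
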