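import Pool.Agent.H.MP_25a9e0_co.GNear
import Pool.Agent.H.MP_25a9e0_co.Link

/-!
From simple graphs of large girth to the data of the previous files, and back.
-/

namespace Pool.Agent.H.MP_25a9e0_co.GG

open SimpleGraph

section
variable {V : Type} (G : SimpleGraph V) (h3 : ∀ v, Nat.card (G.neighborSet v) = 3)

/-- numbering of the neighbours -/
noncomputable def nbr (v : V) : Fin 3 ≃ G.neighborSet v :=
  (finCongr (h3 v).symm).trans (Nat.equivFinOfCardPos (by rw [h3]; norm_num)).symm

/-- the neighbour with a given number -/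
noncomputable def nxt (v : V) (i : Fin 3) : V := (nbr G h3 v i).1

theorem nxt_adj (v : V) (i : Fin 3) : G.Adj v (nxt G h3 v i) := (nbr G h3 v i).2

theorem nxt_inj (v : V) (i j : Fin 3) (h : nxt G h3 v i = nxt G h3 v j) : i = j :=
  (nbr G h3 v).injective (Subtype.ext h)

theorem nxt_surj (v u : V) (h : G.Adj v u) : ∃ i, nxt G h3 v i = u :=
  ⟨(nbr G h3 v).symm ⟨u, h⟩, by unfold nxt; rw [Equiv.apply_symm_apply]⟩

/-- the number of the way back -/
noncomputable def rvt (v : V) (i : Fin 3) : Fin 3 :=
  Classical.choose (nxt_surj G h3 (nxt G h3 v i) v (nxt_adj G h3 v i).symm)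

theorem nxt_nxt (v : V) (i : Fin 3) : nxt G h3 (nxt G h3 v i) (rvt G h3 v i) = v :=
  Classical.choose_spec (nxt_surj G h3 (nxt G h3 v i) v (nxt_adj G h3 v i).symm)

/-- the edge with a given number -/
noncomputable def edt (v : V) (i : Fin 3) : G.edgeSet :=
  ⟨s(v, nxt G h3 v i), nxt_adj G h3 v i⟩

theorem edt_surj (e : G.edgeSet) : ∃ x : V × Fin 3, edt G h3 x.1 x.2 = e := by
  obtain ⟨e, he⟩ := e
  induction e using Sym2.ind with
  | _ a b =>
    obtain ⟨i, hi⟩ := nxt_surj G h3 a b he
    refine ⟨(a, i), ?_⟩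
    unfold edt
    apply Subtype.ext
    show s(a, nxt G h3 a i) = s(a, b)
    rw [hi]

/-- the data of a cubic graph -/
noncomputable def toC : Cubg V G.edgeSet where
  nx := nxt G h3
  rv := rvt G h3
  ed := edt G h3
  st := fun e => (Classical.choose (edt_surj G h3 e)).1
  dr := fun e => (Classical.choose (edt_surj G h3 e)).2
  nx_nx := nxt_nxt G h3
  rv_rv := by
    intro v i
    apply nxt_inj G h3 v
    have h1 := nxt_nxt G h3 (nxt G h3 v i) (rvt G h3 v i)
    rw [nxt_nxt G h3 v i] at h1
    exact h1
  ed_nx := by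
    intro v i
    unfold edt
    apply Subtype.ext
    show s(nxt G h3 v i, nxt G h3 (nxt G h3 v i) (rvt G h3 v i)) = s(v, nxt G h3 v i)
    rw [nxt_nxt, Sym2.eq_swap]
  ed_eq := by
    intro v u i j h
    have h1 : s(v, nxt G h3 v i) = s(u, nxt G h3 u j) := Subtype.ext_iff.1 h
    rcases Sym2.eq_iff.1 h1 with ⟨h2, h4⟩ | ⟨h2, h4⟩
    · left
      subst h2
      exact ⟨rfl, nxt_inj G h3 v i j h4⟩
    · right
      refine ⟨h2, ?_⟩
      subst h2
      apply nxt_inj G h3 (nxt G h3 u j)
      rw [h4, nxt_nxt]
  ed_st := fun e => Classical.choose_spec (edt_surj G h3 e)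

/-- the walk of a word -/
noncomputable def wk : (v : V) → (w : List (Fin 3)) → G.Walk v (fn (toC G h3) v w)
  | _, [] => Walk.nil
  | v, i :: w => Walk.cons (nxt_adj G h3 v i) (wk (nxt G h3 v i) w)

theorem wk_length (w : List (Fin 3)) : ∀ v, (wk G h3 v w).length = w.length := by
  induction w with
  | nil => intro v; rfl
  | cons i w ih =>
    intro v
    have h := ih (nxt G h3 v i)
    show (wk G h3 (nxt G h3 v i) w).length + 1 = w.length + 1
    rw [h]

theorem wk_chain (w : List (Fin 3)) : ∀ v, Red (toC G h3) v w →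
    List.IsChain (· ≠ ·) (wk G h3 v w).edges := by
  induction w with
  | nil => intro v _; exact List.isChain_nil
  | cons i w ih =>
    intro v h
    have h1 := ih (nxt G h3 v i) h.2
    cases w with
    | nil => exact List.isChain_singleton _
    | cons j w =>
      show List.IsChain (· ≠ ·) (s(v, nxt G h3 v i) ::
        (s(nxt G h3 v i, nxt G h3 (nxt G h3 v i) j) ::
          (wk G h3 (nxt G h3 (nxt G h3 v i) j) w).edges))
      rw [List.isChain_cons_cons]
      refine ⟨?_, h1⟩
      intro h2
      have h4 : (toC G h3).ed v i = (toC G h3).ed (nxt G h3 v i) j := Subtype.ext h2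
      rcases (toC G h3).ed_eq _ _ _ _ h4 with ⟨h5, _⟩ | ⟨h5, h6⟩
      · exact (nxt_adj G h3 v i).ne h5
      · apply h.1
        show some j = some (rvt G h3 v i)
        congr 1
        apply nxt_inj G h3 (nxt G h3 v i)
        rw [nxt_nxt]
        exact h5.symm

theorem sup_head {W : Type} (K : SimpleGraph W) {a b : W} (p : K.Walk a b) :
    p.support.head? = some a := by
  cases p <;> rfl

theorem wk_inj (w : List (Fin 3)) : ∀ v u, (wk G h3 v w).support = (wk G h3 v u).support →
    w = u := by
  induction w with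
  | nil =>
    intro v u h
    cases u with
    | nil => rfl
    | cons j u =>
      have h1 := congrArg List.length h
      rw [Walk.length_support, Walk.length_support, wk_length, wk_length] at h1
      simp at h1
  | cons i w ih =>
    intro v u h
    cases u with
    | nil =>
      have h1 := congrArg List.length h
      rw [Walk.length_support, Walk.length_support, wk_length, wk_length] at h1
      simp at h1
    | cons j u =>
      have h1 : v :: (wk G h3 (nxt G h3 v i) w).support
        = v :: (wk G h3 (nxt G h3 v j) u).support := h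
      have h2 := (List.cons.inj h1).2
      have h4 : nxt G h3 v i = nxt G h3 v j := by
        have h5 := congrArg List.head? h2
        rw [sup_head, sup_head] at h5
        exact Option.some.inj h5
      have h6 := nxt_inj G h3 v i j h4
      subst h6
      rw [ih _ _ h2]

theorem toC_gir (L : ℕ) (hg : ((2 * L + 1 : ℕ) : ℕ∞) ≤ G.egirth) : Gir (toC G h3) L := by
  intro v w u hw hu hwL huL h
  set p := wk G h3 v w with hp
  set q := (wk G h3 v u).copy rfl h.symm with hq
  have hpe : ∀ e ∈ p.edges, e ∈ G.edgeSet := fun e he => p.edges_subset_edgeSet he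
  have hqe : ∀ e ∈ q.edges, e ∈ G.edgeSet := fun e he => q.edges_subset_edgeSet he
  set H : SimpleGraph V := fromEdgeSet {e | e ∈ p.edges ∨ e ∈ q.edges} with hH
  have hmem : ∀ e, e ∈ H.edgeSet ↔ (e ∈ p.edges ∨ e ∈ q.edges) := by
    intro e
    rw [hH, edgeSet_fromEdgeSet]
    constructor
    · intro h1
      exact h1.1
    · intro h1
      refine ⟨h1, ?_⟩
      intro h2
      have h4 : e ∈ G.edgeSet := by
        rcases h1 with h1 | h1
        · exact hpe e h1
        · exact hqe e h1
      exact G.not_isDiag_of_mem_edgeSet h4 h2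
  have hle : H ≤ G := by
    rw [← edgeSet_subset_edgeSet]
    intro e he
    rcases (hmem e).1 he with h1 | h1
    · exact hpe e h1
    · exact hqe e h1
  have hac : H.IsAcyclic := by
    intro x c hc
    have h1 : c.edges ⊆ p.edges ++ q.edges := by
      intro e he
      have h2 := (hmem e).1 (c.edges_subset_edgeSet he)
      rw [List.mem_append]
      exact h2
    have h2 := (List.subperm_of_subset hc.edges_nodup h1).length_le
    rw [List.length_append, Walk.length_edges, Walk.length_edges, Walk.length_edges] at h2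
    have h4 : p.length ≤ L := by rw [hp, wk_length]; exact hwL
    have h5 : q.length ≤ L := by rw [hq, Walk.length_copy, wk_length]; exact huL
    have h6 := le_egirth.1 hg x (c.mapLe hle) (hc.mapLe hle)
    rw [Walk.length_mapLe] at h6
    have h7 : 2 * L + 1 ≤ c.length := by exact_mod_cast h6
    omega
  have hpc : List.IsChain (· ≠ ·) p.edges := wk_chain G h3 w v hw
  have hqc : List.IsChain (· ≠ ·) q.edges := by
    rw [hq, Walk.edges_copy]
    exact wk_chain G h3 u v hu
  have e1 : ∀ e ∈ p.edges, e ∈ H.edgeSet := fun e he => (hmem e).2 (Or.inl he)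
  have e2 : ∀ e ∈ q.edges, e ∈ H.edgeSet := fun e he => (hmem e).2 (Or.inr he)
  have hp' : (p.transfer H e1).IsPath := by
    rw [hac.isPath_iff_isChain, Walk.edges_transfer]
    exact hpc
  have hq' : (q.transfer H e2).IsPath := by
    rw [hac.isPath_iff_isChain, Walk.edges_transfer]
    exact hqc
  have hsub := hac.subsingleton_path v (fn (toC G h3) v w)
  have huniq : (⟨_, hp'⟩ : H.Path v (fn (toC G h3) v w)) = ⟨_, hq'⟩ := Subsingleton.elim _ _
  have h8 : p.transfer H e1 = q.transfer H e2 := Subtype.ext_iff.1 huniq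
  have h9 := congrArg Walk.support h8
  rw [Walk.support_transfer, Walk.support_transfer, hq, Walk.support_copy] at h9
  exact wk_inj G h3 w v u h9

theorem toC_cnt [Fintype V] [DecidableEq V] (l : List G.edgeSet)
    (hall : ∀ e, e ∈ l) (k : ℕ) : cnt G ∅ k
      = num (toC G h3).st (fun e => (toC G h3).nx ((toC G h3).st e) ((toC G h3).dr e)) l id k := by
  unfold cnt num
  apply Nat.card_congr
  apply Equiv.subtypeEquivRight
  intro c
  constructor
  · rintro ⟨h1, _⟩
    exact ⟨fun u v h => by rw [show u = v from h], fun e _ => h1 _ _ (nxt_adj G h3 _ _)⟩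
  · rintro ⟨_, h2⟩
    refine ⟨?_, fun u hu => absurd hu (Finset.notMem_empty u)⟩
    intro u v huv
    obtain ⟨i, rfl⟩ := nxt_surj G h3 u v huv
    have h4 := h2 ((toC G h3).ed u i) (hall _)
    rcases (toC G h3).ed_eq _ u _ i ((toC G h3).ed_st ((toC G h3).ed u i)) with ⟨h5, h6⟩ | ⟨h5, h6⟩
    · simp only [h5, h6] at h4
      exact h4
    · simp only [h5, h6, (toC G h3).nx_nx] at h4
      exact h4.symm

theorem toC_pol [Fintype V] [DecidableEq V] [Fintype G.edgeSet] :
    pol G ∅ = PP (toC G h3) := by
  apply poly_ext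
  intro k
  rw [pol_eval]
  unfold PP
  rw [Q_eval, toC_cnt G h3 (ls G.edgeSet) (ls_all _)]

include h3 in
theorem toC_cardN [Fintype V] : 2 * Nat.card G.edgeSet = 3 * Fintype.card V := by
  classical
  have h1 := G.sum_degrees_eq_twice_card_edges
  have h2 : ∀ v, G.degree v = 3 := by
    intro v
    rw [← h3 v, Nat.card_eq_fintype_card, card_neighborSet_eq_degree]
  rw [Finset.sum_congr rfl (fun v _ => h2 v), Finset.sum_const, Finset.card_univ, smul_eq_mul,
    edgeFinset_card] at h1
  rw [Nat.card_eq_fintype_card]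
  omega

include h3 in
theorem toC_card [Fintype V] [Fintype G.edgeSet] :
    2 * Fintype.card G.edgeSet = 3 * Fintype.card V := by
  rw [← toC_cardN G h3, Nat.card_eq_fintype_card]

/-- the graph data of a simple graph -/
noncomputable def toG [Fintype V] [DecidableEq V] (hV : 0 < Fintype.card V) (L : ℕ)
    (hg : ((2 * L + 1 : ℕ) : ℕ∞) ≤ G.egirth) : Gd L :=
  haveI : Fintype G.edgeSet := Fintype.ofFinite _
  { V := V
    E := G.edgeSet
    fV := inferInstance
    fE := inferInstance
    dV := inferInstance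
    dE := Classical.decEq _
    C := toC G h3
    hG := toC_gir G h3 L hg
    hE := toC_card G h3
    hV := hV }

theorem toG_card [Fintype V] [DecidableEq V] (hV : 0 < Fintype.card V) (L : ℕ)
    (hg : ((2 * L + 1 : ℕ) : ℕ∞) ≤ G.egirth) :
    Fintype.card (toG G h3 hV L hg).V = Fintype.card V := rfl

theorem toG_pol [Fintype V] [DecidableEq V] (hV : 0 < Fintype.card V) (L : ℕ)
    (hg : ((2 * L + 1 : ℕ) : ℕ∞) ≤ G.egirth) (P : Polynomial ℤ)
    (hP : IsChromaticPolynomial G P) : PP (toG G h3 hV L hg).C = P := by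
  rw [eq_pol G P hP]
  exact (@toC_pol V G h3 _ _ (Fintype.ofFinite _)).symm

end

/-! cubic graphs of every girth exist -/

/-- a non backtracking walk in the graph of an edge coloured cubic graph comes from a word -/
theorem word_of_walk {V E : Type} (C : Cub V E) (L : ℕ) (hL : 1 ≤ L)
    (hG : MP_25a9e0_co.Gir C L) {a b : V} (p : (gr C L hL hG).Walk a b) :
    List.IsChain (· ≠ ·) p.edges → ∃ w, MP_25a9e0_co.Red w ∧ w.length = p.length ∧
      MP_25a9e0_co.fn C a w = b ∧ ∀ i, w.head? = some i → ∃ l, p.edges = s(a, C.nx a i) :: l := by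
  induction p with
  | nil => intro _; exact ⟨[], trivial, rfl, rfl, fun i h => by simp at h⟩
  | @cons a c b h p ih =>
    intro hc
    rw [Walk.edges_cons] at hc
    have hc2 : List.IsChain (· ≠ ·) p.edges := hc.tail
    obtain ⟨w, h1, h2, h3, h4⟩ := ih hc2
    obtain ⟨i, hi⟩ := h
    refine ⟨i :: w, ⟨?_, h1⟩, ?_, ?_, ?_⟩
    · intro h5
      obtain ⟨l, hl⟩ := h4 i h5
      rw [hl, List.isChain_cons_cons] at hc
      apply hc.1
      rw [← hi, C.nx_nx, Sym2.eq_swap]
    · rw [List.length_cons, Walk.length_cons, h2]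
    · show MP_25a9e0_co.fn C (C.nx a i) w = b
      rw [hi, h3]
    · intro j hj
      have : i = j := by simpa using hj
      subst this
      exact ⟨p.edges, by rw [Walk.edges_cons, hi]⟩

theorem gr_girth {V E : Type} (C : Cub V E) (L : ℕ) (hL : 1 ≤ L)
    (hG : MP_25a9e0_co.Gir C L) : (L : ℕ∞) ≤ (gr C L hL hG).egirth := by
  rw [le_egirth]
  intro a p hp
  by_contra hlt
  push Not at hlt
  have hlt' : p.length < L := by exact_mod_cast hlt
  obtain ⟨w, h1, h2, h3, _⟩ := word_of_walk C L hL hG p hp.edges_nodup.isChain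
  have h4 := hG a w [] h1 trivial (by omega) (by simp) h3
  have h5 := hp.three_le_length
  rw [← h2, h4] at h5
  simp at h5

theorem exists_girth (g : ℕ) : ∃ (V : Type) (_ : Finite V) (_ : Nonempty V) (G : SimpleGraph V),
    (∀ v, Nat.card (G.neighborSet v) = 3) ∧ (g : ℕ∞) ≤ G.egirth := by
  refine ⟨VV (g + 1), inferInstance, inferInstance,
    gr (CC (g + 1)) (g + 1) (by omega) (CC_gir (g + 1)),
    gr_cubic (CC (g + 1)) (g + 1) (by omega) (CC_gir (g + 1)), ?_⟩
  refine le_trans ?_ (gr_girth (CC (g + 1)) (g + 1) (by omega) (CC_gir (g + 1)))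
  exact_mod_cast Nat.le_succ g

end Pool.Agent.H.MP_25a9e0_co.GG
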