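import Pool.Agent.H.MP_25a9e0_co.GDef

/-!
The estimates of the survival probability when only most vertices have a tree neighbourhood.
-/

namespace Pool.Agent.H.MP_25a9e0_co.GG

open Finset

set_option linter.unusedSectionVars false
set_option linter.unnecessarySeqFocus false

section
variable {V E : Type} [DecidableEq V] [DecidableEq E] (C : Cubg V E)

theorem Gdv_mono (L L' : ℕ) (h : L' ≤ L) (v : V) (hv : Gdv C L v) : Gdv C L' v :=
  fun w u h1 h2 h3 h4 h5 => hv w u h1 h2 (h3.trans h) (h4.trans h) h5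

theorem Gdv_nx (L : ℕ) (v : V) (j : Fin 3) (hv : Gdv C (L + 1) v) : Gdv C L (C.nx v j) := by
  intro w u hw hu hwL huL h
  have key : ∀ w : List (Fin 3), Red C (C.nx v j) w → w.length ≤ L →
      (∃ w', w = C.rv v j :: w' ∧ Red C v w' ∧ w'.length ≤ L ∧ w'.head? ≠ some j ∧
        fn C (C.nx v j) w = fn C v w') ∨
      (Red C v (j :: w) ∧ (j :: w).length ≤ L + 1 ∧ fn C (C.nx v j) w = fn C v (j :: w)) := by
    intro w hw hwL
    by_cases hh : w.head? = some (C.rv v j)
    · left
      cases w with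
      | nil => simp at hh
      | cons i w' =>
        have hi : i = C.rv v j := by simpa using hh
        subst hi
        have h1 := hw.1
        have h2 := hw.2
        rw [C.rv_rv] at h1
        rw [C.nx_nx] at h2
        refine ⟨w', rfl, h2, ?_, h1, ?_⟩
        · rw [List.length_cons] at hwL; omega
        · show fn C (C.nx (C.nx v j) (C.rv v j)) w' = fn C v w'
          rw [C.nx_nx]
    · right
      exact ⟨⟨hh, hw⟩, by rw [List.length_cons]; omega, rfl⟩
  rcases key w hw hwL with ⟨w', e1, a1, a2, a3, a4⟩ | ⟨a1, a2, a3⟩ <;>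
    rcases key u hu huL with ⟨u', f1, b1, b2, b3, b4⟩ | ⟨b1, b2, b3⟩
  · have := hv w' u' a1 b1 (by omega) (by omega) (by rw [← a4, ← b4, h])
    rw [e1, f1, this]
  · exfalso
    have := hv w' (j :: u) a1 b1 (by omega) b2 (by rw [← a4, ← b3, h])
    rw [this] at a3
    simp at a3
  · exfalso
    have := hv (j :: w) u' a1 b1 a2 (by omega) (by rw [← a3, ← b4, h])
    rw [← this] at b3
    simp at b3
  · have := hv (j :: w) (j :: u) a1 b1 a2 b2 (by rw [← a3, ← b3, h])
    exact (List.cons.inj this).2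

/-- if the tree vertices start no long open walk and the edges at the other vertices are closed,
the process survives -/
theorem sv_eq_one' (L : ℕ) (hL : 1 ≤ L) (hloop : ∀ v i, C.nx v i ≠ v) (S : Finset E) (l : List E)
    (hl : l.Nodup) (h : ∀ v i, Gdv C L v → X C L v i S = 0)
    (h' : ∀ v i, ¬ Gdv C L v → C.ed v i ∉ S) :
    sv C.st (fun e => C.nx (C.st e) (C.dr e)) l id S = 1 := by
  by_contra hne
  obtain ⟨e, O, h1, h2, w, h3, h4, h5⟩ := died C S l id ∅
    (fun u v huv => by have : u = v := huv; rw [this]; exact Rel_refl C _ _)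
    (fun e _ => Finset.notMem_empty e) hl (Finset.empty_subset _) hne
  by_cases hgd : Gdv C L (C.st e)
  · by_cases hw : w.length ≤ L
    · have h6 : fn C (C.st e) w = fn C (C.st e) [C.dr e] := h5
      have h7 : Red C (C.st e) [C.dr e] := Red_one C _ _
      have h8 := hgd _ _ h3 h7 hw (by simpa using hL) h6
      rw [h8] at h4
      apply h1
      have := h4.1
      rwa [C.ed_st] at this
    · cases w with
      | nil => simp at hw
      | cons j w =>
        have h6 : X C L (C.st e) (j + 1) S = 1 := by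
          apply X_of_walk C S L _ _ (j :: w) h3 (Opn_mono C h2 _ _ h4)
          · intro h7
            have : j = j + 1 := by simpa using h7
            revert this
            fin_cases j <;> simp
          · omega
        rw [h (C.st e) (j + 1) hgd] at h6
        norm_num at h6
  · cases w with
    | nil =>
      have h6 : C.st e = C.nx (C.st e) (C.dr e) := h5
      exact hloop _ _ h6.symm
    | cons j w => exact h' (C.st e) j hgd (h2 h4.1)

theorem AA_disj' (L : ℕ) (v : V) (hG : Gdv C L v) (k k' : ℕ) (hk : k + 1 ≤ L) (hk' : k' + 1 ≤ L)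
    (j j' : Fin 3) (hj : j ≠ j') : Disjoint (AA C k v j) (AA C k' v j') := by
  rw [Finset.disjoint_left]
  intro e he he'
  obtain ⟨w, i, h1, h2, h3, h4⟩ := AA_char C k v j e he
  obtain ⟨u, i', g1, g2, g3, g4⟩ := AA_char C k' v j' e he'
  rcases C.ed_eq _ _ _ _ (h1.symm.trans g1) with ⟨h6, h5⟩ | ⟨h6, h5⟩
  · have := hG w u (Red_append C _ _ v h2).1 (Red_append C _ _ v g2).1 (by omega) (by omega) h6
    rw [this, h5] at h3
    rw [h3] at g3
    exact hj (by simpa using g3)
  · have h7 : fn C v w = fn C v (u ++ [i']) := by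
      rw [fn_append]; exact h6
    have h8 := hG w (u ++ [i']) (Red_append C _ _ v h2).1 g2 (by omega) (by simp; omega) h7
    rw [h8] at h3
    have h9 : ((u ++ [i']) ++ [i]).head? = (u ++ [i']).head? := by
      cases u <;> simp
    rw [h9, g3] at h3
    exact hj (by simpa using h3.symm)

theorem ed_notMem' (L : ℕ) (v : V) (hG : Gdv C L v) (k : ℕ) (hk : k + 1 ≤ L) (j : Fin 3) :
    C.ed v j ∉ sup C k (C.nx v j) (C.rv v j) := by
  intro h
  cases k with
  | zero => exact absurd h (Finset.notMem_empty _)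
  | succ k =>
    rw [sup_succ] at h
    have key : ∀ j', j' ≠ C.rv v j → C.ed v j ∈ AA C k (C.nx v j) j' → False := by
      intro j' hj' he'
      obtain ⟨w, i, h1, h2, h3, h4⟩ := AA_char C k _ _ _ he'
      have hw := (Red_append C _ _ _ h2).1
      have hred : Red C v (j :: w) := by
        refine ⟨?_, hw⟩
        intro h7
        cases w with
        | nil => simp at h7
        | cons a w =>
          simp at h7 h3
          exact hj' (h3.symm.trans h7)
      rcases C.ed_eq _ _ _ _ h1.symm with ⟨h6, h5⟩ | ⟨h6, h5⟩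
      · have h7 : fn C v [] = fn C v (j :: w) := h6.symm
        have := hG [] (j :: w) trivial hred (by simp) (by simp; omega) h7
        simp at this
      · have h8 : fn C v [j] = fn C v (j :: w) := h6.symm
        have h9 := hG [j] (j :: w) (Red_one C _ _) hred (by simp; omega) (by simp; omega) h8
        simp at h9
        subst h9
        simp at h3
        exact hj' (h3.symm.trans h5)
    generalize C.rv v j = r at h key
    rcases Finset.mem_union.1 h with h5 | h5
    · exact key (r + 1) (by fin_cases r <;> simp) h5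
    · exact key (r + 2) (by fin_cases r <;> decide) h5

theorem EY_of' (p : ℝ) (l : List E) (hl : l.Nodup) (hall : ∀ e, e ∈ l)
    (k : ℕ) (v : V) (hG : Gdv C (k + 1) v) (j : Fin 3) :
    Ex p l (Y C k v j) = p * Ex p l (X C k (C.nx v j) (C.rv v j)) := by
  have h1 : Dep {C.ed v j} (fun S : Finset E => if C.ed v j ∈ S then (1 : ℝ) else 0) := by
    intro e he S
    rw [Finset.mem_singleton] at he
    have : (C.ed v j ∈ insert e S) ↔ C.ed v j ∈ S := by simp [Ne.symm he]
    simp only [this]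
  have h2 := Ex_indep p l _ _ _ _ h1 (X_dep C k (C.nx v j) (C.rv v j))
    (Finset.disjoint_singleton_left.2 (ed_notMem' C (k + 1) v hG k le_rfl j))
  have h3 : Y C k v j = fun S => (if C.ed v j ∈ S then (1 : ℝ) else 0) *
    X C k (C.nx v j) (C.rv v j) S := rfl
  rw [h3, h2, Ex_open p _ l hl (hall _)]

theorem EX' (p : ℝ) (l : List E) (hl : l.Nodup) (hall : ∀ e, e ∈ l)
    (k : ℕ) : ∀ v i, Gdv C k v → Ex p l (X C k v i) = bb p k := by
  induction k with
  | zero =>
    intro v i _
    have : X C 0 v i = fun _ => (1 : ℝ) := rfl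
    rw [this, Ex_const]
    rfl
  | succ k ih =>
    intro v i hG
    have hY : ∀ j, Ex p l (Y C k v j) = p * bb p k := by
      intro j
      rw [EY_of' C p l hl hall k v hG j, ih _ _ (Gdv_nx C k v j hG)]
    have h1 : X C (k + 1) v i = fun S => 1 - (1 - Y C k v (i + 1) S) * (1 - Y C k v (i + 2) S) := by
      funext S; exact X_succ C k v i S
    have hne : i + 1 ≠ i + 2 := by fin_cases i <;> decide
    rw [h1, Ex_one_sub p l (fun S => (1 - Y C k v (i + 1) S) * (1 - Y C k v (i + 2) S)),
      Ex_indep p l _ _ _ _ (Y_dep C k v (i + 1)).one_sub (Y_dep C k v (i + 2)).one_sub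
        (AA_disj' C (k + 1) v hG k k le_rfl le_rfl _ _ hne), Ex_one_sub, Ex_one_sub, hY, hY, bb]
    ring

theorem EY' (p : ℝ) (l : List E) (hl : l.Nodup) (hall : ∀ e, e ∈ l)
    (k : ℕ) (v : V) (hG : Gdv C (k + 1) v) (j : Fin 3) : Ex p l (Y C k v j) = p * bb p k := by
  rw [EY_of' C p l hl hall k v hG j, EX' C p l hl hall k _ _ (Gdv_nx C k v j hG)]

/-- number of vertices without a tree neighbourhood -/
noncomputable def bad (L : ℕ) : ℕ := Nat.card {v : V // ¬ Gdv C L v}

open Classical in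
theorem bad_eq [Fintype V] (L : ℕ) :
    bad C L = ((Finset.univ : Finset V).filter (fun v => ¬ Gdv C L v)).card := by
  unfold bad
  rw [Nat.card_eq_fintype_card, Fintype.card_subtype]

theorem bad_mono [Fintype V] (L L' : ℕ) (h : L' ≤ L) : bad C L' ≤ bad C L := by
  classical
  rw [bad_eq, bad_eq]
  apply Finset.card_le_card
  intro v hv
  rw [Finset.mem_filter] at hv ⊢
  exact ⟨hv.1, fun h1 => hv.2 (Gdv_mono C L L' h v h1)⟩

/-- lower bound for the survival probability -/
theorem lowZ' [Fintype V] (p : ℝ) (hp0 : 0 ≤ p) (hp1 : p ≤ 1 / 2) (L : ℕ) (hL : 1 ≤ L)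
    (hloop : ∀ v i, C.nx v i ≠ v) (l : List E) (hl : l.Nodup) (hall : ∀ e, e ∈ l) :
    (1 - (2 * p) ^ L) ^ (Fintype.card V * 3) * (1 - p) ^ (bad C L * 3) ≤ Ex p l (svg C l) := by
  classical
  have hp1' : p ≤ 1 := by linarith
  have h0 : (2 * p) ^ L ≤ 1 := pow_le_one₀ (by linarith) (by linarith)
  have hpL : 0 ≤ (2 * p) ^ L := pow_nonneg (by linarith) _
  have h1 := Ex_harris_prod p hp0 hp1' l (Finset.univ : Finset (V × Fin 3))
    (fun x S => if Gdv C L x.1 then 1 - X C L x.1 x.2 S else 1) (fun x S T hST => by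
      have := X_mono C L x.1 x.2 hST
      by_cases hx : Gdv C L x.1
      · simp only [if_pos hx]
        linarith
      · simp only [if_neg hx]
        exact le_refl _) (fun x S => by
      have := X_le_one C L x.1 x.2 S
      by_cases hx : Gdv C L x.1
      · simp only [if_pos hx]
        linarith
      · simp only [if_neg hx]
        norm_num) (1 - (2 * p) ^ L) (by linarith) (fun x => by
      by_cases hx : Gdv C L x.1
      · simp only [if_pos hx]
        rw [Ex_one_sub, EX' C p l hl hall L _ _ hx]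
        have := bb_le p hp0 L
        linarith
      · simp only [if_neg hx]
        rw [Ex_const]
        linarith)
  have h2 := Ex_harris_prod p hp0 hp1' l
    (((Finset.univ : Finset V).filter (fun v => ¬ Gdv C L v)) ×ˢ (Finset.univ : Finset (Fin 3)))
    (fun x S => 1 - (if C.ed x.1 x.2 ∈ S then (1 : ℝ) else 0)) (fun x S T hST => by
      show 1 - (if C.ed x.1 x.2 ∈ T then (1 : ℝ) else 0) ≤ 1 - (if C.ed x.1 x.2 ∈ S then (1 : ℝ) else 0)
      by_cases h4 : C.ed x.1 x.2 ∈ S
      · rw [if_pos h4, if_pos (hST h4)]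
      · rw [if_neg h4]
        split_ifs <;> norm_num) (fun x S => by
      show 0 ≤ 1 - (if C.ed x.1 x.2 ∈ S then (1 : ℝ) else 0)
      split_ifs <;> norm_num) (1 - p) (by linarith) (fun x => by
      rw [Ex_one_sub, Ex_open p _ l hl (hall _)])
  have hanti1 : Antitone (fun S : Finset E => ∏ x ∈ (Finset.univ : Finset (V × Fin 3)),
      (if Gdv C L x.1 then 1 - X C L x.1 x.2 S else 1)) := by
    intro S T hST
    apply Finset.prod_le_prod
    · intro x _
      have := X_le_one C L x.1 x.2 T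
      split_ifs <;> linarith
    · intro x _
      have := X_mono C L x.1 x.2 hST
      split_ifs <;> linarith
  have hanti2 : Antitone (fun S : Finset E => ∏ x ∈ ((Finset.univ : Finset V).filter
      (fun v => ¬ Gdv C L v)) ×ˢ (Finset.univ : Finset (Fin 3)),
      (1 - (if C.ed x.1 x.2 ∈ S then (1 : ℝ) else 0))) := by
    intro S T hST
    apply Finset.prod_le_prod
    · intro x _
      split_ifs <;> norm_num
    · intro x _
      by_cases h4 : C.ed x.1 x.2 ∈ S
      · rw [if_pos h4, if_pos (hST h4)]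
      · rw [if_neg h4]
        split_ifs <;> norm_num
  have h3 := Ex_harris p hp0 hp1' l _ _ hanti1 hanti2
  rw [Finset.card_univ, Fintype.card_prod, Fintype.card_fin] at h1
  rw [Finset.card_product, Finset.card_univ, Fintype.card_fin, ← bad_eq] at h2
  have h4 : (1 - (2 * p) ^ L) ^ (Fintype.card V * 3) * (1 - p) ^ (bad C L * 3) ≤
      Ex p l (fun S => ∏ x ∈ (Finset.univ : Finset (V × Fin 3)),
        (if Gdv C L x.1 then 1 - X C L x.1 x.2 S else 1)) *
      Ex p l (fun S => ∏ x ∈ ((Finset.univ : Finset V).filter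
        (fun v => ¬ Gdv C L v)) ×ˢ (Finset.univ : Finset (Fin 3)),
        (1 - (if C.ed x.1 x.2 ∈ S then (1 : ℝ) else 0))) :=
    mul_le_mul h1 h2 (pow_nonneg (by linarith) _)
      ((pow_nonneg (by linarith) _).trans h1)
  refine (h4.trans h3).trans (Ex_mono p hp0 hp1' l _ _ (fun S => ?_))
  have b1 : ∏ x ∈ (Finset.univ : Finset (V × Fin 3)),
      (if Gdv C L x.1 then 1 - X C L x.1 x.2 S else 1) ≤ 1 := by
    apply Finset.prod_le_one
    · intro x _
      have := X_le_one C L x.1 x.2 S
      split_ifs <;> linarith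
    · intro x _
      have := X_nonneg C L x.1 x.2 S
      split_ifs <;> linarith
  have b1' : 0 ≤ ∏ x ∈ (Finset.univ : Finset (V × Fin 3)),
      (if Gdv C L x.1 then 1 - X C L x.1 x.2 S else 1) := by
    apply Finset.prod_nonneg
    intro x _
    have := X_le_one C L x.1 x.2 S
    split_ifs <;> linarith
  have b2 : ∏ x ∈ ((Finset.univ : Finset V).filter
      (fun v => ¬ Gdv C L v)) ×ˢ (Finset.univ : Finset (Fin 3)),
      (1 - (if C.ed x.1 x.2 ∈ S then (1 : ℝ) else 0)) ≤ 1 := by
    apply Finset.prod_le_one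
    · intro x _
      split_ifs <;> norm_num
    · intro x _
      split_ifs <;> norm_num
  have b2' : 0 ≤ ∏ x ∈ ((Finset.univ : Finset V).filter
      (fun v => ¬ Gdv C L v)) ×ˢ (Finset.univ : Finset (Fin 3)),
      (1 - (if C.ed x.1 x.2 ∈ S then (1 : ℝ) else 0)) := by
    apply Finset.prod_nonneg
    intro x _
    split_ifs <;> norm_num
  by_cases h : (∀ v i, Gdv C L v → X C L v i S = 0) ∧ (∀ v i, ¬ Gdv C L v → C.ed v i ∉ S)
  · have h2 : svg C l S = 1 := sv_eq_one' C L hL hloop S l hl h.1 h.2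
    rw [h2]
    exact mul_le_one₀ b1 b2' b2
  · have hs : 0 ≤ svg C l S := by
      rcases svg_or C l S with h3 | h3 <;> rw [h3]
      norm_num
    rw [not_and_or] at h
    rcases h with h | h
    · push Not at h
      obtain ⟨v, i, hgd, hvi⟩ := h
      have h2 : X C L v i S = 1 := by
        rcases X_or C L v i S with h3 | h3
        · exact absurd h3 hvi
        · exact h3
      rw [Finset.prod_eq_zero (Finset.mem_univ (v, i)) (by
        show (if Gdv C L v then 1 - X C L v i S else 1) = 0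
        rw [if_pos hgd, h2]; ring), zero_mul]
      exact hs
    · push Not at h
      obtain ⟨v, i, hgd, hvi⟩ := h
      rw [Finset.prod_eq_zero (i := (v, i)) (Finset.mem_product.2
        ⟨Finset.mem_filter.2 ⟨Finset.mem_univ _, hgd⟩, Finset.mem_univ _⟩) (by
        show 1 - (if C.ed v i ∈ S then (1 : ℝ) else 0) = 0
        rw [if_pos hvi]; ring), mul_zero]
      exact hs

theorem EGE' (p : ℝ) (l : List E) (hl : l.Nodup) (hall : ∀ e, e ∈ l)
    (k : ℕ) (e : E) (hG : Gdv C (k + 2) (C.st e)) :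
    Ex p l (GE C k e) = p * bb p (k + 1) * bb p (k + 1) := by
  have hd : Disjoint (AA C (k + 1) (C.st e) (C.dr e)) (sup C (k + 1) (C.st e) (C.dr e)) := by
    rw [sup_succ, Finset.disjoint_union_right]
    constructor
    · exact AA_disj' C (k + 2) _ hG _ _ (by omega) (by omega) _ _
        (by generalize C.dr e = i; fin_cases i <;> decide)
    · exact AA_disj' C (k + 2) _ hG _ _ (by omega) (by omega) _ _
        (by generalize C.dr e = i; fin_cases i <;> decide)
  have h1 : GE C k e = fun S => Y C (k + 1) (C.st e) (C.dr e) S * X C (k + 1) (C.st e) (C.dr e) S :=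
    rfl
  rw [h1, Ex_indep p l _ _ _ _ (Y_dep C (k + 1) (C.st e) (C.dr e)) (X_dep C (k + 1) _ _) hd,
    EY' C p l hl hall (k + 1) _ hG, EX' C p l hl hall (k + 1) _ _
      (Gdv_mono C (k + 2) (k + 1) (by omega) _ hG)]

theorem EGV' (p : ℝ) (l : List E) (hl : l.Nodup) (hall : ∀ e, e ∈ l)
    (k : ℕ) (v : V) (hG : Gdv C (k + 1) v) :
    Ex p l (GV C k v) = 3 * (p * bb p k) ^ 2 - 2 * (p * bb p k) ^ 3 := by
  have hE : ∀ j, Ex p l (Y C k v j) = p * bb p k := fun j => EY' C p l hl hall k v hG j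
  have h2 : ∀ i j : Fin 3, i ≠ j → Ex p l (fun S => Y C k v i S * Y C k v j S)
      = (p * bb p k) * (p * bb p k) := by
    intro i j hij
    rw [Ex_indep p l _ _ _ _ (Y_dep C k v i) (Y_dep C k v j)
      (AA_disj' C (k + 1) v hG k k le_rfl le_rfl i j hij), hE, hE]
  have h3 : Ex p l (fun S => (Y C k v 0 S * Y C k v 1 S) * Y C k v 2 S)
      = (p * bb p k) * (p * bb p k) * (p * bb p k) := by
    have d1 : Dep (AA C k v 0 ∪ AA C k v 1) (fun S => Y C k v 0 S * Y C k v 1 S) :=
      ((Y_dep C k v 0).mono Finset.subset_union_left).mul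
        ((Y_dep C k v 1).mono Finset.subset_union_right)
    have d2 : Disjoint (AA C k v 0 ∪ AA C k v 1) (AA C k v 2) := by
      rw [Finset.disjoint_union_left]
      exact ⟨AA_disj' C (k + 1) v hG k k le_rfl le_rfl 0 2 (by decide),
        AA_disj' C (k + 1) v hG k k le_rfl le_rfl 1 2 (by decide)⟩
    rw [Ex_indep p l _ _ _ _ d1 (Y_dep C k v 2) d2, h2 0 1 (by decide), hE]
  have h4 : GV C k v = fun S => ((Y C k v 0 S * Y C k v 1 S + Y C k v 0 S * Y C k v 2 S)
      + Y C k v 1 S * Y C k v 2 S) - 2 * ((Y C k v 0 S * Y C k v 1 S) * Y C k v 2 S) := rfl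
  rw [h4, Ex_sub, Ex_add, Ex_add, Ex_smul, h2 0 1 (by decide), h2 0 2 (by decide),
    h2 1 2 (by decide), h3]
  ring

/-- the expected surplus -/
theorem EFF_ge [Fintype V] [Fintype E] (p : ℝ) (hp0 : 0 ≤ p) (hp1 : p ≤ 1) (l : List E)
    (hl : l.Nodup) (hall : ∀ e, e ∈ l) (k : ℕ) :
    Fintype.card E * (p * bb p (k + 1) * bb p (k + 1))
      - Fintype.card V * (3 * (p * bb p k) ^ 2 - 2 * (p * bb p k) ^ 3) - 4 * bad C (k + 2)
      ≤ Ex p l (FF C k) := by
  classical
  have h5 : FF C k = fun S => (∑ e, GE C k e S) - ∑ v, GV C k v S := rfl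
  rw [h5, Ex_sub, Ex_sum, Ex_sum]
  have hb := bb_mem p hp0 hp1 k
  have hb1 := bb_mem p hp0 hp1 (k + 1)
  have hα0 : 0 ≤ p * bb p (k + 1) * bb p (k + 1) := by
    have := hb1.1
    positivity
  have hα1 : p * bb p (k + 1) * bb p (k + 1) ≤ 1 :=
    mul_le_one₀ (mul_le_one₀ hp1 hb1.1 hb1.2) hb1.1 hb1.2
  have hx0 : 0 ≤ p * bb p k := mul_nonneg hp0 hb.1
  have hx1 : p * bb p k ≤ 1 := mul_le_one₀ hp1 hb.1 hb.2
  have hβ0 : 0 ≤ 3 * (p * bb p k) ^ 2 - 2 * (p * bb p k) ^ 3 := by
    generalize p * bb p k = x at *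
    nlinarith [mul_nonneg (sq_nonneg x) (by linarith : 0 ≤ 1 - x), sq_nonneg x]
  have hGE : ∀ e, p * bb p (k + 1) * bb p (k + 1) - (if ¬ Gdv C (k + 2) (C.st e) then 1 else 0)
      ≤ Ex p l (GE C k e) := by
    intro e
    by_cases h : Gdv C (k + 2) (C.st e)
    · rw [if_neg (not_not.2 h), EGE' C p l hl hall k e h]
      linarith
    · rw [if_pos h]
      have h1 : 0 ≤ Ex p l (GE C k e) := by
        have := Ex_mono p hp0 hp1 l (fun _ => 0) (GE C k e) (fun S => by
          rcases GE_or C k e S with h | h <;> rw [h]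
          norm_num)
        rwa [Ex_const] at this
      linarith
  have hGV : ∀ v, Ex p l (GV C k v) ≤ (3 * (p * bb p k) ^ 2 - 2 * (p * bb p k) ^ 3) +
      (if ¬ Gdv C (k + 2) v then 1 else 0) := by
    intro v
    by_cases h : Gdv C (k + 2) v
    · rw [if_neg (not_not.2 h),
        EGV' C p l hl hall k v (Gdv_mono C (k + 2) (k + 1) (by omega) v h)]
      linarith
    · rw [if_pos h]
      have h1 : Ex p l (GV C k v) ≤ 1 := by
        have := Ex_mono p hp0 hp1 l (GV C k v) (fun _ => 1) (fun S => by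
          rcases GV_or C k v S with h | h <;> rw [h]
          norm_num)
        rwa [Ex_const] at this
      linarith
  have s1 := Finset.sum_le_sum (s := Finset.univ) (fun e _ => hGE e)
  have s2 := Finset.sum_le_sum (s := Finset.univ) (fun v _ => hGV v)
  rw [Finset.sum_sub_distrib, Finset.sum_const, Finset.card_univ, nsmul_eq_mul] at s1
  rw [Finset.sum_add_distrib, Finset.sum_const, Finset.card_univ, nsmul_eq_mul] at s2
  have c2 : ∑ v : V, (if ¬ Gdv C (k + 2) v then (1 : ℝ) else 0) = bad C (k + 2) := by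
    rw [bad_eq, Finset.card_filter]
    push_cast
    rfl
  have c1 : ∑ e : E, (if ¬ Gdv C (k + 2) (C.st e) then (1 : ℝ) else 0) ≤ 3 * bad C (k + 2) := by
    have h6 : ∑ e : E, (if ¬ Gdv C (k + 2) (C.st e) then (1 : ℝ) else 0)
        = ((Finset.univ.filter (fun e : E => ¬ Gdv C (k + 2) (C.st e))).card : ℝ) := by
      rw [Finset.card_filter]
      push_cast
      rfl
    have h7 : (Finset.univ.filter (fun e : E => ¬ Gdv C (k + 2) (C.st e))).card
        ≤ (((Finset.univ : Finset V).filter (fun v => ¬ Gdv C (k + 2) v)) ×ˢ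
          (Finset.univ : Finset (Fin 3))).card := by
      apply Finset.card_le_card_of_injOn (fun e' => (C.st e', C.dr e'))
      · intro e' he'
        have : ¬ Gdv C (k + 2) (C.st e') := by simpa using he'
        simp [this]
      · intro x _ y _ hxy
        have h6 : C.st x = C.st y := (Prod.ext_iff.1 hxy).1
        have h7 : C.dr x = C.dr y := (Prod.ext_iff.1 hxy).2
        rw [← C.ed_st x, ← C.ed_st y, h6, h7]
    rw [Finset.card_product, Finset.card_univ, Fintype.card_fin, ← bad_eq] at h7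
    rw [h6]
    have h8 : ((Finset.univ.filter (fun e : E => ¬ Gdv C (k + 2) (C.st e))).card : ℝ)
        ≤ (bad C (k + 2) * 3 : ℕ) := by exact_mod_cast h7
    push_cast at h8
    linarith
  rw [c2] at s2
  linarith

/-- upper bound for the survival probability with free parameters -/
theorem upZ_t' [Fintype V] [Fintype E] (p : ℝ) (hp0 : 0 ≤ p) (hp1 : p ≤ 1)
    (l : List E) (hl : l.Nodup) (hall : ∀ e, e ∈ l) (k : ℕ)
    (t : ℝ) (ht : 0 ≤ t) (ht1 : t * (8 * 4 ^ (k + 1)) ≤ 1) :
    Ex p l (svg C l) ≤ Real.exp (-t * (Fintype.card E * (p * bb p (k + 1) * bb p (k + 1))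
      - Fintype.card V * (3 * (p * bb p k) ^ 2 - 2 * (p * bb p k) ^ 3) - 4 * bad C (k + 2))
      + (t * (8 * 4 ^ (k + 1))) ^ 2 * l.length) := by
  have h1 : Ex p l (svg C l) ≤ Ex p l (fun S => Real.exp (-t * FF C k S)) := by
    apply Ex_mono p hp0 hp1
    intro S
    rcases svg_or C l S with h | h
    · rw [h]; exact Real.exp_nonneg _
    · rw [h]
      apply Real.one_le_exp
      have := good_le C k l hl hall S h
      have h2 : FF C k S ≤ 0 := by unfold FF; linarith
      nlinarith
  have h2 := Ex_exp p (t * (8 * 4 ^ (k + 1))) hp0 hp1 ht1 l (fun S => -t * FF C k S)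
    (fun e S => by
      have h3 := FF_change C k e S
      have h4 : -t * FF C k (insert e S) - -t * FF C k S
          = -t * (FF C k (insert e S) - FF C k S) := by ring
      rw [h4, abs_mul, abs_neg, abs_of_nonneg ht]
      exact mul_le_mul_of_nonneg_left h3 ht)
  refine h1.trans (h2.trans (Real.exp_le_exp.2 ?_))
  rw [Ex_smul]
  have h3 := EFF_ge C p hp0 hp1 l hl hall k
  have h4 := mul_le_mul_of_nonneg_left h3 ht
  have h5 : Ex p l (fun S => FF C k S) = Ex p l (FF C k) := rfl
  linarith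

end

/-- exponential decay of the survival probability above one half -/
theorem upZ' (p : ℝ) (hp0 : 1 / 2 < p) (hp1 : p ≤ 1) : ∃ κ : ℝ, 0 < κ ∧ ∃ δ : ℝ, 0 < δ ∧ ∃ K : ℕ,
    ∀ (V E : Type) [Fintype V] [Fintype E] [DecidableEq V] [DecidableEq E] (C : Cubg V E) (L : ℕ),
      K ≤ L → (bad C L : ℝ) ≤ δ * Fintype.card V → 2 * Fintype.card E = 3 * Fintype.card V →
      ∀ l : List E, l.Nodup → (∀ e, e ∈ l) →
        Ex p l (svg C l) ≤ Real.exp (-κ * Fintype.card V) := by
  obtain ⟨k, hk⟩ := exists_depth p hp0 hp1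
  generalize hθ : 3 / 2 * (p * bb p (k + 1) * bb p (k + 1)) -
      (3 * (p * bb p k) ^ 2 - 2 * (p * bb p k) ^ 3) = θ at hk
  have hD : (0 : ℝ) < 8 * 4 ^ (k + 1) := by positivity
  generalize hDD : (8 * 4 ^ (k + 1) : ℝ) = D at hD
  have ht : ∃ t : ℝ, 0 < t ∧ t * D ≤ 1 ∧ 0 < t * (θ / 2) - 3 / 2 * (t * D) ^ 2 := by
    refine ⟨min (1 / D) (θ / 2 / (3 * D ^ 2)), lt_min (by positivity) (by positivity), ?_, ?_⟩
    · calc min (1 / D) (θ / 2 / (3 * D ^ 2)) * D ≤ 1 / D * D :=
          mul_le_mul_of_nonneg_right (min_le_left _ _) hD.le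
        _ = 1 := by field_simp
    · have ht0 : 0 < min (1 / D) (θ / 2 / (3 * D ^ 2)) := lt_min (by positivity) (by positivity)
      have h2 : min (1 / D) (θ / 2 / (3 * D ^ 2)) * (3 * D ^ 2) ≤ θ / 2 := by
        calc min (1 / D) (θ / 2 / (3 * D ^ 2)) * (3 * D ^ 2) ≤ θ / 2 / (3 * D ^ 2) * (3 * D ^ 2) :=
            mul_le_mul_of_nonneg_right (min_le_right _ _) (by positivity)
          _ = θ / 2 := by field_simp
      generalize min (1 / D) (θ / 2 / (3 * D ^ 2)) = t at *
      have h3 : t * (θ / 2) - 3 / 2 * (t * D) ^ 2 = t * (θ / 2 - 1 / 2 * (t * (3 * D ^ 2))) := by ring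
      rw [h3]
      apply mul_pos ht0
      linarith
  obtain ⟨t, ht0, ht1, ht2⟩ := ht
  refine ⟨t * (θ / 2) - 3 / 2 * (t * D) ^ 2, ht2, θ / 8, by positivity, k + 2, ?_⟩
  intro V E _ _ _ _ C L hL hbad hcard l hl hall
  have h1 := upZ_t' C p (by linarith) hp1 l hl hall k t ht0.le (by rw [hDD]; exact ht1)
  refine h1.trans (Real.exp_le_exp.2 ?_)
  have hlen : l.length = Fintype.card E := by
    rw [← List.toFinset_card_of_nodup hl, Finset.eq_univ_of_forall (fun e => List.mem_toFinset.2 (hall e)),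
      Finset.card_univ]
  have hc' : (Fintype.card E : ℝ) = 3 / 2 * Fintype.card V := by
    have : (2 : ℝ) * Fintype.card E = 3 * Fintype.card V := by exact_mod_cast hcard
    linarith
  have hb2 : (bad C (k + 2) : ℝ) ≤ θ / 8 * Fintype.card V := by
    have h6 : bad C (k + 2) ≤ bad C L := bad_mono C L (k + 2) hL
    have h7 : (bad C (k + 2) : ℝ) ≤ bad C L := by exact_mod_cast h6
    linarith
  have h8 := mul_le_mul_of_nonneg_left hb2 ht0.le
  rw [hDD, hlen, hc']
  have e1 : -t * (3 / 2 * (Fintype.card V : ℝ) * (p * bb p (k + 1) * bb p (k + 1)) -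
      (Fintype.card V : ℝ) * (3 * (p * bb p k) ^ 2 - 2 * (p * bb p k) ^ 3) - 4 * (bad C (k + 2) : ℝ))
      + (t * D) ^ 2 * (3 / 2 * (Fintype.card V : ℝ))
      = -(t * (Fintype.card V : ℝ)) * θ + 4 * (t * (bad C (k + 2) : ℝ))
        + (t * D) ^ 2 * (3 / 2 * (Fintype.card V : ℝ)) := by
    rw [← hθ]
    ring
  rw [e1]
  have e2 : -(t * (θ / 2) - 3 / 2 * (t * D) ^ 2) * (Fintype.card V : ℝ)
      = -(t * (Fintype.card V : ℝ)) * θ + 4 * (t * (θ / 8 * (Fintype.card V : ℝ)))
        + (t * D) ^ 2 * (3 / 2 * (Fintype.card V : ℝ)) := by ring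
  rw [e2]
  linarith

end Pool.Agent.H.MP_25a9e0_co.GG
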