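import Pool.Agent.H.MP_25a9e0_co.Grp
import Pool.Agent.H.MP_25a9e0_co.Analytic

/-!
Chromatic roots of cubic graphs come arbitrarily close to `-1`.
-/

namespace Pool.Agent.H.MP_25a9e0_co

open Filter Topology

theorem Ex_nonneg {E : Type} [DecidableEq E] (p : ℝ) (hp0 : 0 ≤ p) (hp1 : p ≤ 1) (l : List E)
    (h : Finset E → ℝ) (hh : ∀ S, 0 ≤ h S) : 0 ≤ Ex p l h := by
  have := Ex_mono p hp0 hp1 l (fun _ => 0) h hh
  rwa [Ex_const] at this

theorem Ex_ge_empty {E : Type} [DecidableEq E] (p : ℝ) (hp0 : 0 ≤ p) (hp1 : p ≤ 1) (l : List E) :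
    ∀ h : Finset E → ℝ, (∀ S, 0 ≤ h S) → (1 - p) ^ l.length * h ∅ ≤ Ex p l h := by
  induction l with
  | nil => intro h _; simp [Ex]
  | cons e l ih =>
    intro h hh
    unfold Ex
    have h1 := ih h hh
    have h2 := Ex_nonneg p hp0 hp1 l (fun S => h (insert e S)) (fun S => hh _)
    have h3 := mul_le_mul_of_nonneg_left h1 (by linarith : 0 ≤ 1 - p)
    have h4 := mul_nonneg hp0 h2
    rw [List.length_cons, pow_succ]
    linarith

noncomputable instance (L : ℕ) : Fintype (RW L) := Fintype.ofFinite _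

noncomputable instance (L : ℕ) : DecidableEq (RW L) := Classical.decEq _

/-- the list of all edges -/
noncomputable def ls (L : ℕ) : List (EE L) := (Finset.univ : Finset (EE L)).toList

theorem ls_nodup (L : ℕ) : (ls L).Nodup := Finset.nodup_toList _

theorem ls_all (L : ℕ) (e : EE L) : e ∈ ls L := by simp [ls]

/-- the survival probability -/
noncomputable def ZZ (L : ℕ) (p : ℝ) : ℝ := Ex p (ls L) (svg (CC L) (ls L))

/-- the chromatic polynomial of the graph -/
noncomputable def PP (L : ℕ) : Polynomial ℤ :=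
  Q (CC L).st (fun e => (CC L).nx ((CC L).st e) ((CC L).dr e)) (ls L) id

theorem card_VV (L : ℕ) : 2 * Fintype.card (EE L) = 3 * Fintype.card (VV L) := by
  simp only [Fintype.card_prod, Fintype.card_fin, Fintype.card_bool]
  ring

theorem ls_length (L : ℕ) : (ls L).length = Fintype.card (EE L) := by
  simp [ls, Fintype.card_prod]

theorem kap_id (L : ℕ) : kap (id : VV L → VV L) = Fintype.card (VV L) := by
  unfold kap
  rw [Finset.image_id, Finset.card_univ]

theorem ZZ_pos (L : ℕ) (hL : 1 ≤ L) (p : ℝ) (hp0 : 0 ≤ p) (hp1 : p < 1) :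
    (1 - p) ^ (Fintype.card (EE L)) ≤ ZZ L p := by
  have h1 := Ex_ge_empty p hp0 hp1.le (ls L) (svg (CC L) (ls L)) (fun S => by
    rcases svg_or (CC L) (ls L) S with h | h <;> rw [h]
    norm_num)
  have h2 : svg (CC L) (ls L) ∅ = 1 := by
    apply sv_eq_one (CC L) L hL (CC_gir L) ∅ (ls L) (ls_nodup L)
    intro v i
    obtain ⟨k, rfl⟩ : ∃ k, L = k + 1 := ⟨L - 1, by omega⟩
    rw [X_succ]
    unfold Y
    simp
  rw [h2, mul_one, ls_length] at h1
  exact h1

theorem ZZ_le_one (L : ℕ) (p : ℝ) (hp0 : 0 ≤ p) (hp1 : p ≤ 1) : ZZ L p ≤ 1 := by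
  have := Ex_mono p hp0 hp1 (ls L) (svg (CC L) (ls L)) (fun _ => 1) (fun S => by
    rcases svg_or (CC L) (ls L) S with h | h <;> rw [h]
    norm_num)
  rw [Ex_const] at this
  exact this

theorem PP_val (L : ℕ) (p r : ℝ) (hpr : p * (1 + r) = 1) :
    Polynomial.aeval (-r) (PP L) * (r * p) ^ (Fintype.card (EE L))
      = (-r) ^ (Fintype.card (VV L)) * ZZ L p := by
  have h := Q_aeval (CC L).st (fun e => (CC L).nx ((CC L).st e) ((CC L).dr e)) (ls L) p r hpr id
  rw [ls_length, kap_id, Pr_eq _ _ _ _ _ (ls_nodup L)] at h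
  exact h

theorem PP_aeval (L : ℕ) (t : ℝ) : Polynomial.aeval (-1 + (t : ℂ)) (PP L)
    = ((Polynomial.aeval (-(1 - t)) (PP L) : ℝ) : ℂ) := by
  have h := Polynomial.aeval_algebraMap_apply ℂ (-(1 - t) : ℝ) (PP L)
  have e : algebraMap ℝ ℂ (-(1 - t)) = -1 + (t : ℂ) := by
    show ((-(1 - t) : ℝ) : ℂ) = -1 + (t : ℂ)
    push_cast
    ring
  rw [e] at h
  exact h

theorem nL_pos (L : ℕ) : 0 < Fintype.card (VV L) := Fintype.card_pos

theorem PP_log (L : ℕ) (hL : 1 ≤ L) (t : ℝ) (ht : |t| < 1) :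
    1 / (Fintype.card (VV L) : ℝ) * Real.log (ZZ L (1 / (2 - t)))
      = 1 / (Fintype.card (VV L) : ℝ) * Real.log ‖Polynomial.aeval (-1 + (t : ℂ)) (PP L)‖
        - 3 / 2 * Real.log (2 - t) + 1 / 2 * Real.log (1 - t) := by
  obtain ⟨ht1, ht2⟩ := abs_lt.1 ht
  have hr : 0 < 1 - t := by linarith
  have hs : 0 < 2 - t := by linarith
  have hp : 0 < 1 / (2 - t) := by positivity
  have hp1 : 1 / (2 - t) < 1 := by rw [div_lt_one hs]; linarith
  have hpr : 1 / (2 - t) * (1 + (1 - t)) = 1 := by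
    have : 1 + (1 - t) = 2 - t := by ring
    rw [this]
    field_simp
  have h := PP_val L (1 / (2 - t)) (1 - t) hpr
  have hZ : 0 < ZZ L (1 / (2 - t)) :=
    lt_of_lt_of_le (pow_pos (by linarith) _) (ZZ_pos L hL _ hp.le hp1)
  have h2 := congrArg abs h
  rw [abs_mul, abs_mul, abs_pow, abs_pow, abs_neg, abs_of_pos hr, abs_of_pos hZ,
    abs_of_pos (by positivity : 0 < (1 - t) * (1 / (2 - t)))] at h2
  have hA : |Polynomial.aeval (-(1 - t)) (PP L)| ≠ 0 := by
    intro e
    rw [e, zero_mul] at h2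
    have : 0 < (1 - t) ^ Fintype.card (VV L) * ZZ L (1 / (2 - t)) := by positivity
    linarith
  have h3 := congrArg Real.log h2
  rw [Real.log_mul hA (by positivity), Real.log_mul (by positivity) hZ.ne', Real.log_pow,
    Real.log_pow, Real.log_mul hr.ne' hp.ne', one_div, Real.log_inv] at h3
  rw [PP_aeval, Complex.norm_real, Real.norm_eq_abs]
  have hn : (0 : ℝ) < Fintype.card (VV L) := by exact_mod_cast nL_pos L
  have hc' : (Fintype.card (EE L) : ℝ) = 3 / 2 * Fintype.card (VV L) := by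
    have : (2 : ℝ) * Fintype.card (EE L) = 3 * Fintype.card (VV L) := by exact_mod_cast card_VV L
    linarith
  rw [hc'] at h3
  generalize (Fintype.card (VV L) : ℝ) = n at *
  rw [one_div (2 - t)]
  field_simp
  field_simp at h3
  linarith

theorem PP_ne (L : ℕ) (hL : 1 ≤ L) : PP L ≠ 0 := by
  intro e
  have h := PP_val L (1 / 2) 1 (by norm_num)
  rw [e] at h
  have hZ : 0 < ZZ L (1 / 2) :=
    lt_of_lt_of_le (pow_pos (by norm_num) _) (ZZ_pos L hL _ (by norm_num) (by norm_num))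
  simp only [map_zero, zero_mul] at h
  have h2 : (-(1 : ℝ)) ^ Fintype.card (VV L) ≠ 0 := pow_ne_zero _ (by norm_num)
  rcases mul_eq_zero.1 h.symm with h3 | h3
  · exact h2 h3
  · exact hZ.ne' h3

theorem PP_degree (L : ℕ) : (PP L).natDegree ≤ Fintype.card (VV L) := by
  rw [← kap_id]
  exact Q_degree _ _ _ _

theorem near (ε : ℝ) (hε : 0 < ε) : ∃ L, 1 ≤ L ∧ ∃ z : ℂ, Polynomial.aeval z (PP L) = 0 ∧
    ‖1 + z‖ < ε := by
  by_contra hcon
  push Not at hcon
  set ε' := min ε 1 with hε'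
  have hε'0 : 0 < ε' := lt_min hε one_pos
  have hε'1 : ε' ≤ 1 := min_le_right _ _
  have hlim := no_gap (fun L => PP (L + 1)) (fun L => Fintype.card (VV (L + 1)))
    (fun L => nL_pos _) (fun L => PP_ne _ (by omega)) (fun L => PP_degree _) ε' hε'0 hε'1
    (fun L z hz => (min_le_left _ _).trans (hcon (L + 1) (by omega) z hz))
    (fun L t => 1 / (Fintype.card (VV (L + 1)) : ℝ) * Real.log (ZZ (L + 1) (1 / (2 - t))))
    (fun L t ht => PP_log (L + 1) (by omega) t ht)
    (fun L => by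
      have hZ0 := ZZ_pos (L + 1) (by omega) (1 / (2 - 0)) (by norm_num) (by norm_num)
      have hZ1 := ZZ_le_one (L + 1) (1 / (2 - 0)) (by norm_num) (by norm_num)
      have hn : (0 : ℝ) < Fintype.card (VV (L + 1)) := by exact_mod_cast nL_pos (L + 1)
      have hc' : (Fintype.card (EE (L + 1)) : ℝ) = 3 / 2 * Fintype.card (VV (L + 1)) := by
        have : (2 : ℝ) * Fintype.card (EE (L + 1)) = 3 * Fintype.card (VV (L + 1)) := by
          exact_mod_cast card_VV (L + 1)
        linarith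
      have hpos : (0 : ℝ) < (1 - 1 / (2 - 0)) ^ Fintype.card (EE (L + 1)) := by
        apply pow_pos; norm_num
      have h1 := Real.log_le_log hpos hZ0
      have h2 := Real.log_nonpos (hpos.le.trans hZ0) hZ1
      rw [Real.log_pow, hc'] at h1
      have h3 : (1 : ℝ) - 1 / (2 - 0) = 2⁻¹ := by norm_num
      rw [h3, Real.log_inv] at h1
      have h4 := Real.log_two_lt_d9
      rw [abs_mul, abs_of_pos (by positivity : (0 : ℝ) < 1 / Fintype.card (VV (L + 1))),
        abs_of_nonpos h2, one_div_mul_eq_div, div_le_iff₀ hn]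
      nlinarith)
    (fun t ht0 ht1 => by
      have hs : 0 < 2 - t := by linarith
      have hp0 : 0 < 1 / (2 - t) := by positivity
      have hp1 : 1 / (2 - t) < 1 / 2 := by
        rw [div_lt_div_iff₀ hs (by norm_num)]; linarith
      have hq : Tendsto (fun L : ℕ => (2 * (1 / (2 - t))) ^ (L + 1)) atTop (𝓝 0) :=
        (tendsto_pow_atTop_nhds_zero_of_lt_one (by positivity) (by linarith)).comp
          (tendsto_add_atTop_nat 1)
      have hq2 : Tendsto (fun L : ℕ => 3 * Real.log (1 - (2 * (1 / (2 - t))) ^ (L + 1))) atTop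
          (𝓝 0) := by
        have h1 : Tendsto (fun L : ℕ => 1 - (2 * (1 / (2 - t))) ^ (L + 1)) atTop (𝓝 1) := by
          have := hq.const_sub 1
          simpa using this
        have h2 := ((Real.continuousAt_log one_ne_zero).tendsto.comp h1).const_mul 3
        simpa using h2
      refine tendsto_of_tendsto_of_tendsto_of_le_of_le hq2 tendsto_const_nhds (fun L => ?_)
        (fun L => ?_)
      · have hn : (0 : ℝ) < Fintype.card (VV (L + 1)) := by exact_mod_cast nL_pos (L + 1)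
        have h1 := lowZ (CC (L + 1)) (1 / (2 - t)) hp0.le hp1.le (L + 1) (by omega)
          (CC_gir (L + 1)) (ls (L + 1)) (ls_nodup _) (ls_all _)
        have hlt : (2 * (1 / (2 - t))) ^ (L + 1) < 1 :=
          pow_lt_one₀ (by positivity) (by linarith) (by omega)
        have h2 := Real.log_le_log (pow_pos (by linarith) _) h1
        rw [Real.log_pow] at h2
        push_cast at h2
        show 3 * Real.log (1 - (2 * (1 / (2 - t))) ^ (L + 1)) ≤ 1 / (Fintype.card (VV (L + 1)) : ℝ) *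
          Real.log (ZZ (L + 1) (1 / (2 - t)))
        have h3 : ZZ (L + 1) (1 / (2 - t)) = Ex (1 / (2 - t)) (ls (L + 1))
          (svg (CC (L + 1)) (ls (L + 1))) := rfl
        rw [h3, one_div_mul_eq_div, le_div_iff₀ hn]
        linarith
      · have hn : (0 : ℝ) < Fintype.card (VV (L + 1)) := by exact_mod_cast nL_pos (L + 1)
        have h1 := ZZ_le_one (L + 1) (1 / (2 - t)) hp0.le (by linarith)
        have h2 := ZZ_pos (L + 1) (by omega) (1 / (2 - t)) hp0.le (by linarith)
        have h3 := Real.log_nonpos ((pow_nonneg (by linarith) _).trans h2) h1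
        exact mul_nonpos_of_nonneg_of_nonpos (by positivity) h3)
    (ε' / 2) (by rw [abs_of_pos (by linarith)])
  have hs : 0 < 2 - ε' / 2 := by linarith
  have hp0 : 1 / 2 < 1 / (2 - ε' / 2) := by
    rw [div_lt_div_iff₀ (by norm_num) hs]; linarith
  have hp1 : 1 / (2 - ε' / 2) ≤ 1 := by rw [div_le_one hs]; linarith
  obtain ⟨κ, hκ, K, hK⟩ := upZ (1 / (2 - ε' / 2)) hp0 hp1
  have hle : ∀ᶠ L : ℕ in atTop, 1 / (Fintype.card (VV (L + 1)) : ℝ) *
      Real.log (ZZ (L + 1) (1 / (2 - ε' / 2))) ≤ -κ := by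
    filter_upwards [eventually_ge_atTop K] with L hL
    have hn : (0 : ℝ) < Fintype.card (VV (L + 1)) := by exact_mod_cast nL_pos (L + 1)
    have h1 := hK (VV (L + 1)) (EE (L + 1)) (CC (L + 1)) (L + 1) (CC_gir _) (by omega)
      (card_VV _) (ls (L + 1)) (ls_nodup _) (ls_all _)
    have hp1' : 1 / (2 - ε' / 2) < 1 := by rw [div_lt_one hs]; linarith
    have h2 := ZZ_pos (L + 1) (by omega) (1 / (2 - ε' / 2)) (by linarith) hp1'
    have hpos : 0 < ZZ (L + 1) (1 / (2 - ε' / 2)) :=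
      lt_of_lt_of_le (pow_pos (by linarith) _) h2
    have h3 := Real.log_le_log hpos h1
    rw [Real.log_exp] at h3
    rw [one_div_mul_eq_div, div_le_iff₀ hn]
    exact h3
  have := le_of_tendsto hlim hle
  linarith

end Pool.Agent.H.MP_25a9e0_co
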