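import Pool.Agent.H.MP_25a9e0_co.GBound
import Pool.Agent.H.MP_25a9e0_co.Near

/-!
The chromatic polynomial of an arbitrary cubic graph of large girth near `-1`.
-/

namespace Pool.Agent.H.MP_25a9e0_co.GG

open Filter Topology

set_option linter.unusedSectionVars false

/-- the list of all edges -/
noncomputable def ls (E : Type) [Fintype E] : List E := (Finset.univ : Finset E).toList

theorem ls_nodup (E : Type) [Fintype E] : (ls E).Nodup := Finset.nodup_toList _

theorem ls_all (E : Type) [Fintype E] (e : E) : e ∈ ls E := by simp [ls]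

theorem ls_length (E : Type) [Fintype E] : (ls E).length = Fintype.card E := by
  simp [ls]

theorem Q_bound {V E : Type} [Fintype V] [DecidableEq V] (a b : E → V) (z : ℂ) (hz : ‖z‖ ≤ 3)
    (l : List E) : ∀ φ : V → V, ‖Polynomial.aeval z (Q a b l φ)‖ ≤ 2 ^ l.length * 3 ^ kap φ := by
  induction l with
  | nil =>
    intro φ
    unfold Q
    rw [map_pow, Polynomial.aeval_X, norm_pow, List.length_nil, pow_zero, one_mul]
    exact pow_le_pow_left₀ (norm_nonneg _) hz _
  | cons e l ih =>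
    intro φ
    unfold Q
    split_ifs with h
    · rw [map_zero, norm_zero]
      positivity
    · rw [map_sub]
      refine (norm_sub_le _ _).trans ?_
      have h1 := ih φ
      have h2 := ih (mrg φ (φ (a e)) (φ (b e)))
      have h3 := kap_mrg φ (a e) (b e) h
      have h4 : (3 : ℝ) ^ kap (mrg φ (φ (a e)) (φ (b e))) ≤ 3 ^ kap φ :=
        pow_le_pow_right₀ (by norm_num) (by omega)
      have h5 := mul_le_mul_of_nonneg_left h4 (by positivity : (0 : ℝ) ≤ 2 ^ l.length)
      rw [List.length_cons, pow_succ]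
      linarith

section
variable {V E : Type} [Fintype V] [Fintype E] [DecidableEq V] [DecidableEq E] (C : Cubg V E)

/-- the survival probability -/
noncomputable def ZZ (p : ℝ) : ℝ := Ex p (ls E) (svg C (ls E))

/-- the chromatic polynomial of the graph -/
noncomputable def PP : Polynomial ℤ :=
  Q C.st (fun e => C.nx (C.st e) (C.dr e)) (ls E) id

theorem kap_id (V : Type) [Fintype V] [DecidableEq V] : kap (id : V → V) = Fintype.card V := by
  unfold kap
  rw [Finset.image_id, Finset.card_univ]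

theorem ZZ_pos (L : ℕ) (hL : 1 ≤ L) (hG : Gir C L) (p : ℝ) (hp0 : 0 ≤ p) (hp1 : p < 1) :
    (1 - p) ^ (Fintype.card E) ≤ ZZ C p := by
  have h1 := Ex_ge_empty p hp0 hp1.le (ls E) (svg C (ls E)) (fun S => by
    rcases svg_or C (ls E) S with h | h <;> rw [h]
    norm_num)
  have h2 : svg C (ls E) ∅ = 1 := by
    apply sv_eq_one C L hL hG ∅ (ls E) (ls_nodup E)
    intro v i
    obtain ⟨k, rfl⟩ : ∃ k, L = k + 1 := ⟨L - 1, by omega⟩
    rw [X_succ]
    unfold Y
    simp
  rw [h2, mul_one, ls_length] at h1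
  exact h1

theorem ZZ_le_one (p : ℝ) (hp0 : 0 ≤ p) (hp1 : p ≤ 1) : ZZ C p ≤ 1 := by
  have := Ex_mono p hp0 hp1 (ls E) (svg C (ls E)) (fun _ => 1) (fun S => by
    rcases svg_or C (ls E) S with h | h <;> rw [h]
    norm_num)
  rw [Ex_const] at this
  exact this

theorem PP_val (p r : ℝ) (hpr : p * (1 + r) = 1) :
    Polynomial.aeval (-r) (PP C) * (r * p) ^ (Fintype.card E)
      = (-r) ^ (Fintype.card V) * ZZ C p := by
  have h := Q_aeval C.st (fun e => C.nx (C.st e) (C.dr e)) (ls E) p r hpr id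
  rw [ls_length, kap_id, Pr_eq _ _ _ _ _ (ls_nodup E)] at h
  exact h

theorem PP_aeval (t : ℝ) : Polynomial.aeval (-1 + (t : ℂ)) (PP C)
    = ((Polynomial.aeval (-(1 - t)) (PP C) : ℝ) : ℂ) := by
  have h := Polynomial.aeval_algebraMap_apply ℂ (-(1 - t) : ℝ) (PP C)
  have e : algebraMap ℝ ℂ (-(1 - t)) = -1 + (t : ℂ) := by
    show ((-(1 - t) : ℝ) : ℂ) = -1 + (t : ℂ)
    push_cast
    ring
  rw [e] at h
  exact h

theorem PP_abs (L : ℕ) (hL : 1 ≤ L) (hG : Gir C L) (t : ℝ) (ht : |t| < 1) :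
    |Polynomial.aeval (-(1 - t)) (PP C)| * ((1 - t) * (1 / (2 - t))) ^ Fintype.card E
      = (1 - t) ^ Fintype.card V * ZZ C (1 / (2 - t)) ∧ 0 < ZZ C (1 / (2 - t)) ∧
      |Polynomial.aeval (-(1 - t)) (PP C)| ≠ 0 := by
  obtain ⟨ht1, ht2⟩ := abs_lt.1 ht
  have hr : 0 < 1 - t := by linarith
  have hs : 0 < 2 - t := by linarith
  have hp : 0 < 1 / (2 - t) := by positivity
  have hp1 : 1 / (2 - t) < 1 := by rw [div_lt_one hs]; linarith
  have hpr : 1 / (2 - t) * (1 + (1 - t)) = 1 := by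
    have : 1 + (1 - t) = 2 - t := by ring
    rw [this]
    field_simp
  have h := PP_val C (1 / (2 - t)) (1 - t) hpr
  have hZ : 0 < ZZ C (1 / (2 - t)) :=
    lt_of_lt_of_le (pow_pos (by linarith) _) (ZZ_pos C L hL hG _ hp.le hp1)
  have h2 := congrArg abs h
  rw [abs_mul, abs_mul, abs_pow, abs_pow, abs_neg, abs_of_pos hr, abs_of_pos hZ,
    abs_of_pos (by positivity : 0 < (1 - t) * (1 / (2 - t)))] at h2
  refine ⟨h2, hZ, ?_⟩
  intro e
  rw [e, zero_mul] at h2
  have : 0 < (1 - t) ^ Fintype.card V * ZZ C (1 / (2 - t)) := by positivity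
  linarith

theorem PP_log (L : ℕ) (hL : 1 ≤ L) (hG : Gir C L) (hE : 2 * Fintype.card E = 3 * Fintype.card V)
    (hV : 0 < Fintype.card V) (t : ℝ) (ht : |t| < 1) :
    1 / (Fintype.card V : ℝ) * Real.log (ZZ C (1 / (2 - t)))
      = 1 / (Fintype.card V : ℝ) * Real.log ‖Polynomial.aeval (-1 + (t : ℂ)) (PP C)‖
        - 3 / 2 * Real.log (2 - t) + 1 / 2 * Real.log (1 - t) := by
  obtain ⟨ht1, ht2⟩ := abs_lt.1 ht
  have hr : 0 < 1 - t := by linarith
  have hs : 0 < 2 - t := by linarith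
  have hp : 0 < 1 / (2 - t) := by positivity
  obtain ⟨h2, hZ, hA⟩ := PP_abs C L hL hG t ht
  have h3 := congrArg Real.log h2
  rw [Real.log_mul hA (by positivity), Real.log_mul (by positivity) hZ.ne', Real.log_pow,
    Real.log_pow, Real.log_mul hr.ne' hp.ne', one_div, Real.log_inv] at h3
  rw [PP_aeval, Complex.norm_real, Real.norm_eq_abs]
  have hn : (0 : ℝ) < Fintype.card V := by exact_mod_cast hV
  have hc' : (Fintype.card E : ℝ) = 3 / 2 * Fintype.card V := by
    have : (2 : ℝ) * Fintype.card E = 3 * Fintype.card V := by exact_mod_cast hE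
    linarith
  rw [hc'] at h3
  generalize (Fintype.card V : ℝ) = n at *
  rw [one_div (2 - t)]
  field_simp
  field_simp at h3
  linarith

theorem PP_one (L : ℕ) (hL : 1 ≤ L) (hG : Gir C L) : Polynomial.aeval (-1 : ℂ) (PP C) ≠ 0 := by
  have h1 := (PP_abs C L hL hG 0 (by simp)).2.2
  have h2 := PP_aeval C 0
  have e : (-1 : ℂ) + ((0 : ℝ) : ℂ) = -1 := by simp
  rw [e] at h2
  rw [h2]
  intro h3
  apply h1
  rw [Complex.ofReal_eq_zero] at h3
  rw [h3, abs_zero]

theorem PP_ne (L : ℕ) (hL : 1 ≤ L) (hG : Gir C L) : PP C ≠ 0 := by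
  intro e
  apply PP_one C L hL hG
  rw [e, map_zero]

theorem PP_degree : (PP C).natDegree ≤ Fintype.card V := by
  rw [← kap_id]
  exact Q_degree _ _ _ _

theorem PP_up (hE : 2 * Fintype.card E = 3 * Fintype.card V) (z : ℂ) (hz : ‖1 + z‖ = 2) :
    ‖Polynomial.aeval z (PP C)‖ ≤ 100 ^ Fintype.card V := by
  have hz3 : ‖z‖ ≤ 3 := by
    have h1 : z = (1 + z) - 1 := by ring
    have h2 := norm_sub_le (1 + z) 1
    rw [← h1, hz, norm_one] at h2
    linarith
  have h1 := Q_bound C.st (fun e => C.nx (C.st e) (C.dr e)) z hz3 (ls E) id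
  rw [ls_length, kap_id] at h1
  have h2 : (2 : ℝ) ^ Fintype.card E ≤ 3 ^ Fintype.card V := by
    have h3 : ((2 : ℝ) ^ Fintype.card E) ^ 2 ≤ (3 ^ Fintype.card V) ^ 2 := by
      rw [← pow_mul, ← pow_mul, mul_comm (Fintype.card E) 2, hE, mul_comm (Fintype.card V) 2,
        pow_mul, pow_mul]
      exact pow_le_pow_left₀ (by norm_num) (by norm_num) _
    exact le_of_sq_le_sq h3 (by positivity)
  have h4 : (2 : ℝ) ^ Fintype.card E * 3 ^ Fintype.card V ≤ 100 ^ Fintype.card V := by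
    calc (2 : ℝ) ^ Fintype.card E * 3 ^ Fintype.card V
        ≤ 3 ^ Fintype.card V * 3 ^ Fintype.card V :=
          mul_le_mul_of_nonneg_right h2 (by positivity)
      _ = 9 ^ Fintype.card V := by rw [← mul_pow]; norm_num
      _ ≤ 100 ^ Fintype.card V := pow_le_pow_left₀ (by norm_num) (by norm_num) _
  exact h1.trans h4

end

/-- graph data of girth larger than `2 L` -/
structure Gd (L : ℕ) where
  V : Type
  E : Type
  fV : Fintype V
  fE : Fintype E
  dV : DecidableEq V
  dE : DecidableEq E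
  C : Cubg V E
  hG : Gir C L
  hE : 2 * Fintype.card E = 3 * Fintype.card V
  hV : 0 < Fintype.card V

attribute [instance] Gd.fV Gd.fE Gd.dV Gd.dE

section
variable (G : ∀ L, Gd (L + 1))

/-- the normalised logarithm of the survival probability -/
noncomputable def DD (L : ℕ) (t : ℝ) : ℝ :=
  1 / (Fintype.card (G L).V : ℝ) * Real.log (ZZ (G L).C (1 / (2 - t)))

theorem DD_eq (L : ℕ) (t : ℝ) (ht : |t| < 1) : DD G L t = 1 / (Fintype.card (G L).V : ℝ) *
    Real.log ‖Polynomial.aeval (-1 + (t : ℂ)) (PP (G L).C)‖ - 3 / 2 * Real.log (2 - t)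
      + 1 / 2 * Real.log (1 - t) :=
  PP_log (G L).C (L + 1) (by omega) (G L).hG (G L).hE (G L).hV t ht

theorem DD_zero (L : ℕ) : |DD G L 0| ≤ 3 := by
  have hZ0 := ZZ_pos (G L).C (L + 1) (by omega) (G L).hG (1 / (2 - 0)) (by norm_num) (by norm_num)
  have hZ1 := ZZ_le_one (G L).C (1 / (2 - 0)) (by norm_num) (by norm_num)
  have hn : (0 : ℝ) < Fintype.card (G L).V := by exact_mod_cast (G L).hV
  have hc' : (Fintype.card (G L).E : ℝ) = 3 / 2 * Fintype.card (G L).V := by
    have : (2 : ℝ) * Fintype.card (G L).E = 3 * Fintype.card (G L).V := by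
      exact_mod_cast (G L).hE
    linarith
  have hpos : (0 : ℝ) < (1 - 1 / (2 - 0)) ^ Fintype.card (G L).E := by
    apply pow_pos; norm_num
  have h1 := Real.log_le_log hpos hZ0
  have h2 := Real.log_nonpos (hpos.le.trans hZ0) hZ1
  rw [Real.log_pow, hc'] at h1
  have h3 : (1 : ℝ) - 1 / (2 - 0) = 2⁻¹ := by norm_num
  rw [h3, Real.log_inv] at h1
  have h4 := Real.log_two_lt_d9
  unfold DD
  rw [abs_mul, abs_of_pos (by positivity : (0 : ℝ) < 1 / Fintype.card (G L).V),
    abs_of_nonpos h2, one_div_mul_eq_div, div_le_iff₀ hn]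
  nlinarith

theorem DD_neg (t : ℝ) (ht0 : -1 < t) (ht1 : t < 0) :
    Tendsto (fun L => DD G L t) atTop (𝓝 0) := by
  have hs : 0 < 2 - t := by linarith
  have hp0 : 0 < 1 / (2 - t) := by positivity
  have hp1 : 1 / (2 - t) < 1 / 2 := by
    rw [div_lt_div_iff₀ hs (by norm_num)]; linarith
  have hq : Tendsto (fun L : ℕ => (2 * (1 / (2 - t))) ^ (L + 1)) atTop (𝓝 0) :=
    (tendsto_pow_atTop_nhds_zero_of_lt_one (by positivity) (by linarith)).comp
      (tendsto_add_atTop_nat 1)
  have hq2 : Tendsto (fun L : ℕ => 3 * Real.log (1 - (2 * (1 / (2 - t))) ^ (L + 1))) atTop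
      (𝓝 0) := by
    have h1 : Tendsto (fun L : ℕ => 1 - (2 * (1 / (2 - t))) ^ (L + 1)) atTop (𝓝 1) := by
      have := hq.const_sub 1
      simpa using this
    have h2 := ((Real.continuousAt_log one_ne_zero).tendsto.comp h1).const_mul 3
    simpa using h2
  refine tendsto_of_tendsto_of_tendsto_of_le_of_le hq2 tendsto_const_nhds (fun L => ?_)
    (fun L => ?_)
  · have hn : (0 : ℝ) < Fintype.card (G L).V := by exact_mod_cast (G L).hV
    have h1 := lowZ (G L).C (1 / (2 - t)) hp0.le hp1.le (L + 1) (by omega)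
      (G L).hG (ls (G L).E) (ls_nodup _) (ls_all _)
    have hlt : (2 * (1 / (2 - t))) ^ (L + 1) < 1 :=
      pow_lt_one₀ (by positivity) (by linarith) (by omega)
    have h2 := Real.log_le_log (pow_pos (by linarith) _) h1
    rw [Real.log_pow] at h2
    push_cast at h2
    show 3 * Real.log (1 - (2 * (1 / (2 - t))) ^ (L + 1)) ≤ 1 / (Fintype.card (G L).V : ℝ) *
      Real.log (ZZ (G L).C (1 / (2 - t)))
    have h3 : ZZ (G L).C (1 / (2 - t)) = Ex (1 / (2 - t)) (ls (G L).E)
      (svg (G L).C (ls (G L).E)) := rfl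
    rw [h3, one_div_mul_eq_div, le_div_iff₀ hn]
    linarith
  · have h1 := ZZ_le_one (G L).C (1 / (2 - t)) hp0.le (by linarith)
    have h2 := ZZ_pos (G L).C (L + 1) (by omega) (G L).hG (1 / (2 - t)) hp0.le (by linarith)
    have h3 := Real.log_nonpos ((pow_nonneg (by linarith) _).trans h2) h1
    exact mul_nonpos_of_nonneg_of_nonpos (by positivity) h3

theorem DD_pos (t : ℝ) (ht0 : 0 < t) (ht1 : t < 1) :
    ¬ Tendsto (fun L => DD G L t) atTop (𝓝 0) := by
  intro hlim
  have hs : 0 < 2 - t := by linarith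
  have hp0 : 1 / 2 < 1 / (2 - t) := by
    rw [div_lt_div_iff₀ (by norm_num) hs]; linarith
  have hp1 : 1 / (2 - t) ≤ 1 := by rw [div_le_one hs]; linarith
  obtain ⟨κ, hκ, K, hK⟩ := upZ (1 / (2 - t)) hp0 hp1
  have hle : ∀ᶠ L : ℕ in atTop, DD G L t ≤ -κ := by
    filter_upwards [eventually_ge_atTop K] with L hL
    have hn : (0 : ℝ) < Fintype.card (G L).V := by exact_mod_cast (G L).hV
    have h1 := hK (G L).V (G L).E (G L).C (L + 1) (G L).hG (by omega)
      (G L).hE (ls (G L).E) (ls_nodup _) (ls_all _)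
    have hp1' : 1 / (2 - t) < 1 := by rw [div_lt_one hs]; linarith
    have h2 := ZZ_pos (G L).C (L + 1) (by omega) (G L).hG (1 / (2 - t)) (by linarith) hp1'
    have hpos : 0 < ZZ (G L).C (1 / (2 - t)) :=
      lt_of_lt_of_le (pow_pos (by linarith) _) h2
    have h3 := Real.log_le_log hpos h1
    rw [Real.log_exp] at h3
    unfold DD
    rw [one_div_mul_eq_div, div_le_iff₀ hn]
    exact h3
  have := le_of_tendsto hlim hle
  linarith

end

/-- every cubic graph of large girth has a root near `-1` -/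
theorem near_one (ε : ℝ) (hε : 0 < ε) : ∃ L, 1 ≤ L ∧ ∀ G : Gd L, ∃ z : ℂ,
    Polynomial.aeval z (PP G.C) = 0 ∧ ‖1 + z‖ < ε := by
  by_contra hcon
  push Not at hcon
  set ε' := min ε 1 with hε'
  have hε'0 : 0 < ε' := lt_min hε one_pos
  have hε'1 : ε' ≤ 1 := min_le_right _ _
  choose G hG using fun L : ℕ => hcon (L + 1) (by omega)
  have hlim := no_gap (fun L => PP (G L).C) (fun L => Fintype.card (G L).V)
    (fun L => (G L).hV) (fun L => PP_ne (G L).C (L + 1) (by omega) (G L).hG)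
    (fun L => PP_degree _) ε' hε'0 hε'1
    (fun L z hz => (min_le_left _ _).trans (hG L z hz)) (DD G)
    (fun L t ht => DD_eq G L t ht) (DD_zero G) (DD_neg G) (ε' / 2)
    (by rw [abs_of_pos (by linarith)])
  exact DD_pos G (ε' / 2) (by linarith) (by linarith) hlim

end Pool.Agent.H.MP_25a9e0_co.GG
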