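import Pool.Agent.H.MP_25a9e0_co.GLocA
import Pool.Agent.H.MP_25a9e0_co.GNear
import Pool.Agent.H.MP_25a9e0_co.GGap

/-!
Cubic graphs most of whose vertices have a tree neighbourhood: a positive proportion of the
chromatic roots is near `-1`.
-/

namespace Pool.Agent.H.MP_25a9e0_co.GG

open Filter Topology

set_option linter.unusedSectionVars false

section
variable {V E : Type} [Fintype V] [Fintype E] [DecidableEq V] [DecidableEq E] (C : Cubg V E)

theorem ZZ_pos' (hloop : ∀ v i, C.nx v i ≠ v) (p : ℝ) (hp0 : 0 ≤ p) (hp1 : p < 1) :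
    (1 - p) ^ (Fintype.card E) ≤ ZZ C p := by
  have h1 := Ex_ge_empty p hp0 hp1.le (ls E) (svg C (ls E)) (fun S => by
    rcases svg_or C (ls E) S with h | h <;> rw [h]
    norm_num)
  have h2 : svg C (ls E) ∅ = 1 := by
    apply sv_eq_one' C 1 le_rfl hloop ∅ (ls E) (ls_nodup E)
    · intro v i _
      rw [X_succ]
      unfold Y
      simp
    · intro v i _
      exact Finset.notMem_empty _
  rw [h2, mul_one, ls_length] at h1
  exact h1

theorem PP_abs' (hloop : ∀ v i, C.nx v i ≠ v) (t : ℝ) (ht : |t| < 1) :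
    |Polynomial.aeval (-(1 - t)) (PP C)| * ((1 - t) * (1 / (2 - t))) ^ Fintype.card E
      = (1 - t) ^ Fintype.card V * ZZ C (1 / (2 - t)) ∧ 0 < ZZ C (1 / (2 - t)) ∧
      |Polynomial.aeval (-(1 - t)) (PP C)| ≠ 0 := by
  obtain ⟨ht1, ht2⟩ := abs_lt.1 ht
  have hr : 0 < 1 - t := by linarith
  have hs : 0 < 2 - t := by linarith
  have hp : 0 < 1 / (2 - t) := by positivity
  have hp1 : 1 / (2 - t) < 1 := by rw [div_lt_one hs]; linarith
  have hpr : 1 / (2 - t) * (1 + (1 - t)) = 1 := by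
    have : 1 + (1 - t) = 2 - t := by ring
    rw [this]
    field_simp
  have h := PP_val C (1 / (2 - t)) (1 - t) hpr
  have hZ : 0 < ZZ C (1 / (2 - t)) :=
    lt_of_lt_of_le (pow_pos (by linarith) _) (ZZ_pos' C hloop _ hp.le hp1)
  have h2 := congrArg abs h
  rw [abs_mul, abs_mul, abs_pow, abs_pow, abs_neg, abs_of_pos hr, abs_of_pos hZ,
    abs_of_pos (by positivity : 0 < (1 - t) * (1 / (2 - t)))] at h2
  refine ⟨h2, hZ, ?_⟩
  intro e
  rw [e, zero_mul] at h2
  have : 0 < (1 - t) ^ Fintype.card V * ZZ C (1 / (2 - t)) := by positivity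
  linarith

theorem PP_log' (hloop : ∀ v i, C.nx v i ≠ v) (hE : 2 * Fintype.card E = 3 * Fintype.card V)
    (hV : 0 < Fintype.card V) (t : ℝ) (ht : |t| < 1) :
    1 / (Fintype.card V : ℝ) * Real.log (ZZ C (1 / (2 - t)))
      = 1 / (Fintype.card V : ℝ) * Real.log ‖Polynomial.aeval (-1 + (t : ℂ)) (PP C)‖
        - 3 / 2 * Real.log (2 - t) + 1 / 2 * Real.log (1 - t) := by
  obtain ⟨ht1, ht2⟩ := abs_lt.1 ht
  have hr : 0 < 1 - t := by linarith
  have hs : 0 < 2 - t := by linarith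
  have hp : 0 < 1 / (2 - t) := by positivity
  obtain ⟨h2, hZ, hA⟩ := PP_abs' C hloop t ht
  have h3 := congrArg Real.log h2
  rw [Real.log_mul hA (by positivity), Real.log_mul (by positivity) hZ.ne', Real.log_pow,
    Real.log_pow, Real.log_mul hr.ne' hp.ne', one_div, Real.log_inv] at h3
  rw [PP_aeval, Complex.norm_real, Real.norm_eq_abs]
  have hn : (0 : ℝ) < Fintype.card V := by exact_mod_cast hV
  have hc' : (Fintype.card E : ℝ) = 3 / 2 * Fintype.card V := by
    have : (2 : ℝ) * Fintype.card E = 3 * Fintype.card V := by exact_mod_cast hE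
    linarith
  rw [hc'] at h3
  generalize (Fintype.card V : ℝ) = n at *
  rw [one_div (2 - t)]
  field_simp
  field_simp at h3
  linarith

theorem PP_one' (hloop : ∀ v i, C.nx v i ≠ v) : Polynomial.aeval (-1 : ℂ) (PP C) ≠ 0 := by
  have h1 := (PP_abs' C hloop 0 (by simp)).2.2
  have h2 := PP_aeval C 0
  have e : (-1 : ℂ) + ((0 : ℝ) : ℂ) = -1 := by simp
  rw [e] at h2
  rw [h2]
  intro h3
  apply h1
  rw [Complex.ofReal_eq_zero] at h3
  rw [h3, abs_zero]

theorem PP_ne' (hloop : ∀ v i, C.nx v i ≠ v) : PP C ≠ 0 := by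
  intro e
  apply PP_one' C hloop
  rw [e, map_zero]

end

/-- graph data most of whose vertices have a tree neighbourhood -/
structure Gl (L : ℕ) where
  V : Type
  E : Type
  fV : Fintype V
  fE : Fintype E
  dV : DecidableEq V
  dE : DecidableEq E
  C : Cubg V E
  hloop : ∀ v i, C.nx v i ≠ v
  hb : 2 ^ L * bad C L ≤ Fintype.card V
  hE : 2 * Fintype.card E = 3 * Fintype.card V
  hV : 0 < Fintype.card V

attribute [instance] Gl.fV Gl.fE Gl.dV Gl.dE

section
variable (G : ∀ L, Gl (L + 1))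

/-- the normalised logarithm of the survival probability -/
noncomputable def DL (L : ℕ) (t : ℝ) : ℝ :=
  1 / (Fintype.card (G L).V : ℝ) * Real.log (ZZ (G L).C (1 / (2 - t)))

theorem DL_eq (L : ℕ) (t : ℝ) (ht : |t| < 1) : DL G L t = 1 / (Fintype.card (G L).V : ℝ) *
    Real.log ‖Polynomial.aeval (-1 + (t : ℂ)) (PP (G L).C)‖ - 3 / 2 * Real.log (2 - t)
      + 1 / 2 * Real.log (1 - t) :=
  PP_log' (G L).C (G L).hloop (G L).hE (G L).hV t ht

theorem DL_zero (L : ℕ) : |DL G L 0| ≤ 3 := by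
  have hZ0 := ZZ_pos' (G L).C (G L).hloop (1 / (2 - 0)) (by norm_num) (by norm_num)
  have hZ1 := ZZ_le_one (G L).C (1 / (2 - 0)) (by norm_num) (by norm_num)
  have hn : (0 : ℝ) < Fintype.card (G L).V := by exact_mod_cast (G L).hV
  have hc' : (Fintype.card (G L).E : ℝ) = 3 / 2 * Fintype.card (G L).V := by
    have : (2 : ℝ) * Fintype.card (G L).E = 3 * Fintype.card (G L).V := by
      exact_mod_cast (G L).hE
    linarith
  have hpos : (0 : ℝ) < (1 - 1 / (2 - 0)) ^ Fintype.card (G L).E := by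
    apply pow_pos; norm_num
  have h1 := Real.log_le_log hpos hZ0
  have h2 := Real.log_nonpos (hpos.le.trans hZ0) hZ1
  rw [Real.log_pow, hc'] at h1
  have h3 : (1 : ℝ) - 1 / (2 - 0) = 2⁻¹ := by norm_num
  rw [h3, Real.log_inv] at h1
  have h4 := Real.log_two_lt_d9
  unfold DL
  rw [abs_mul, abs_of_pos (by positivity : (0 : ℝ) < 1 / Fintype.card (G L).V),
    abs_of_nonpos h2, one_div_mul_eq_div, div_le_iff₀ hn]
  nlinarith

theorem bad_real (L : ℕ) : (bad (G L).C (L + 1) : ℝ) ≤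
    (1 / 2) ^ (L + 1) * Fintype.card (G L).V := by
  have h1 : ((2 ^ (L + 1) * bad (G L).C (L + 1) : ℕ) : ℝ) ≤ (Fintype.card (G L).V : ℝ) := by
    exact_mod_cast (G L).hb
  push_cast at h1
  rw [one_div, inv_pow, inv_mul_eq_div, le_div_iff₀ (by positivity)]
  linarith

theorem DL_neg (t : ℝ) (ht0 : -1 < t) (ht1 : t < 0) :
    Tendsto (fun L => DL G L t) atTop (𝓝 0) := by
  have hs : 0 < 2 - t := by linarith
  have hp0 : 0 < 1 / (2 - t) := by positivity
  have hp1 : 1 / (2 - t) < 1 / 2 := by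
    rw [div_lt_div_iff₀ hs (by norm_num)]; linarith
  have hq : Tendsto (fun L : ℕ => (2 * (1 / (2 - t))) ^ (L + 1)) atTop (𝓝 0) :=
    (tendsto_pow_atTop_nhds_zero_of_lt_one (by positivity) (by linarith)).comp
      (tendsto_add_atTop_nat 1)
  have hhalf : Tendsto (fun L : ℕ => ((1 : ℝ) / 2) ^ (L + 1)) atTop (𝓝 0) :=
    (tendsto_pow_atTop_nhds_zero_of_lt_one (by norm_num) (by norm_num)).comp
      (tendsto_add_atTop_nat 1)
  have hq2 : Tendsto (fun L : ℕ => 3 * Real.log (1 - (2 * (1 / (2 - t))) ^ (L + 1))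
      + 3 * Real.log (1 - 1 / (2 - t)) * (1 / 2) ^ (L + 1)) atTop (𝓝 0) := by
    have h1 : Tendsto (fun L : ℕ => 1 - (2 * (1 / (2 - t))) ^ (L + 1)) atTop (𝓝 1) := by
      have := hq.const_sub 1
      simpa using this
    have h2 := ((Real.continuousAt_log one_ne_zero).tendsto.comp h1).const_mul 3
    have h3 := hhalf.const_mul (3 * Real.log (1 - 1 / (2 - t)))
    have h4 := h2.add h3
    simpa using h4
  refine tendsto_of_tendsto_of_tendsto_of_le_of_le hq2 tendsto_const_nhds (fun L => ?_)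
    (fun L => ?_)
  · have hn : (0 : ℝ) < Fintype.card (G L).V := by exact_mod_cast (G L).hV
    have h1 := lowZ' (G L).C (1 / (2 - t)) hp0.le hp1.le (L + 1) (by omega)
      (G L).hloop (ls (G L).E) (ls_nodup _) (ls_all _)
    have hlt : (2 * (1 / (2 - t))) ^ (L + 1) < 1 :=
      pow_lt_one₀ (by positivity) (by linarith) (by omega)
    have hA : 0 < (1 - (2 * (1 / (2 - t))) ^ (L + 1)) ^ (Fintype.card (G L).V * 3) :=
      pow_pos (by linarith) _
    have hB : 0 < (1 - 1 / (2 - t)) ^ (bad (G L).C (L + 1) * 3) := pow_pos (by linarith) _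
    have h2 := Real.log_le_log (mul_pos hA hB) h1
    rw [Real.log_mul hA.ne' hB.ne', Real.log_pow, Real.log_pow] at h2
    push_cast at h2
    show 3 * Real.log (1 - (2 * (1 / (2 - t))) ^ (L + 1))
      + 3 * Real.log (1 - 1 / (2 - t)) * (1 / 2) ^ (L + 1) ≤ 1 / (Fintype.card (G L).V : ℝ) *
      Real.log (ZZ (G L).C (1 / (2 - t)))
    have h3 : ZZ (G L).C (1 / (2 - t)) = Ex (1 / (2 - t)) (ls (G L).E)
      (svg (G L).C (ls (G L).E)) := rfl
    rw [h3, one_div_mul_eq_div, le_div_iff₀ hn]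
    have h4 := bad_real G L
    have h5 : Real.log (1 - 1 / (2 - t)) ≤ 0 :=
      Real.log_nonpos (by linarith) (by linarith)
    have h6 := mul_le_mul_of_nonpos_left h4 h5
    nlinarith
  · have h1 := ZZ_le_one (G L).C (1 / (2 - t)) hp0.le (by linarith)
    have h2 := ZZ_pos' (G L).C (G L).hloop (1 / (2 - t)) hp0.le (by linarith)
    have h3 := Real.log_nonpos ((pow_nonneg (by linarith) _).trans h2) h1
    exact mul_nonpos_of_nonneg_of_nonpos (by positivity) h3

theorem DL_pos (t : ℝ) (ht0 : 0 < t) (ht1 : t < 1) :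
    ¬ Tendsto (fun L => DL G L t) atTop (𝓝 0) := by
  intro hlim
  have hs : 0 < 2 - t := by linarith
  have hp0 : 1 / 2 < 1 / (2 - t) := by
    rw [div_lt_div_iff₀ (by norm_num) hs]; linarith
  have hp1 : 1 / (2 - t) ≤ 1 := by rw [div_le_one hs]; linarith
  obtain ⟨κ, hκ, δ, hδ, K, hK⟩ := upZ' (1 / (2 - t)) hp0 hp1
  have hhalf : Tendsto (fun L : ℕ => ((1 : ℝ) / 2) ^ (L + 1)) atTop (𝓝 0) :=
    (tendsto_pow_atTop_nhds_zero_of_lt_one (by norm_num) (by norm_num)).comp
      (tendsto_add_atTop_nat 1)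
  have hle : ∀ᶠ L : ℕ in atTop, DL G L t ≤ -κ := by
    filter_upwards [eventually_ge_atTop K, hhalf.eventually_le_const hδ] with L hL hδL
    have hn : (0 : ℝ) < Fintype.card (G L).V := by exact_mod_cast (G L).hV
    have h1 := hK (G L).V (G L).E (G L).C (L + 1) (by omega)
      ((bad_real G L).trans (mul_le_mul_of_nonneg_right hδL hn.le))
      (G L).hE (ls (G L).E) (ls_nodup _) (ls_all _)
    have hp1' : 1 / (2 - t) < 1 := by rw [div_lt_one hs]; linarith
    have h2 := ZZ_pos' (G L).C (G L).hloop (1 / (2 - t)) (by linarith) hp1'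
    have hpos : 0 < ZZ (G L).C (1 / (2 - t)) :=
      lt_of_lt_of_le (pow_pos (by linarith) _) h2
    have h3 := Real.log_le_log hpos h1
    rw [Real.log_exp] at h3
    unfold DL
    rw [one_div_mul_eq_div, div_le_iff₀ hn]
    exact h3
  have := le_of_tendsto hlim hle
  linarith

end

theorem near_many' (ε : ℝ) (hε : 0 < ε) : ∃ L, 1 ≤ L ∧ ∀ G : Gl L,
    Fintype.card G.V ≤ 2 ^ L * Multiset.card ((rts (PP G.C)).filter (fun z => ‖1 + z‖ < ε)) := by
  by_contra hcon
  push Not at hcon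
  set ε' := min ε 1 with hε'
  have hε'0 : 0 < ε' := lt_min hε one_pos
  have hε'1 : ε' ≤ 1 := min_le_right _ _
  choose G hG using fun L : ℕ => hcon (L + 1) (by omega)
  obtain ⟨t, ht0, ht1, hlim⟩ := gap_prop (fun L => PP (G L).C) (fun L => Fintype.card (G L).V)
    (fun L => (G L).hV) (fun L => PP_ne' (G L).C (G L).hloop)
    (fun L => PP_degree _) ε' hε'0 hε'1
    (fun L => PP_one' (G L).C (G L).hloop)
    (fun L => by
      have h1 := hG L
      have h2 : Multiset.card ((rts (PP (G L).C)).filter (fun z => ‖1 + z‖ < ε'))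
          ≤ Multiset.card ((rts (PP (G L).C)).filter (fun z => ‖1 + z‖ < ε)) := by
        apply Multiset.card_le_card
        apply Multiset.monotone_filter_right
        intro z hz
        exact lt_of_lt_of_le hz (min_le_left _ _)
      rw [pow_succ] at h1
      have h3 := Nat.mul_le_mul_left (2 ^ L) h2
      have h4 : 2 ^ L * 2 * Multiset.card ((rts (PP (G L).C)).filter (fun z => ‖1 + z‖ < ε))
        = 2 * (2 ^ L * Multiset.card ((rts (PP (G L).C)).filter (fun z => ‖1 + z‖ < ε))) := by ring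
      show 2 ^ L * Multiset.card ((rts (PP (G L).C)).filter (fun z => ‖1 + z‖ < ε'))
        ≤ Fintype.card (G L).V
      omega)
    (fun L z hz => PP_up (G L).C (G L).hE z hz) (DL G)
    (fun L t ht => DL_eq G L t ht) (DL_zero G) (DL_neg G)
  exact DL_pos G t ht0 (by linarith) hlim

end Pool.Agent.H.MP_25a9e0_co.GG
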