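import Pool.Agent.H.MP_25a9e0_co.GDef
import Pool.Agent.H.MP_25a9e0_co.GLocN
import Pool.Agent.H.MP_25a9e0_co.GLink

/-!
Vertices whose neighbourhood is not a tree are close to a short cycle.
-/

namespace Pool.Agent.H.MP_25a9e0_co.GG

open SimpleGraph

theorem ball_le {V E : Type} [DecidableEq V] [DecidableEq E] (C : Cubg V E) (k m : ℕ)
    (h : k ≤ m) (c v : V) (hv : v ∈ ball C k c) : v ∈ ball C m c := by
  induction m, h using Nat.le_induction with
  | base => exact hv
  | succ m _ ih => exact ball_succ C m c v ih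

theorem wk_ball {V : Type} [DecidableEq V] (G : SimpleGraph V)
    (h3 : ∀ v, Nat.card (G.neighborSet v) = 3) [DecidableEq G.edgeSet] (x : V)
    (w : List (Fin 3)) : ∀ v, x ∈ (wk G h3 v w).support → v ∈ ball (toC G h3) w.length x := by
  induction w with
  | nil =>
    intro v hx
    have h1 : x ∈ [v] := hx
    have h2 : x = v := by simpa using h1
    rw [h2]
    exact ball_self (toC G h3) 0 v
  | cons i w ih =>
    intro v hx
    have h1 : x ∈ v :: (wk G h3 (nxt G h3 v i) w).support := hx
    rcases List.mem_cons.1 h1 with h2 | h2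
    · rw [h2]
      exact ball_self (toC G h3) _ v
    · have h4 := ball_nx (toC G h3) _ _ _ (rvt G h3 v i) (ih _ h2)
      have h5 : (toC G h3).nx (nxt G h3 v i) (rvt G h3 v i) = v := nxt_nxt G h3 v i
      rw [h5] at h4
      exact h4

theorem toC_bad {V : Type} [DecidableEq V] (G : SimpleGraph V)
    (h3 : ∀ v, Nat.card (G.neighborSet v) = 3) [DecidableEq G.edgeSet] (L : ℕ) (v : V)
    (hv : ¬ Gdv (toC G h3) L v) : ∃ (x : V) (c : G.Walk x x), c.IsCycle ∧ c.length ≤ 2 * L ∧
      v ∈ ball (toC G h3) L x := by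
  unfold Gdv at hv
  push Not at hv
  obtain ⟨w, u, hw, hu, hwL, huL, h, hne⟩ := hv
  set p := wk G h3 v w with hp
  set q := (wk G h3 v u).copy rfl h.symm with hq
  have hpe : ∀ e ∈ p.edges, e ∈ G.edgeSet := fun e he => p.edges_subset_edgeSet he
  have hqe : ∀ e ∈ q.edges, e ∈ G.edgeSet := fun e he => q.edges_subset_edgeSet he
  set H : SimpleGraph V := fromEdgeSet {e | e ∈ p.edges ∨ e ∈ q.edges} with hH
  have hmem : ∀ e, e ∈ H.edgeSet ↔ (e ∈ p.edges ∨ e ∈ q.edges) := by
    intro e
    rw [hH, edgeSet_fromEdgeSet]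
    constructor
    · intro h1
      exact h1.1
    · intro h1
      refine ⟨h1, ?_⟩
      intro h2
      have h4 : e ∈ G.edgeSet := by
        rcases h1 with h1 | h1
        · exact hpe e h1
        · exact hqe e h1
      exact G.not_isDiag_of_mem_edgeSet h4 h2
  have hle : H ≤ G := by
    rw [← edgeSet_subset_edgeSet]
    intro e he
    rcases (hmem e).1 he with h1 | h1
    · exact hpe e h1
    · exact hqe e h1
  have hnac : ¬ H.IsAcyclic := by
    intro hac
    have hpc : List.IsChain (· ≠ ·) p.edges := wk_chain G h3 w v hw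
    have hqc : List.IsChain (· ≠ ·) q.edges := by
      rw [hq, Walk.edges_copy]
      exact wk_chain G h3 u v hu
    have e1 : ∀ e ∈ p.edges, e ∈ H.edgeSet := fun e he => (hmem e).2 (Or.inl he)
    have e2 : ∀ e ∈ q.edges, e ∈ H.edgeSet := fun e he => (hmem e).2 (Or.inr he)
    have hp' : (p.transfer H e1).IsPath := by
      rw [hac.isPath_iff_isChain, Walk.edges_transfer]
      exact hpc
    have hq' : (q.transfer H e2).IsPath := by
      rw [hac.isPath_iff_isChain, Walk.edges_transfer]
      exact hqc
    have hsub := hac.subsingleton_path v (fn (toC G h3) v w)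
    have huniq : (⟨_, hp'⟩ : H.Path v (fn (toC G h3) v w)) = ⟨_, hq'⟩ := Subsingleton.elim _ _
    have h8 : p.transfer H e1 = q.transfer H e2 := Subtype.ext_iff.1 huniq
    have h9 := congrArg Walk.support h8
    rw [Walk.support_transfer, Walk.support_transfer, hq, Walk.support_copy] at h9
    exact hne (wk_inj G h3 w v u h9)
  unfold IsAcyclic at hnac
  push Not at hnac
  obtain ⟨x, c, hc⟩ := hnac
  refine ⟨x, c.mapLe hle, hc.mapLe hle, ?_, ?_⟩
  · rw [Walk.length_mapLe]
    have h1 : c.edges ⊆ p.edges ++ q.edges := by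
      intro e he
      have h2 := (hmem e).1 (c.edges_subset_edgeSet he)
      rw [List.mem_append]
      exact h2
    have h2 := (List.subperm_of_subset hc.edges_nodup h1).length_le
    rw [List.length_append, Walk.length_edges, Walk.length_edges, Walk.length_edges] at h2
    have h4 : p.length ≤ L := by rw [hp, wk_length]; exact hwL
    have h5 : q.length ≤ L := by rw [hq, Walk.length_copy, wk_length]; exact huL
    omega
  · cases c with
    | nil => exact absurd hc (by simp)
    | @cons _ y _ hxy c' =>
      have h1 := (hmem s(x, y)).1 hxy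
      rcases h1 with h1 | h1
      · have h2 := p.fst_mem_support_of_mem_edges h1
        exact ball_le _ _ _ hwL _ _ (wk_ball G h3 x w v h2)
      · have h2 := q.fst_mem_support_of_mem_edges h1
        rw [hq, Walk.support_copy] at h2
        exact ball_le _ _ _ huL _ _ (wk_ball G h3 x u v h2)

/-- number of vertices on cycles of length at most `m` -/
noncomputable def shortV {V : Type} (G : SimpleGraph V) (m : ℕ) : ℕ :=
  Nat.card {x : V // ∃ c : G.Walk x x, c.IsCycle ∧ c.length ≤ m}

theorem bad_card {V : Type} [Fintype V] (G : SimpleGraph V)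
    (h3 : ∀ v, Nat.card (G.neighborSet v) = 3) (L : ℕ) :
    bad (toC G h3) L ≤ shortV G (2 * L) * 4 ^ L := by
  classical
  rw [bad_eq]
  have h1 : (Finset.univ : Finset V).filter (fun v => ¬ Gdv (toC G h3) L v) ⊆
      ((Finset.univ : Finset V).filter (fun x => ∃ c : G.Walk x x, c.IsCycle ∧
        c.length ≤ 2 * L)).biUnion (fun x => ball (toC G h3) L x) := by
    intro v hv
    rw [Finset.mem_filter] at hv
    obtain ⟨x, c, hc1, hc2, hc3⟩ := toC_bad G h3 L v hv.2
    rw [Finset.mem_biUnion]
    exact ⟨x, Finset.mem_filter.2 ⟨Finset.mem_univ _, c, hc1, hc2⟩, hc3⟩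
  refine (Finset.card_le_card h1).trans ?_
  have h2 := Finset.card_biUnion_le_card_mul ((Finset.univ : Finset V).filter
    (fun x => ∃ c : G.Walk x x, c.IsCycle ∧ c.length ≤ 2 * L)) (fun x => ball (toC G h3) L x)
    (4 ^ L) (fun x _ => ball_card _ _ _)
  refine h2.trans (le_of_eq ?_)
  unfold shortV
  rw [Nat.card_eq_fintype_card, Fintype.card_subtype]

section
variable {V : Type} (G : SimpleGraph V) (h3 : ∀ v, Nat.card (G.neighborSet v) = 3)

/-- the graph data of a simple graph with few short cycles -/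
noncomputable def toL [Fintype V] [DecidableEq V] (hV : 0 < Fintype.card V) (L : ℕ)
    (hg : 2 ^ L * (shortV G (2 * L) * 4 ^ L) ≤ Fintype.card V) : Gl L :=
  haveI : Fintype G.edgeSet := Fintype.ofFinite _
  { V := V
    E := G.edgeSet
    fV := inferInstance
    fE := inferInstance
    dV := inferInstance
    dE := Classical.decEq _
    C := toC G h3
    hloop := fun v i h => (nxt_adj G h3 v i).ne h.symm
    hb := (Nat.mul_le_mul_left _ (bad_card G h3 L)).trans hg
    hE := toC_card G h3
    hV := hV }

theorem toL_card [Fintype V] [DecidableEq V] (hV : 0 < Fintype.card V) (L : ℕ)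
    (hg : 2 ^ L * (shortV G (2 * L) * 4 ^ L) ≤ Fintype.card V) :
    Fintype.card (toL G h3 hV L hg).V = Fintype.card V := rfl

theorem toL_pol [Fintype V] [DecidableEq V] (hV : 0 < Fintype.card V) (L : ℕ)
    (hg : 2 ^ L * (shortV G (2 * L) * 4 ^ L) ≤ Fintype.card V) (P : Polynomial ℤ)
    (hP : IsChromaticPolynomial G P) : PP (toL G h3 hV L hg).C = P := by
  rw [eq_pol G P hP]
  exact (@toC_pol V G h3 _ _ (Fintype.ofFinite _)).symm

end

end Pool.Agent.H.MP_25a9e0_co.GG
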