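import Pool.Agent.H.MP_25a9e0_co.Bound

/-!
Finite cubic graphs of arbitrarily large girth from three involutions of a ball in a tree, and
the passage from directed data to simple graphs.
-/

namespace Pool.Agent.H.MP_25a9e0_co

open Finset

/-- reduced words of bounded length -/
def RW (L : ℕ) : Type := {w : List (Fin 3) // Red w ∧ w.length ≤ L}

instance (L : ℕ) : Finite (RW L) := by
  have : Finite {w : List (Fin 3) | w.length ≤ L} := (List.finite_length_le (Fin 3) L).to_subtype
  exact Finite.of_injective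
    (fun w : RW L => (⟨w.1, w.2.2⟩ : {w : List (Fin 3) | w.length ≤ L}))
    (fun a b h => Subtype.ext (by simpa using h))

theorem Red_tail (w : List (Fin 3)) (h : Red w) : Red w.tail := by
  cases w with
  | nil => trivial
  | cons i w => exact h.2

/-- one step of the action -/
def mv (L : ℕ) (i : Fin 3) (w : RW L) : RW L :=
  if h : w.1.head? = some i then ⟨w.1.tail, Red_tail _ w.2.1, by
    have := w.2.2
    simp only [List.length_tail]
    omega⟩
  else if h' : w.1.length < L then ⟨i :: w.1, ⟨h, w.2.1⟩, by simpa using h'⟩ else w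

theorem mv_pos (L : ℕ) (i : Fin 3) (w : RW L) (h : w.1.head? = some i) :
    (mv L i w).1 = w.1.tail := by
  unfold mv
  rw [dif_pos h]

theorem mv_lt (L : ℕ) (i : Fin 3) (w : RW L) (h : ¬ w.1.head? = some i) (h' : w.1.length < L) :
    (mv L i w).1 = i :: w.1 := by
  unfold mv
  rw [dif_neg h, dif_pos h']

theorem mv_eq (L : ℕ) (i : Fin 3) (w : RW L) (h : ¬ w.1.head? = some i)
    (h' : ¬ w.1.length < L) : mv L i w = w := by
  unfold mv
  rw [dif_neg h, dif_neg h']

theorem mv_mv (L : ℕ) (i : Fin 3) (w : RW L) : mv L i (mv L i w) = w := by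
  by_cases h : w.1.head? = some i
  · have e1 := mv_pos L i w h
    have e3 : w.1 = i :: w.1.tail := by
      cases hw : w.1 with
      | nil => rw [hw] at h; simp at h
      | cons j w' => rw [hw] at h; simp at h; simp [h]
    have h3 : Red (i :: w.1.tail) := by rw [← e3]; exact w.2.1
    have h4 : w.1.tail.length < L := by
      have h5 := w.2.2
      rw [e3] at h5
      simpa using h5
    apply Subtype.ext
    rw [mv_lt L i (mv L i w) (by rw [e1]; exact h3.1) (by rw [e1]; exact h4), e1]
    exact e3.symm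
  · by_cases h' : w.1.length < L
    · have e1 := mv_lt L i w h h'
      apply Subtype.ext
      rw [mv_pos L i (mv L i w) (by rw [e1]; rfl), e1]
      rfl
    · rw [mv_eq L i w h h', mv_eq L i w h h']

/-- the three involutions -/
def aa (L : ℕ) (i : Fin 3) : Equiv.Perm (RW L) :=
  ⟨mv L i, mv L i, mv_mv L i, mv_mv L i⟩

theorem aa_aa (L : ℕ) (i : Fin 3) : aa L i * aa L i = 1 := by
  ext1 w
  exact mv_mv L i w

/-- product along a word -/
def evw (L : ℕ) : List (Fin 3) → Equiv.Perm (RW L)
  | [] => 1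
  | i :: w => aa L i * evw L w

theorem evw_nil (L : ℕ) (w : List (Fin 3)) : Red w → w.length ≤ L →
    (evw L w ⟨[], trivial, Nat.zero_le _⟩).1 = w := by
  induction w with
  | nil => intro _ _; rfl
  | cons i w ih =>
    intro h1 h2
    have h3 : w.length < L := by simpa using h2
    have h4 := ih h1.2 h3.le
    have h5 : evw L w ⟨[], trivial, Nat.zero_le _⟩ = ⟨w, h1.2, h3.le⟩ := Subtype.ext h4
    show (mv L i (evw L w ⟨[], trivial, Nat.zero_le _⟩)).1 = i :: w
    rw [h5]
    exact mv_lt L i _ h1.1 h3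

/-- vertices -/
abbrev VV (L : ℕ) : Type := Equiv.Perm (RW L) × Bool

/-- edges -/
abbrev EE (L : ℕ) : Type := Equiv.Perm (RW L) × Fin 3

/-- the cubic graph of the group -/
def CC (L : ℕ) : Cub (VV L) (EE L) where
  nx := fun x i => (x.1 * aa L i, !x.2)
  ed := fun x i => (if x.2 = true then x.1 * aa L i else x.1, i)
  st := fun e => (e.1, false)
  dr := fun e => e.2
  nx_nx := by
    rintro ⟨g, s⟩ i
    simp [mul_assoc, aa_aa]
  ed_nx := by
    rintro ⟨g, s⟩ i
    cases s <;> simp [mul_assoc, aa_aa]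
  ed_eq := by
    rintro ⟨g, s⟩ ⟨g', s'⟩ i j h
    have h1 : i = j := (Prod.ext_iff.1 h).2
    subst h1
    refine ⟨rfl, ?_⟩
    have h2 : (if s = true then g * aa L i else g) = (if s' = true then g' * aa L i else g') :=
      (Prod.ext_iff.1 h).1
    cases s <;> cases s'
    · left; simpa using h2
    · right; simpa using h2
    · right
      have h3 : g * aa L i = g' := by simpa using h2
      have h4 : g = g' * aa L i := by rw [← h3, mul_assoc, aa_aa, mul_one]
      rw [h4]
      rfl
    · left; simpa using h2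
  ed_st := by
    rintro ⟨g, i⟩
    simp

theorem CC_fn (L : ℕ) (w : List (Fin 3)) : ∀ x : VV L, (fn (CC L) x w).1 = x.1 * evw L w := by
  induction w with
  | nil => intro x; simp [fn, evw]
  | cons i w ih =>
    intro x
    have h1 := ih ((CC L).nx x i)
    have h2 : (fn (CC L) x (i :: w)) = fn (CC L) ((CC L).nx x i) w := rfl
    rw [h2, h1]
    show x.1 * aa L i * evw L w = x.1 * (aa L i * evw L w)
    rw [mul_assoc]

theorem CC_gir (L : ℕ) : Gir (CC L) L := by
  intro v w u hw hu hwL huL h
  have h1 := CC_fn L w v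
  have h2 := CC_fn L u v
  rw [h, h2] at h1
  have h3 : evw L u = evw L w := mul_left_cancel h1
  rw [← evw_nil L w hw hwL, ← evw_nil L u hu huL, h3]

section
variable {V E : Type} (C : Cub V E)

theorem nx_ne (L : ℕ) (hL : 1 ≤ L) (hG : Gir C L) (v : V) (i : Fin 3) : C.nx v i ≠ v := by
  intro h
  have h1 : fn C v [i] = fn C v [] := h
  have := hG v [i] [] ⟨by simp, trivial⟩ trivial (by simpa using hL) (by simp) h1
  simp at this

theorem nx_inj (L : ℕ) (hL : 1 ≤ L) (hG : Gir C L) (v : V) : Function.Injective (C.nx v) := by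
  intro i j h
  have h1 : fn C v [i] = fn C v [j] := h
  have := hG v [i] [j] ⟨by simp, trivial⟩ ⟨by simp, trivial⟩ (by simpa using hL)
    (by simpa using hL) h1
  simpa using this

/-- the simple graph -/
def gr (L : ℕ) (hL : 1 ≤ L) (hG : Gir C L) : SimpleGraph V where
  Adj u v := ∃ i, C.nx u i = v
  symm := ⟨fun u v h => by
    obtain ⟨i, h⟩ := h
    exact ⟨i, by rw [← h, C.nx_nx]⟩⟩
  loopless := ⟨fun u h => by
    obtain ⟨i, h⟩ := h
    exact nx_ne C L hL hG u i h⟩

theorem gr_cubic (L : ℕ) (hL : 1 ≤ L) (hG : Gir C L) (v : V) :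
    Nat.card ((gr C L hL hG).neighborSet v) = 3 := by
  have e : Fin 3 ≃ (gr C L hL hG).neighborSet v :=
    Equiv.ofBijective (fun i => ⟨C.nx v i, i, rfl⟩) (by
      constructor
      · intro i j h
        exact nx_inj C L hL hG v (Subtype.ext_iff.1 h)
      · rintro ⟨u, i, h⟩
        exact ⟨i, Subtype.ext h⟩)
  rw [← Nat.card_congr e, Nat.card_fin]

theorem gr_cnt [Fintype V] [DecidableEq V] (L : ℕ) (hL : 1 ≤ L) (hG : Gir C L) (l : List E)
    (hall : ∀ e, e ∈ l) (k : ℕ) : cnt (gr C L hL hG) ∅ k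
      = num C.st (fun e => C.nx (C.st e) (C.dr e)) l id k := by
  unfold cnt num
  apply Nat.card_congr
  apply Equiv.subtypeEquivRight
  intro c
  constructor
  · rintro ⟨h1, _⟩
    refine ⟨fun u v h => by rw [show u = v from h], fun e _ => h1 _ _ ⟨C.dr e, rfl⟩⟩
  · rintro ⟨_, h2⟩
    refine ⟨?_, fun u hu => absurd hu (Finset.notMem_empty u)⟩
    rintro u v ⟨i, rfl⟩
    have h3 := h2 (C.ed u i) (hall _)
    obtain ⟨h4, h5⟩ := C.ed_eq (C.st (C.ed u i)) u (C.dr (C.ed u i)) i (C.ed_st _)
    simp only [h4] at h3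
    rcases h5 with h5 | h5
    · rw [h5] at h3
      exact h3
    · rw [h5, C.nx_nx] at h3
      exact h3.symm

theorem gr_pol [Fintype V] [DecidableEq V] (L : ℕ) (hL : 1 ≤ L) (hG : Gir C L) (l : List E)
    (hall : ∀ e, e ∈ l) : pol (gr C L hL hG) ∅
      = Q C.st (fun e => C.nx (C.st e) (C.dr e)) l id := by
  apply poly_ext
  intro k
  rw [pol_eval, Q_eval, gr_cnt C L hL hG l hall]

end

end Pool.Agent.H.MP_25a9e0_co
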