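import Pool.Agent.H.MP_25a9e0_co.Disc

/-!
The half plane `Re q ≤ -5 / √6` contains no chromatic root of a graph of maximum degree at most
three.
-/

namespace Pool.Agent.H.MP_25a9e0_co

open Finset

/-- signed value -/
noncomputable def sg {V : Type} [Fintype V] (G : SimpleGraph V) (S : Finset V) (q : ℂ) : ℂ :=
  -((-1) ^ S.card * val G S q)

theorem sum_approx {α : Type} [DecidableEq α] (N : Finset α) (f : Finset α → ℂ) (g : ℕ → ℂ)
    (e : ℕ → ℝ) (h : ∀ T ∈ N.powerset, ‖f T - g T.card‖ ≤ e T.card) :
    ‖∑ T ∈ N.powerset, f T - ∑ m ∈ Finset.range (N.card + 1), (N.card.choose m : ℂ) * g m‖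
      ≤ ∑ m ∈ Finset.range (N.card + 1), (N.card.choose m : ℝ) * e m := by
  have h1 := Finset.sum_powerset_apply_card (x := N) g
  have h2 := Finset.sum_powerset_apply_card (x := N) e
  simp only [nsmul_eq_mul] at h1 h2
  rw [← h1, ← h2, ← Finset.sum_sub_distrib]
  exact (norm_sum_le _ _).trans (Finset.sum_le_sum h)

/-- the numerical facts about the centre `a` and the ratio `μ` -/
structure Good (r a : ℂ) (μ : ℝ) : Prop where
  quad : a * a + r * a = 1
  hμ0 : 0 < μ
  hμ1 : μ ≤ 1
  ht0 : 0 < ‖a‖
  ht1 : ‖a‖ ≤ 1 / 2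
  hr : 2 ≤ r.re
  ha : 0 ≤ a.re
  h2 : 2 * ‖a‖ + 2 * ‖a‖ * μ + 2 * ‖a‖ ^ 2 ≤ ‖1 + 2 * a‖
  h3 : ‖a‖ * (1 + μ) ^ 2 + μ * ‖a‖ ^ 2 ≤ μ * ‖1 + 2 * a‖

theorem Good.center {r a : ℂ} {μ : ℝ} (h : Good r a μ) : ‖r + 2 + a‖ * ‖a‖ = ‖1 + 2 * a‖ := by
  rw [← norm_mul]
  congr 1
  have := h.quad
  linear_combination this

theorem Good.big {r a : ℂ} {μ : ℝ} (h : Good r a μ) :
    (1 + μ) ^ 2 ≤ μ * (‖r + 2 + a‖ - ‖a‖) := by
  have h1 := h.center
  have h2 := h.h3
  have h3 := h.ht0
  rw [← h1] at h2
  have h4 : ‖a‖ * ((1 + μ) ^ 2) ≤ ‖a‖ * (μ * (‖r + 2 + a‖ - ‖a‖)) := by nlinarith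
  exact le_of_mul_le_mul_left h4 h3

theorem Good.r2 {r a : ℂ} {μ : ℝ} (h : Good r a μ) : (1 + μ) ^ 2 ≤ μ * ‖r + 2‖ := by
  have h1 := h.big
  have h2 : ‖r + 2 + a‖ - ‖a‖ ≤ ‖r + 2‖ := by
    have := norm_add_le (r + 2) a
    linarith
  have := mul_le_mul_of_nonneg_left h2 h.hμ0.le
  linarith

theorem Good.r1 {r a : ℂ} {μ : ℝ} (h : Good r a μ) : 1 + μ ≤ μ * ‖r + 1‖ ∧ 3 ≤ ‖r + 1‖ := by
  have h1 := h.r2
  have h2 : ‖r + 2‖ ≤ ‖r + 1‖ + 1 := by
    have := norm_add_le (r + 1) 1
    rw [norm_one, show r + 1 + 1 = r + 2 by ring] at this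
    exact this
  have h3 := mul_le_mul_of_nonneg_left h2 h.hμ0.le
  have h4 : (r + 1).re = r.re + 1 := by simp
  have h5 := Complex.re_le_norm (r + 1)
  rw [h4] at h5
  have h6 := h.hr
  exact ⟨by nlinarith [sq_nonneg μ], by linarith⟩

theorem Good.r0 {r a : ℂ} {μ : ℝ} (h : Good r a μ) : 1 ≤ μ * ‖r‖ ∧ 2 ≤ ‖r‖ := by
  have h1 := h.r2
  have h2 : ‖r + 2‖ ≤ ‖r‖ + 2 := by
    have := norm_add_le r 2
    have h2 : ‖(2 : ℂ)‖ = 2 := by simp
    linarith
  have h3 := mul_le_mul_of_nonneg_left h2 h.hμ0.le
  have h5 := Complex.re_le_norm r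
  have h6 := h.hr
  exact ⟨by nlinarith [sq_nonneg μ], by linarith⟩

/-- the statement proved by induction -/
def Inv (V : Type) [Fintype V] (q a : ℂ) (μ : ℝ) (G : SimpleGraph V) : Prop :=
  val G ∅ q ≠ 0 ∧ (∀ S : Finset V, S.card = 2 → (∀ u ∈ S, dg G u ≤ 2) →
    ‖sg G S q - a * val G ∅ q‖ ≤ ‖a‖ * ‖val G ∅ q‖) ∧
  ∀ S : Finset V, 2 ≤ S.card → (∀ u ∈ S, dg G u ≤ 2) →
    ‖sg G S q‖ ≤ 2 * ‖a‖ * μ ^ (S.card - 2) * ‖val G ∅ q‖

theorem sg_one {V : Type} [Fintype V] (G : SimpleGraph V) (S : Finset V) (hS : S.card = 1)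
    (q : ℂ) : sg G S q = val G ∅ q := by
  unfold sg val
  rw [hS, pol_small G S hS.le]
  ring

theorem P_approx {V : Type} [Fintype V] [DecidableEq V] (r a : ℂ) (μ : ℝ) (hμ0 : 0 < μ)
    (G : SimpleGraph V) (u : V) (hG : ∀ u, dg G u ≤ 3) (hI : Inv _ (-r) a μ (del G u)) :
    ‖val G ∅ (-r) + (r + (nb G u).card + ((nb G u).card.choose 2 : ℂ) * a) * val (del G u) ∅ (-r)‖
      ≤ (((nb G u).card.choose 2 : ℝ) * ‖a‖ + ((nb G u).card.choose 3 : ℝ) * (2 * ‖a‖ * μ))
        * ‖val (del G u) ∅ (-r)‖ := by
  have hd : (nb G u).card ≤ 3 := (nb_card G u).le.trans (hG u)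
  have hnb : ∀ v ∈ nb G u, dg (del G u) v ≤ 2 := by
    intro v hv
    have h1 : G.Adj u v.1 := by simpa [nb] using hv
    have h2 := dg_del_adj G u v h1
    have h3 := hG v.1
    omega
  generalize hP : val (del G u) ∅ (-r) = P at *
  have h := sum_approx (nb G u)
    (fun T => if T = ∅ then r * P else sg (del G u) T (-r))
    (fun m => if m = 0 then r * P else if m = 1 then P else if m = 2 then a * P else 0)
    (fun m => if m ≤ 1 then 0 else if m = 2 then ‖a‖ * ‖P‖ else 2 * ‖a‖ * μ * ‖P‖) (by
    intro T hT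
    have hT' := Finset.mem_powerset.1 hT
    have hTd : ∀ v ∈ T, dg (del G u) v ≤ 2 := fun v hv => hnb v (hT' hv)
    have hTc : T.card ≤ 3 := (Finset.card_le_card hT').trans hd
    by_cases h0 : T = ∅
    · subst h0; simp
    · rw [if_neg h0]
      have hc0 : T.card ≠ 0 := fun e => h0 (Finset.card_eq_zero.1 e)
      rw [if_neg hc0]
      by_cases h1 : T.card = 1
      · rw [if_pos h1, if_pos h1.le, sg_one _ _ h1, hP, sub_self, norm_zero]
      · rw [if_neg h1]
        by_cases h2 : T.card = 2
        · rw [if_pos h2, if_neg (by omega), if_pos h2, ← hP]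
          exact hI.2.1 T h2 hTd
        · rw [if_neg h2, if_neg (by omega), if_neg h2, sub_zero]
          have h3 : T.card = 3 := by omega
          have h4 := hI.2.2 T (by omega) hTd
          rw [h3, hP, show 3 - 2 = 1 from rfl, pow_one] at h4
          exact h4)
  have e1 : ∑ T ∈ (nb G u).powerset, (if T = ∅ then r * P else sg (del G u) T (-r))
      = -val G ∅ (-r) := by
    rw [val_two G u (-r), ← Finset.sum_neg_distrib]
    apply Finset.sum_congr rfl
    intro T _
    split_ifs with h0
    · subst h0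
      rw [hP]
      simp
    · unfold sg
      ring
  rw [e1] at h
  have e2 : ∀ n : ℕ, n ≤ 3 → ∑ m ∈ Finset.range (n + 1), (n.choose m : ℂ) *
      (if m = 0 then r * P else if m = 1 then P else if m = 2 then a * P else 0)
      = (r + n + (n.choose 2 : ℂ) * a) * P := by
    intro n hn
    interval_cases n <;> simp [Finset.sum_range_succ, Nat.choose] <;> ring
  have e3 : ∀ n : ℕ, n ≤ 3 → ∑ m ∈ Finset.range (n + 1), (n.choose m : ℝ) *
      (if m ≤ 1 then 0 else if m = 2 then ‖a‖ * ‖P‖ else 2 * ‖a‖ * μ * ‖P‖)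
      = ((n.choose 2 : ℝ) * ‖a‖ + (n.choose 3 : ℝ) * (2 * ‖a‖ * μ)) * ‖P‖ := by
    intro n hn
    interval_cases n <;> simp [Finset.sum_range_succ, Nat.choose] <;> ring
  rw [e2 _ hd, e3 _ hd] at h
  have e4 : val G ∅ (-r) + (r + (nb G u).card + ((nb G u).card.choose 2 : ℂ) * a) * P
      = -(-val G ∅ (-r) - (r + (nb G u).card + ((nb G u).card.choose 2 : ℂ) * a) * P) := by ring
  rw [e4, norm_neg]
  exact h

theorem inv_all (r a : ℂ) (μ : ℝ) (hg : Good r a μ) (n : ℕ) :
    ∀ (V : Type) [Fintype V], Fintype.card V = n → ∀ G : SimpleGraph V, (∀ u, dg G u ≤ 3) →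
      Inv V (-r) a μ G := by
  classical
  have hμ0 := hg.hμ0
  have hμ1 := hg.hμ1
  have ht0 := hg.ht0
  have ht1 := hg.ht1
  induction n with
  | zero =>
    intro V _ hV G _
    have : IsEmpty V := Fintype.card_eq_zero_iff.1 hV
    have h1 : pol G ∅ = 1 := by
      apply poly_ext
      intro k
      rw [pol_eval, cnt_eq_sum]
      simp [ind]
    have hS : ∀ S : Finset V, S = ∅ := fun S => Finset.eq_empty_of_isEmpty S
    refine ⟨?_, fun S h => ?_, fun S h => ?_⟩
    · unfold val
      rw [h1]
      simp
    · rw [hS S] at h; simp at h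
    · rw [hS S] at h; simp at h
  | succ n ih =>
    intro V _ hV G hG
    have hc : ∀ u : V, Fintype.card {v : V // v ≠ u} = n := by
      intro u
      have := Fintype.card_subtype_compl (fun v : V => v = u)
      rw [Fintype.card_subtype_eq] at this
      rw [this, hV]
      rfl
    have hIH : ∀ u : V, Inv _ (-r) a μ (del G u) := fun u =>
      ih _ (hc u) (del G u) (fun v => (dg_del G u v).trans (hG v.1))
    have hP := fun u => P_approx r a μ hμ0 G u hG (hIH u)
    have hd3 : ∀ u, (nb G u).card ≤ 3 := fun u => (nb_card G u).le.trans (hG u)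
    -- lower bounds for the value of the whole graph
    have hlow : ∀ u, (nb G u).card ≤ 2 → (1 + μ) ^ (nb G u).card * ‖val (del G u) ∅ (-r)‖
        ≤ μ * ‖val G ∅ (-r)‖ := by
      intro u hu
      have h := hP u
      have hx := norm_nonneg (val (del G u) ∅ (-r))
      generalize (nb G u).card = d at *
      generalize val (del G u) ∅ (-r) = P at *
      generalize val G ∅ (-r) = PG at *
      have h1 : ∀ c : ℂ, ‖c * P‖ ≤ ‖PG‖ + ‖PG + c * P‖ := by
        intro c
        have := norm_sub_le (PG + c * P) PG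
        rw [add_sub_cancel_left] at this
        linarith
      interval_cases d
      · simp [Nat.choose] at h ⊢
        have h2 := h1 r
        rw [h, norm_zero, add_zero, norm_mul] at h2
        have h3 := hg.r0.1
        nlinarith [mul_le_mul_of_nonneg_left h2 hμ0.le, mul_le_mul_of_nonneg_right h3 hx]
      · simp [Nat.choose] at h ⊢
        have h2 := h1 (r + 1)
        rw [h, norm_zero, add_zero, norm_mul] at h2
        have h3 := hg.r1.1
        nlinarith [mul_le_mul_of_nonneg_left h2 hμ0.le, mul_le_mul_of_nonneg_right h3 hx]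
      · simp [Nat.choose] at h ⊢
        have h2 := h1 (r + 2 + a)
        rw [norm_mul] at h2
        have h3 := hg.big
        have h4 : ‖r + 2 + a‖ * ‖P‖ - ‖a‖ * ‖P‖ ≤ ‖PG‖ := by linarith
        nlinarith [mul_le_mul_of_nonneg_left h4 hμ0.le, mul_le_mul_of_nonneg_right h3 hx]
    have hnb : ∀ u : V, ∀ v ∈ nb G u, dg (del G u) v ≤ 2 := by
      intro u v hv
      have h1 : G.Adj u v.1 := by simpa [nb] using hv
      have h2 := dg_del_adj G u v h1
      have h3 := hG v.1
      omega
    -- facts about the recursion for a set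
    have htr : ∀ (S : Finset V) (u : V), u ∈ S → (tr S u).card = S.card - 1 := by
      intro S u hu
      rw [← Finset.card_erase_of_mem hu]
      apply Finset.card_bij (fun v _ => v.1)
      · intro v hv
        rw [Finset.mem_erase]
        exact ⟨v.2, by simpa [tr] using hv⟩
      · intro x _ y _ h
        exact Subtype.ext h
      · intro v hv
        rw [Finset.mem_erase] at hv
        exact ⟨⟨v, hv.1⟩, by simpa [tr] using hv.2, rfl⟩
    have hdisj : ∀ (S : Finset V) (u : V), (∀ v ∈ S, ¬ G.Adj u v) → ∀ T ⊆ nb G u,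
        Disjoint (tr S u) T := by
      intro S u hadj T hT
      rw [Finset.disjoint_left]
      intro x hx hxT
      have h1 : G.Adj u x.1 := by simpa [nb] using hT hxT
      have h2 : x.1 ∈ S := by simpa [tr] using hx
      exact hadj _ h2 h1
    have hdeg : ∀ (S : Finset V) (u : V), (∀ v ∈ S, dg G v ≤ 2) → ∀ T ⊆ nb G u,
        ∀ w ∈ tr S u ∪ T, dg (del G u) w ≤ 2 := by
      intro S u hS T hT w hw
      rcases Finset.mem_union.1 hw with h | h
      · exact (dg_del G u w).trans (hS _ (by simpa [tr] using h))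
      · exact hnb u w (hT h)
    have hrec : ∀ (S : Finset V) (u : V), u ∈ S → 2 ≤ S.card → (∀ v ∈ S, ¬ G.Adj u v) →
        sg G S (-r) = -∑ T ∈ (nb G u).powerset, sg (del G u) (tr S u ∪ T) (-r) := by
      intro S u hu hS hadj
      obtain ⟨b, hb⟩ : (tr S u).Nonempty := by
        rw [← Finset.card_pos, htr S u hu]; omega
      unfold sg
      rw [val_one G S u hu b hb, Finset.mul_sum, ← Finset.sum_neg_distrib,
        ← Finset.sum_neg_distrib]
      apply Finset.sum_congr rfl
      intro T hT
      rw [Finset.card_union_of_disjoint (hdisj S u hadj T (Finset.mem_powerset.1 hT)),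
        htr S u hu]
      obtain ⟨m, hm⟩ : ∃ m, S.card = m + 1 := ⟨S.card - 1, by omega⟩
      rw [hm, Nat.add_sub_cancel, pow_succ, pow_add]
      ring
    have hzero : ∀ (S : Finset V) (u v : V), u ∈ S → v ∈ S → G.Adj u v → sg G S (-r) = 0 := by
      intro S u v hu hv huv
      unfold sg val
      rw [pol_adj G S u v hu hv huv, map_zero, mul_zero, neg_zero]
    have hdisc : ∀ S : Finset V, S.card = 2 → (∀ u ∈ S, dg G u ≤ 2) →
        ‖sg G S (-r) - a * val G ∅ (-r)‖ ≤ ‖a‖ * ‖val G ∅ (-r)‖ := by
      intro S hS hSd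
      obtain ⟨u, s, hus, rfl⟩ := Finset.card_eq_two.1 hS
      by_cases hadj : G.Adj u s
      · rw [hzero _ u s (by simp) (by simp) hadj, zero_sub, norm_neg, norm_mul]
      · have hadj' : ∀ v ∈ ({u, s} : Finset V), ¬ G.Adj u v := by
          intro v hv
          rcases Finset.mem_insert.1 hv with h | h
          · rw [h]; exact G.loopless.irrefl u
          · rw [Finset.mem_singleton.1 h]; exact hadj
        have hu : u ∈ ({u, s} : Finset V) := by simp
        have hd2 : (nb G u).card ≤ 2 := (nb_card G u).le.trans (hSd u hu)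
        have h1 := hrec {u, s} u hu hS.ge hadj'
        have htr1 : (tr ({u, s} : Finset V) u).card = 1 := by rw [htr _ u hu, hS]
        have h := sum_approx (nb G u) (fun T => sg (del G u) (tr {u, s} u ∪ T) (-r))
          (fun m => if m = 0 then val (del G u) ∅ (-r) else if m = 1 then
            a * val (del G u) ∅ (-r) else 0)
          (fun m => if m = 0 then 0 else if m = 1 then ‖a‖ * ‖val (del G u) ∅ (-r)‖ else
            2 * ‖a‖ * μ * ‖val (del G u) ∅ (-r)‖) (by
          intro T hT
          have hT' := Finset.mem_powerset.1 hT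
          have hTd := hdeg {u, s} u hSd T hT'
          have hTc : T.card ≤ 2 := (Finset.card_le_card hT').trans hd2
          have hcard : (tr ({u, s} : Finset V) u ∪ T).card = 1 + T.card := by
            rw [Finset.card_union_of_disjoint (hdisj _ u hadj' T hT'), htr1]
          by_cases h0 : T.card = 0
          · rw [if_pos h0, if_pos h0, sg_one _ _ (by rw [hcard, h0]), sub_self, norm_zero]
          · rw [if_neg h0, if_neg h0]
            by_cases h1 : T.card = 1
            · rw [if_pos h1, if_pos h1]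
              exact (hIH u).2.1 _ (by rw [hcard, h1]) hTd
            · rw [if_neg h1, if_neg h1, sub_zero]
              have h2 : T.card = 2 := by omega
              have h4 := (hIH u).2.2 _ (by rw [hcard, h2]; norm_num) hTd
              rw [hcard, h2, show 1 + 2 - 2 = 1 from rfl, pow_one] at h4
              exact h4)
        have hPu := hP u
        have hlu := hlow u hd2
        have hx := norm_nonneg (val (del G u) ∅ (-r))
        have hquad := hg.quad
        have hcen := hg.center
        have hh2 := hg.h2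
        generalize hF : ∑ T ∈ (nb G u).powerset, sg (del G u) (tr {u, s} u ∪ T) (-r) = F at *
        rw [h1]
        clear hlow hrec hzero hdeg hdisj htr hnb hIH ih h1
        generalize (nb G u).card = d at *
        generalize val (del G u) ∅ (-r) = P at *
        generalize val G ∅ (-r) = PG at *
        have key : ∀ c : ℂ, ‖c * P‖ ≤ ‖PG‖ + ‖PG + c * P‖ := by
          intro c
          have := norm_sub_le (PG + c * P) PG
          rw [add_sub_cancel_left] at this
          linarith
        interval_cases d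
        · simp [Nat.choose, Finset.sum_range_succ] at h hPu
          have k1 := key r
          rw [hPu, norm_zero, add_zero, norm_mul] at k1
          have e1 : -F - a * PG = -(F - P) - a * (PG + r * P) - a * a * P := by
            linear_combination P * hquad
          have hF0 : F - P = 0 := by simpa using h
          have e2 : -F - a * PG = -(a * a * P) := by
            rw [e1, hF0, hPu]; ring
          rw [e2, norm_neg, norm_mul, norm_mul]
          have h5 := hg.r0.2
          have h6 : ‖a‖ * ‖P‖ ≤ ‖PG‖ := by nlinarith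
          nlinarith [mul_le_mul_of_nonneg_left h6 ht0.le]
        · simp [Nat.choose, Finset.sum_range_succ] at h hPu
          have k1 := key (r + 1)
          rw [hPu, norm_zero, add_zero, norm_mul] at k1
          have e1 : -F - a * PG = -(F - (P + a * P)) - a * (PG + (r + 1) * P) - a * a * P := by
            linear_combination P * hquad
          rw [e1, hPu, mul_zero, sub_zero]
          have h5 := hg.r1.2
          have h6 := norm_sub_le (-(F - (P + a * P))) (a * a * P)
          rw [norm_neg, norm_mul, norm_mul] at h6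
          have h7 : (1 + ‖a‖) * ‖P‖ ≤ ‖PG‖ := by nlinarith
          nlinarith [mul_le_mul_of_nonneg_left h7 ht0.le]
        · simp [Nat.choose, Finset.sum_range_succ] at h hPu
          have k1 := key (r + 2 + a)
          rw [norm_mul] at k1
          have e1 : -F - a * PG = -(F - (P + 2 * (a * P))) - a * (PG + (r + 2 + a) * P) := by
            linear_combination P * hquad
          rw [e1]
          have h6 := norm_sub_le (-(F - (P + 2 * (a * P)))) (a * (PG + (r + 2 + a) * P))
          rw [norm_neg, norm_mul] at h6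
          have h7 : ‖r + 2 + a‖ * ‖P‖ - ‖a‖ * ‖P‖ ≤ ‖PG‖ := by linarith
          have h8 := mul_le_mul_of_nonneg_left h7 ht0.le
          have h9 := mul_le_mul_of_nonneg_right hh2 hx
          have h10 := mul_le_mul_of_nonneg_left hPu ht0.le
          nlinarith
    refine ⟨?_, hdisc, ?_⟩
    · have hne : Nonempty V := by
        rw [← Fintype.card_pos_iff, hV]; omega
      obtain ⟨u⟩ := hne
      have hu := (hIH u).1
      have hpos : 0 < ‖val (del G u) ∅ (-r)‖ := norm_pos_iff.2 hu
      by_cases h2 : (nb G u).card ≤ 2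
      · intro h0
        have h1 := hlow u h2
        rw [h0, norm_zero, mul_zero] at h1
        have : 0 < (1 + μ) ^ (nb G u).card * ‖val (del G u) ∅ (-r)‖ := by positivity
        linarith
      · have h3 : (nb G u).card = 3 := by have := hd3 u; omega
        intro h0
        have h := hP u
        rw [h0, h3, zero_add, norm_mul] at h
        simp [Nat.choose] at h
        have h4 : ‖r + 3 + 3 * a‖ ≤ 3 * ‖a‖ + 2 * ‖a‖ * μ := by
          exact le_of_mul_le_mul_right h hpos
        have h5 := Complex.re_le_norm (r + 3 + 3 * a)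
        have h6 : (r + 3 + 3 * a).re = r.re + 3 + 3 * a.re := by simp
        rw [h6] at h5
        have h7 := hg.hr
        have h8 := hg.ha
        nlinarith
    · intro S hS hSd
      by_cases h2 : S.card = 2
      · -- the second bound follows from the disc
        rw [h2, Nat.sub_self, pow_zero, mul_one]
        have h3 := hdisc S h2 hSd
        have h4 := norm_add_le (sg G S (-r) - a * val G ∅ (-r)) (a * val G ∅ (-r))
        rw [sub_add_cancel, norm_mul] at h4
        linarith
      · obtain ⟨u, hu⟩ : S.Nonempty := by rw [← Finset.card_pos]; omega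
        by_cases hadj : ∃ v ∈ S, G.Adj u v
        · obtain ⟨v, hv, huv⟩ := hadj
          rw [hzero S u v hu hv huv, norm_zero]
          positivity
        · push Not at hadj
          have hd2 : (nb G u).card ≤ 2 := (nb_card G u).le.trans (hSd u hu)
          rw [hrec S u hu hS hadj, norm_neg]
          have h3 : 3 ≤ S.card := by omega
          have hb : ∀ T ∈ (nb G u).powerset, ‖sg (del G u) (tr S u ∪ T) (-r)‖
              ≤ μ ^ T.card * (2 * ‖a‖ * μ ^ (S.card - 3) * ‖val (del G u) ∅ (-r)‖) := by
            intro T hT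
            have hT' := Finset.mem_powerset.1 hT
            have hcard : (tr S u ∪ T).card = S.card - 1 + T.card := by
              rw [Finset.card_union_of_disjoint (hdisj S u hadj T hT'), htr S u hu]
            have h4 := (hIH u).2.2 (tr S u ∪ T) (by rw [hcard]; omega) (hdeg S u hSd T hT')
            have h5 : (tr S u ∪ T).card - 2 = T.card + (S.card - 3) := by omega
            rw [h5, pow_add] at h4
            refine h4.trans (le_of_eq ?_)
            ring
          refine (norm_sum_le _ _).trans ((Finset.sum_le_sum hb).trans ?_)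
          rw [← Finset.sum_mul]
          have h5 := Finset.sum_powerset_apply_card (x := nb G u) (fun m => μ ^ m)
          have h6 : ∑ T ∈ (nb G u).powerset, μ ^ T.card = (1 + μ) ^ (nb G u).card := by
            rw [h5, add_comm 1 μ, add_pow]
            apply Finset.sum_congr rfl
            intro m _
            rw [nsmul_eq_mul]
            ring
          rw [h6]
          have h7 := hlow u hd2
          have h8 : S.card - 2 = (S.card - 3) + 1 := by omega
          rw [h8, pow_succ]
          have h9 : 0 ≤ 2 * ‖a‖ * μ ^ (S.card - 3) := by positivity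
          nlinarith [mul_le_mul_of_nonneg_left h7 h9]

end Pool.Agent.H.MP_25a9e0_co
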