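import Pool.Agent.H.MP_25a9e0_co.Count

/-!
The merging expansion of the counting polynomial at negative arguments and its reading as a
probability for independent edges.
-/

namespace Pool.Agent.H.MP_25a9e0_co

open Finset

/-- identify the label `x` with the label `y` -/
def mrg {V : Type} [DecidableEq V] (φ : V → V) (x y : V) : V → V :=
  fun v => if φ v = x then y else φ v

/-- number of labels in use -/
def kap {V : Type} [Fintype V] [DecidableEq V] (φ : V → V) : ℕ := (Finset.univ.image φ).card

/-- colourings constant on the classes of `φ` and proper along the edges in the list -/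
noncomputable def num {V E : Type} (a b : E → V) (l : List E) (φ : V → V) (k : ℕ) : ℕ :=
  Nat.card {c : V → Fin k // (∀ u v, φ u = φ v → c u = c v) ∧ ∀ e ∈ l, c (a e) ≠ c (b e)}

theorem image_mrg_erase {V : Type} [DecidableEq V] (φ : V → V) (U : Finset V) (x y : V)
    (hy : y ∈ U.image φ) (hxy : x ≠ y) : U.image (mrg φ x y) = (U.image φ).erase x := by
  ext z
  simp only [Finset.mem_image, Finset.mem_erase, mrg]
  constructor
  · rintro ⟨u, hu, h⟩
    by_cases hux : φ u = x
    · rw [if_pos hux] at h
      subst h
      refine ⟨fun e => hxy e.symm, ?_⟩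
      simpa using hy
    · rw [if_neg hux] at h
      exact ⟨fun e => hux (h.trans e), u, hu, h⟩
  · rintro ⟨hz, u, hu, h⟩
    refine ⟨u, hu, ?_⟩
    rw [if_neg (fun e => hz (h.symm.trans e)), h]

theorem card_image_mrg {V : Type} [DecidableEq V] (φ : V → V) (U : Finset V) (x y : V)
    (hx : x ∈ U.image φ) (hy : y ∈ U.image φ) (hxy : x ≠ y) :
    (U.image (mrg φ x y)).card + 1 = (U.image φ).card := by
  rw [image_mrg_erase φ U x y hy hxy, Finset.card_erase_add_one hx]

theorem card_image_mrg_le {V : Type} [DecidableEq V] (φ : V → V) (U : Finset V) (x y : V) :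
    (U.image (mrg φ x y)).card ≤ (U.image φ).card := by
  have : U.image (mrg φ x y) = (U.image φ).image (fun z => if z = x then y else z) := by
    rw [Finset.image_image]
    rfl
  rw [this]
  exact Finset.card_image_le

theorem kap_mrg {V : Type} [Fintype V] [DecidableEq V] (φ : V → V) (u v : V) (h : φ u ≠ φ v) :
    kap (mrg φ (φ u) (φ v)) + 1 = kap φ :=
  card_image_mrg φ Finset.univ _ _ (Finset.mem_image_of_mem _ (Finset.mem_univ _))
    (Finset.mem_image_of_mem _ (Finset.mem_univ _)) h

theorem num_nil {V E : Type} [Fintype V] [DecidableEq V] (a b : E → V) (φ : V → V) (k : ℕ) :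
    num a b [] φ k = k ^ kap φ := by
  have e : {c : V → Fin k // (∀ u v, φ u = φ v → c u = c v) ∧ ∀ e ∈ ([] : List E), c (a e) ≠ c (b e)}
      ≃ (Set.range φ → Fin k) :=
    { toFun := fun c x => c.1 (Classical.choose x.2)
      invFun := fun d => ⟨fun v => d ⟨φ v, v, rfl⟩,
        fun u v h => by
          have : (⟨φ u, u, rfl⟩ : Set.range φ) = ⟨φ v, v, rfl⟩ := Subtype.ext h
          simp only [this], fun e he => absurd he List.not_mem_nil⟩
      left_inv := by
        intro c
        apply Subtype.ext
        funext v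
        exact c.2.1 _ _ (Classical.choose_spec (⟨φ v, v, rfl⟩ : Set.range φ).2)
      right_inv := by
        intro d
        funext x
        have : (⟨φ (Classical.choose x.2), Classical.choose x.2, rfl⟩ : Set.range φ) = x :=
          Subtype.ext (Classical.choose_spec x.2)
        simp only [this] }
  unfold num kap
  rw [Nat.card_congr e, Nat.card_fun, Nat.card_fin, Nat.card_coe_set_eq, ← Set.ncard_coe_finset]
  simp

theorem num_eq_sum {V E : Type} [Fintype V] [DecidableEq V] (a b : E → V) (l : List E)
    (φ : V → V) (k : ℕ) : (num a b l φ k : ℤ) = ∑ c : V → Fin k,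
      ind ((∀ u v, φ u = φ v → c u = c v) ∧ ∀ e ∈ l, c (a e) ≠ c (b e)) := by
  classical
  unfold num
  rw [Nat.card_eq_fintype_card, Fintype.card_subtype, Finset.card_filter]
  push_cast
  apply Finset.sum_congr rfl
  intro c _
  unfold ind
  split_ifs <;> rfl

theorem num_zero {V E : Type} [Fintype V] [DecidableEq V] (a b : E → V) (e : E) (l : List E)
    (φ : V → V) (k : ℕ) (h : φ (a e) = φ (b e)) : num a b (e :: l) φ k = 0 := by
  have : (num a b (e :: l) φ k : ℤ) = 0 := by
    rw [num_eq_sum]
    apply Finset.sum_eq_zero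
    intro c _
    unfold ind
    rw [if_neg]
    rintro ⟨h1, h2⟩
    exact h2 e List.mem_cons_self (h1 _ _ h)
  exact_mod_cast this

theorem num_cons {V E : Type} [Fintype V] [DecidableEq V] (a b : E → V) (e : E) (l : List E)
    (φ : V → V) (k : ℕ) :
    (num a b (e :: l) φ k : ℤ) = num a b l φ k - num a b l (mrg φ (φ (a e)) (φ (b e))) k := by
  rw [num_eq_sum, num_eq_sum, num_eq_sum, ← Finset.sum_sub_distrib]
  apply Finset.sum_congr rfl
  intro c _
  have h1 : (∀ u v, mrg φ (φ (a e)) (φ (b e)) u = mrg φ (φ (a e)) (φ (b e)) v → c u = c v)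
      ↔ (∀ u v, φ u = φ v → c u = c v) ∧ c (a e) = c (b e) := by
    constructor
    · intro h
      refine ⟨fun u v huv => h u v ?_, h _ _ ?_⟩
      · unfold mrg; rw [huv]
      · unfold mrg
        rw [if_pos rfl]
        split_ifs <;> rfl
    · rintro ⟨h2, h3⟩ u v huv
      unfold mrg at huv
      split_ifs at huv with hu hv hv
      · rw [h2 u (a e) hu, h2 v (a e) hv]
      · rw [h2 u (a e) hu, h3, h2 (b e) v huv]
      · rw [h2 v (a e) hv, h3, h2 u (b e) huv]
      · exact h2 u v huv
  rw [ind_congr (and_congr_left' h1)]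
  by_cases hA : ∀ u v, φ u = φ v → c u = c v
  · by_cases hB : ∀ e' ∈ l, c (a e') ≠ c (b e')
    · by_cases hC : c (a e) = c (b e)
      · have e1 : ind ((∀ u v, φ u = φ v → c u = c v) ∧ ∀ e' ∈ e :: l, c (a e') ≠ c (b e')) = 0 := by
          unfold ind
          rw [if_neg]
          rintro ⟨_, h⟩
          exact h e List.mem_cons_self hC
        have e2 : ind ((∀ u v, φ u = φ v → c u = c v) ∧ ∀ e' ∈ l, c (a e') ≠ c (b e')) = 1 := by
          unfold ind
          rw [if_pos ⟨hA, hB⟩]
        have e3 : ind (((∀ u v, φ u = φ v → c u = c v) ∧ c (a e) = c (b e)) ∧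
            ∀ e' ∈ l, c (a e') ≠ c (b e')) = 1 := by
          unfold ind
          rw [if_pos ⟨⟨hA, hC⟩, hB⟩]
        rw [e1, e2, e3]
        norm_num
      · have e1 : ind ((∀ u v, φ u = φ v → c u = c v) ∧ ∀ e' ∈ e :: l, c (a e') ≠ c (b e')) = 1 := by
          unfold ind
          rw [if_pos]
          refine ⟨hA, fun e' he' => ?_⟩
          rcases List.mem_cons.1 he' with h | h
          · rw [h]; exact hC
          · exact hB e' h
        have e2 : ind ((∀ u v, φ u = φ v → c u = c v) ∧ ∀ e' ∈ l, c (a e') ≠ c (b e')) = 1 := by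
          unfold ind
          rw [if_pos ⟨hA, hB⟩]
        have e3 : ind (((∀ u v, φ u = φ v → c u = c v) ∧ c (a e) = c (b e)) ∧
            ∀ e' ∈ l, c (a e') ≠ c (b e')) = 0 := by
          unfold ind
          rw [if_neg]
          rintro ⟨⟨_, h⟩, _⟩
          exact hC h
        rw [e1, e2, e3]
        norm_num
    · have e1 : ind ((∀ u v, φ u = φ v → c u = c v) ∧ ∀ e' ∈ e :: l, c (a e') ≠ c (b e')) = 0 := by
        unfold ind
        rw [if_neg]
        rintro ⟨_, h⟩
        exact hB fun e' he' => h e' (List.mem_cons_of_mem _ he')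
      have e2 : ind ((∀ u v, φ u = φ v → c u = c v) ∧ ∀ e' ∈ l, c (a e') ≠ c (b e')) = 0 := by
        unfold ind
        rw [if_neg]
        rintro ⟨_, h⟩
        exact hB h
      have e3 : ind (((∀ u v, φ u = φ v → c u = c v) ∧ c (a e) = c (b e)) ∧
          ∀ e' ∈ l, c (a e') ≠ c (b e')) = 0 := by
        unfold ind
        rw [if_neg]
        rintro ⟨_, h⟩
        exact hB h
      rw [e1, e2, e3]
      norm_num
  · have e1 : ind ((∀ u v, φ u = φ v → c u = c v) ∧ ∀ e' ∈ e :: l, c (a e') ≠ c (b e')) = 0 := by
      unfold ind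
      rw [if_neg]
      rintro ⟨h, _⟩
      exact hA h
    have e2 : ind ((∀ u v, φ u = φ v → c u = c v) ∧ ∀ e' ∈ l, c (a e') ≠ c (b e')) = 0 := by
      unfold ind
      rw [if_neg]
      rintro ⟨h, _⟩
      exact hA h
    have e3 : ind (((∀ u v, φ u = φ v → c u = c v) ∧ c (a e) = c (b e)) ∧
        ∀ e' ∈ l, c (a e') ≠ c (b e')) = 0 := by
      unfold ind
      rw [if_neg]
      rintro ⟨⟨h, _⟩, _⟩
      exact hA h
    rw [e1, e2, e3]
    norm_num

/-- the polynomial obtained by deleting and merging along the list -/
noncomputable def Q {V E : Type} [Fintype V] [DecidableEq V] (a b : E → V) :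
    List E → (V → V) → Polynomial ℤ
  | [], φ => Polynomial.X ^ kap φ
  | e :: l, φ => if φ (a e) = φ (b e) then 0
      else Q a b l φ - Q a b l (mrg φ (φ (a e)) (φ (b e)))

theorem Q_eval {V E : Type} [Fintype V] [DecidableEq V] (a b : E → V) (l : List E) (k : ℕ) :
    ∀ φ : V → V, (Q a b l φ).eval (k : ℤ) = num a b l φ k := by
  induction l with
  | nil =>
    intro φ
    rw [num_nil]
    simp [Q]
  | cons e l ih =>
    intro φ
    unfold Q
    split_ifs with h
    · rw [num_zero a b e l φ k h]
      simp
    · rw [Polynomial.eval_sub, ih, ih, num_cons]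

theorem Q_degree {V E : Type} [Fintype V] [DecidableEq V] (a b : E → V) (l : List E) :
    ∀ φ : V → V, (Q a b l φ).natDegree ≤ kap φ := by
  induction l with
  | nil =>
    intro φ
    unfold Q
    exact Polynomial.natDegree_X_pow_le _
  | cons e l ih =>
    intro φ
    unfold Q
    split_ifs with h
    · simp
    · refine (Polynomial.natDegree_sub_le _ _).trans (max_le (ih _) ((ih _).trans ?_))
      have := kap_mrg φ (a e) (b e) h
      omega

/-- the probability of never meeting an edge with merged ends -/
noncomputable def Pr {V E : Type} [DecidableEq V] (a b : E → V) (p : ℝ) :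
    List E → (V → V) → ℝ
  | [], _ => 1
  | e :: l, φ => if φ (a e) = φ (b e) then 0
      else (1 - p) * Pr a b p l φ + p * Pr a b p l (mrg φ (φ (a e)) (φ (b e)))

theorem Q_aeval {V E : Type} [Fintype V] [DecidableEq V] (a b : E → V) (l : List E) (p r : ℝ)
    (hpr : p * (1 + r) = 1) :
    ∀ φ : V → V, Polynomial.aeval (-r) (Q a b l φ) * (r * p) ^ l.length
      = (-r) ^ kap φ * Pr a b p l φ := by
  induction l with
  | nil =>
    intro φ
    unfold Q Pr
    simp
  | cons e l ih =>
    intro φ
    unfold Q Pr
    split_ifs with h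
    · simp
    · rw [map_sub, List.length_cons, pow_succ, ← mul_assoc, sub_mul, ih φ, ih, ← kap_mrg φ _ _ h]
      have : 1 - p = r * p := by linarith
      rw [this, pow_succ]
      ring

/-- the indicator of never meeting an edge with merged ends, for the set `S` of open edges -/
noncomputable def sv {V E : Type} [DecidableEq V] [DecidableEq E] (a b : E → V) :
    List E → (V → V) → Finset E → ℝ
  | [], _, _ => 1
  | e :: l, φ, S => if φ (a e) = φ (b e) then 0
      else sv a b l (if e ∈ S then mrg φ (φ (a e)) (φ (b e)) else φ) S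

/-- expectation for independent opening of the edges of a list -/
noncomputable def Ex {E : Type} [DecidableEq E] (p : ℝ) : List E → (Finset E → ℝ) → ℝ
  | [], h => h ∅
  | e :: l, h => (1 - p) * Ex p l h + p * Ex p l (fun S => h (insert e S))

theorem Ex_congr {E : Type} [DecidableEq E] (p : ℝ) (l : List E) :
    ∀ h h' : Finset E → ℝ, (∀ S : Finset E, S ⊆ l.toFinset → h S = h' S) →
      Ex p l h = Ex p l h' := by
  induction l with
  | nil =>
    intro h h' H
    unfold Ex
    exact H ∅ (Finset.empty_subset _)
  | cons e l ih =>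
    intro h h' H
    unfold Ex
    rw [ih h h' (fun S hS => H S (hS.trans (by simp [Finset.subset_iff]; tauto))),
      ih (fun S => h (insert e S)) (fun S => h' (insert e S)) (fun S hS => H _ (by
        rw [List.toFinset_cons]
        exact Finset.insert_subset_insert _ hS))]

theorem sv_insert {V E : Type} [DecidableEq V] [DecidableEq E] (a b : E → V) (e : E)
    (S : Finset E) (l : List E) : ∀ φ : V → V, e ∉ l → sv a b l φ (insert e S) = sv a b l φ S := by
  induction l with
  | nil => intro φ _; rfl
  | cons e' l ih =>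
    intro φ he
    have h1 : e ≠ e' := fun h => he (h ▸ List.mem_cons_self)
    have h2 : e ∉ l := fun h => he (List.mem_cons_of_mem _ h)
    unfold sv
    rw [ih _ h2]
    have : (e' ∈ insert e S) ↔ e' ∈ S := by simp [h1.symm]
    simp only [this]

theorem Pr_eq {V E : Type} [DecidableEq V] [DecidableEq E] (a b : E → V) (p : ℝ) (l : List E) :
    ∀ φ : V → V, l.Nodup → Pr a b p l φ = Ex p l (sv a b l φ) := by
  induction l with
  | nil => intro φ _; rfl
  | cons e l ih =>
    intro φ hl
    rw [List.nodup_cons] at hl
    unfold Pr Ex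
    have h1 : Ex p l (sv a b (e :: l) φ)
        = Ex p l (fun S => if φ (a e) = φ (b e) then 0 else sv a b l φ S) := by
      apply Ex_congr
      intro S hS
      have : e ∉ S := fun h => hl.1 (List.mem_toFinset.1 (hS h))
      rw [sv, if_neg this]
    have h2 : Ex p l (fun S => sv a b (e :: l) φ (insert e S))
        = Ex p l (fun S => if φ (a e) = φ (b e) then 0
          else sv a b l (mrg φ (φ (a e)) (φ (b e))) S) := by
      apply Ex_congr
      intro S hS
      rw [sv, if_pos (Finset.mem_insert_self _ _), sv_insert a b e S l _ hl.1]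
    rw [h1, h2]
    split_ifs with h
    · have : ∀ l' : List E, Ex p l' (fun _ => (0 : ℝ)) = 0 := by
        intro l'
        induction l' with
        | nil => rfl
        | cons e' l' ih' => unfold Ex; rw [ih']; ring
      rw [this]
      ring
    · rw [ih _ hl.2, ih _ hl.2]

theorem sv_or {V E : Type} [DecidableEq V] [DecidableEq E] (a b : E → V) (S : Finset E)
    (l : List E) : ∀ φ : V → V, sv a b l φ S = 0 ∨ sv a b l φ S = 1 := by
  induction l with
  | nil => intro φ; right; rfl
  | cons e l ih =>
    intro φ
    unfold sv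
    split_ifs
    · left; rfl
    · exact ih _
    · exact ih _

/-- surviving sets of open edges are sparse -/
theorem sv_sparse {V E : Type} [DecidableEq V] [DecidableEq E] (a b : E → V) (S : Finset E)
    (U : Finset V) (l : List E) : ∀ φ : V → V, l.Nodup → sv a b l φ S = 1 →
      (l.toFinset.filter (fun e => e ∈ S ∧ a e ∈ U ∧ b e ∈ U)).card ≤ (U.image φ).card := by
  induction l with
  | nil => intro φ _ _; simp
  | cons e l ih =>
    intro φ hl h
    rw [List.nodup_cons] at hl
    unfold sv at h
    split_ifs at h with h1 h2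
    · norm_num at h
    · have h3 := ih _ hl.2 h
      rw [List.toFinset_cons, Finset.filter_insert]
      split_ifs with h4
      · have h5 := card_image_mrg φ U (φ (a e)) (φ (b e)) (Finset.mem_image_of_mem _ h4.2.1)
          (Finset.mem_image_of_mem _ h4.2.2) h1
        refine (Finset.card_insert_le _ _).trans ?_
        omega
      · exact h3.trans (card_image_mrg_le _ _ _ _)
    · have h3 := ih _ hl.2 h
      rw [List.toFinset_cons, Finset.filter_insert, if_neg (fun h4 => h2 h4.1)]
      exact h3

end Pool.Agent.H.MP_25a9e0_co
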