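import Pool.Agent.H.MP_25a9e0_co.Merge

/-!
Expectation for independent edges: linearity, independence, positive correlation of decreasing
functions and an exponential moment bound for functions with bounded differences.
-/

namespace Pool.Agent.H.MP_25a9e0_co

open Finset

variable {E : Type} [DecidableEq E]

theorem Ex_const (p : ℝ) (c : ℝ) (l : List E) : Ex p l (fun _ => c) = c := by
  induction l with
  | nil => rfl
  | cons e l ih => unfold Ex; rw [ih]; ring

theorem Ex_add (p : ℝ) (l : List E) : ∀ f g : Finset E → ℝ,
    Ex p l (fun S => f S + g S) = Ex p l f + Ex p l g := by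
  induction l with
  | nil => intro f g; rfl
  | cons e l ih =>
    intro f g
    unfold Ex
    rw [ih f g, ih (fun S => f (insert e S)) (fun S => g (insert e S))]
    ring

theorem Ex_smul (p c : ℝ) (l : List E) : ∀ f : Finset E → ℝ,
    Ex p l (fun S => c * f S) = c * Ex p l f := by
  induction l with
  | nil => intro f; rfl
  | cons e l ih =>
    intro f
    unfold Ex
    rw [ih f, ih (fun S => f (insert e S))]
    ring

theorem Ex_sub (p : ℝ) (l : List E) (f g : Finset E → ℝ) :
    Ex p l (fun S => f S - g S) = Ex p l f - Ex p l g := by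
  have h := Ex_add p l f (fun S => (-1) * g S)
  rw [Ex_smul] at h
  have h2 : (fun S => f S - g S) = (fun S => f S + (-1) * g S) := by
    funext S; ring
  rw [h2, h]
  ring

theorem Ex_sum {ι : Type} (p : ℝ) (l : List E) (s : Finset ι) (f : ι → Finset E → ℝ) :
    Ex p l (fun S => ∑ i ∈ s, f i S) = ∑ i ∈ s, Ex p l (f i) := by
  classical
  induction s using Finset.induction_on with
  | empty => simp [Ex_const]
  | insert i s hi ih =>
    rw [Finset.sum_insert hi, ← ih, ← Ex_add]
    congr 1
    funext S
    rw [Finset.sum_insert hi]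

theorem Ex_mono (p : ℝ) (hp0 : 0 ≤ p) (hp1 : p ≤ 1) (l : List E) : ∀ f g : Finset E → ℝ,
    (∀ S, f S ≤ g S) → Ex p l f ≤ Ex p l g := by
  induction l with
  | nil => intro f g h; exact h ∅
  | cons e l ih =>
    intro f g h
    unfold Ex
    have h1 := ih f g h
    have h2 := ih (fun S => f (insert e S)) (fun S => g (insert e S)) (fun S => h _)
    have h3 : 0 ≤ 1 - p := by linarith
    nlinarith [mul_le_mul_of_nonneg_left h1 h3, mul_le_mul_of_nonneg_left h2 hp0]

/-- the function only looks at the edges in `A` -/
def Dep (A : Finset E) (f : Finset E → ℝ) : Prop := ∀ e, e ∉ A → ∀ S, f (insert e S) = f S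

theorem Dep.mono {A B : Finset E} {f : Finset E → ℝ} (h : Dep A f) (hAB : A ⊆ B) : Dep B f :=
  fun e he S => h e (fun h' => he (hAB h')) S

theorem Dep.mul {A : Finset E} {f g : Finset E → ℝ} (hf : Dep A f) (hg : Dep A g) :
    Dep A (fun S => f S * g S) := by
  intro e he S
  simp only [hf e he S, hg e he S]

theorem Ex_indep' (p : ℝ) (l : List E) : ∀ f g : Finset E → ℝ,
    (∀ e ∈ l, (∀ S, f (insert e S) = f S) ∨ ∀ S, g (insert e S) = g S) →
    Ex p l (fun S => f S * g S) = Ex p l f * Ex p l g := by
  induction l with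
  | nil => intro f g _; rfl
  | cons e l ih =>
    intro f g h
    unfold Ex
    have h0 := ih f g (fun e' he' => h e' (List.mem_cons_of_mem _ he'))
    rcases h e List.mem_cons_self with h1 | h1
    · have h2 : (fun S => f (insert e S)) = f := funext h1
      have h3 : (fun S => f (insert e S) * g (insert e S)) = fun S => f S * g (insert e S) := by
        funext S; rw [h1]
      rw [h2, h3, h0, ih f (fun S => g (insert e S))]
      · ring
      · intro e' he'
        rcases h e' (List.mem_cons_of_mem _ he') with h4 | h4
        · left; exact h4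
        · right
          intro S
          rw [Finset.insert_comm, h4]
    · have h2 : (fun S => g (insert e S)) = g := funext h1
      have h3 : (fun S => f (insert e S) * g (insert e S)) = fun S => f (insert e S) * g S := by
        funext S; rw [h1]
      rw [h2, h3, h0, ih (fun S => f (insert e S)) g]
      · ring
      · intro e' he'
        rcases h e' (List.mem_cons_of_mem _ he') with h4 | h4
        · left
          intro S
          rw [Finset.insert_comm, h4]
        · right; exact h4

theorem Ex_indep (p : ℝ) (l : List E) (f g : Finset E → ℝ) (A B : Finset E) (hf : Dep A f)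
    (hg : Dep B g) (hAB : Disjoint A B) :
    Ex p l (fun S => f S * g S) = Ex p l f * Ex p l g := by
  apply Ex_indep'
  intro e _
  by_cases he : e ∈ A
  · right
    exact hg e (Finset.disjoint_left.1 hAB he)
  · left
    exact hf e he

theorem Ex_open (p : ℝ) (e : E) (l : List E) (hl : l.Nodup) (he : e ∈ l) :
    Ex p l (fun S => if e ∈ S then (1 : ℝ) else 0) = p := by
  induction l with
  | nil => exact absurd he List.not_mem_nil
  | cons e' l ih =>
    rw [List.nodup_cons] at hl
    unfold Ex
    by_cases h : e = e'
    · subst h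
      have h1 : Ex p l (fun S => if e ∈ S then (1 : ℝ) else 0) = Ex p l (fun _ => 0) := by
        apply Ex_congr
        intro S hS
        rw [if_neg]
        intro h2
        exact hl.1 (List.mem_toFinset.1 (hS h2))
      have h2 : (fun S : Finset E => if e ∈ insert e S then (1 : ℝ) else 0) = fun _ => 1 := by
        funext S
        rw [if_pos (Finset.mem_insert_self _ _)]
      rw [h1, h2, Ex_const, Ex_const]
      ring
    · have h3 : e ∈ l := by
        rcases List.mem_cons.1 he with h4 | h4
        · exact absurd h4 h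
        · exact h4
      have h2 : (fun S : Finset E => if e ∈ insert e' S then (1 : ℝ) else 0)
          = fun S => if e ∈ S then 1 else 0 := by
        funext S
        have : (e ∈ insert e' S) ↔ e ∈ S := by simp [h]
        simp only [this]
      rw [h2, ih hl.2 h3]
      ring

theorem Ex_harris (p : ℝ) (hp0 : 0 ≤ p) (hp1 : p ≤ 1) (l : List E) : ∀ f g : Finset E → ℝ,
    Antitone f → Antitone g → Ex p l f * Ex p l g ≤ Ex p l (fun S => f S * g S) := by
  induction l with
  | nil => intro f g _ _; exact le_refl _
  | cons e l ih =>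
    intro f g hf hg
    unfold Ex
    have hf' : Antitone (fun S => f (insert e S)) := fun S T h => hf (Finset.insert_subset_insert e h)
    have hg' : Antitone (fun S => g (insert e S)) := fun S T h => hg (Finset.insert_subset_insert e h)
    have h1 := ih f g hf hg
    have h2 := ih _ _ hf' hg'
    have h3 : Ex p l (fun S => f (insert e S)) ≤ Ex p l f :=
      Ex_mono p hp0 hp1 l _ _ (fun S => hf (Finset.subset_insert e S))
    have h4 : Ex p l (fun S => g (insert e S)) ≤ Ex p l g :=
      Ex_mono p hp0 hp1 l _ _ (fun S => hg (Finset.subset_insert e S))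
    generalize Ex p l f = a at *
    generalize Ex p l g = b at *
    generalize Ex p l (fun S => f (insert e S)) = a' at *
    generalize Ex p l (fun S => g (insert e S)) = b' at *
    have h5 : 0 ≤ 1 - p := by linarith
    have h6 := mul_le_mul_of_nonneg_left h1 h5
    have h7 := mul_le_mul_of_nonneg_left h2 hp0
    have h8 : 0 ≤ (p * (1 - p)) * ((a - a') * (b - b')) :=
      mul_nonneg (mul_nonneg hp0 h5) (mul_nonneg (by linarith) (by linarith))
    nlinarith

theorem two_point (p c α β : ℝ) (hp0 : 0 ≤ p) (hp1 : p ≤ 1) (hc : c ≤ 1) (h : |β - α| ≤ c) :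
    (1 - p) * Real.exp α + p * Real.exp β ≤ Real.exp ((1 - p) * α + p * β + c ^ 2) := by
  have hc0 : 0 ≤ c := (abs_nonneg _).trans h
  set m := (1 - p) * α + p * β with hm
  have e1 : α = m + p * (α - β) := by rw [hm]; ring
  have e2 : β = m + (1 - p) * (β - α) := by rw [hm]; ring
  have hab : |α - β| ≤ c := by rw [abs_sub_comm]; exact h
  have hx : |p * (α - β)| ≤ c := by
    rw [abs_mul, abs_of_nonneg hp0]
    nlinarith [abs_nonneg (α - β)]
  have hy : |(1 - p) * (β - α)| ≤ c := by
    rw [abs_mul, abs_of_nonneg (by linarith : (0 : ℝ) ≤ 1 - p)]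
    nlinarith [abs_nonneg (β - α)]
  have k1 := Real.abs_exp_sub_one_sub_id_le (hx.trans hc)
  have k2 := Real.abs_exp_sub_one_sub_id_le (hy.trans hc)
  have k3 := (abs_le.1 k1).2
  have k4 := (abs_le.1 k2).2
  have h5 : 0 ≤ 1 - p := by linarith
  have hsq : (α - β) ^ 2 ≤ c ^ 2 := by
    rw [← sq_abs]
    exact pow_le_pow_left₀ (abs_nonneg _) hab 2
  have key : (1 - p) * Real.exp (p * (α - β)) + p * Real.exp ((1 - p) * (β - α)) ≤ 1 + c ^ 2 := by
    have h6 := mul_le_mul_of_nonneg_left k3 h5
    have h7 := mul_le_mul_of_nonneg_left k4 hp0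
    have h8 : (1 - p) * ((p * (α - β)) ^ 2) + p * (((1 - p) * (β - α)) ^ 2)
        = (p * (1 - p)) * (α - β) ^ 2 := by ring
    have h9 : (p * (1 - p)) * (α - β) ^ 2 ≤ c ^ 2 := by
      have h10 : p * (1 - p) ≤ 1 := by nlinarith
      have h11 : 0 ≤ p * (1 - p) := mul_nonneg hp0 h5
      nlinarith [sq_nonneg (α - β)]
    nlinarith
  have h12 : 1 + c ^ 2 ≤ Real.exp (c ^ 2) := by
    have := Real.add_one_le_exp (c ^ 2)
    linarith
  clear_value m
  have g1 : Real.exp α = Real.exp m * Real.exp (p * (α - β)) := by
    rw [← Real.exp_add, ← e1]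
  have g2 : Real.exp β = Real.exp m * Real.exp ((1 - p) * (β - α)) := by
    rw [← Real.exp_add, ← e2]
  calc (1 - p) * Real.exp α + p * Real.exp β
      = Real.exp m * ((1 - p) * Real.exp (p * (α - β)) + p * Real.exp ((1 - p) * (β - α))) := by
        rw [g1, g2]
        ring
    _ ≤ Real.exp m * Real.exp (c ^ 2) :=
        mul_le_mul_of_nonneg_left (key.trans h12) (Real.exp_nonneg _)
    _ = Real.exp (m + c ^ 2) := by rw [Real.exp_add]

theorem Ex_exp (p c : ℝ) (hp0 : 0 ≤ p) (hp1 : p ≤ 1) (hc : c ≤ 1) (l : List E) :
    ∀ f : Finset E → ℝ, (∀ e S, |f (insert e S) - f S| ≤ c) →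
      Ex p l (fun S => Real.exp (f S)) ≤ Real.exp (Ex p l f + c ^ 2 * l.length) := by
  induction l with
  | nil =>
    intro f _
    unfold Ex
    simp
  | cons e l ih =>
    intro f hf
    unfold Ex
    have h1 := ih f hf
    have h2 := ih (fun S => f (insert e S)) (fun e' S => by
      simp only [Finset.insert_comm e e' S]
      exact hf e' (insert e S))
    have h3 : |Ex p l (fun S => f (insert e S)) - Ex p l f| ≤ c := by
      rw [← Ex_sub, abs_le]
      constructor
      · have := Ex_mono p hp0 hp1 l (fun _ => -c) (fun S => f (insert e S) - f S)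
          (fun S => (abs_le.1 (hf e S)).1)
        rwa [Ex_const] at this
      · have := Ex_mono p hp0 hp1 l (fun S => f (insert e S) - f S) (fun _ => c)
          (fun S => (abs_le.1 (hf e S)).2)
        rwa [Ex_const] at this
    have h4 := two_point p c _ _ hp0 hp1 hc h3
    have h5 : 0 ≤ 1 - p := by linarith
    calc (1 - p) * Ex p l (fun S => Real.exp (f S))
          + p * Ex p l (fun S => Real.exp (f (insert e S)))
        ≤ (1 - p) * Real.exp (Ex p l f + c ^ 2 * l.length)
          + p * Real.exp (Ex p l (fun S => f (insert e S)) + c ^ 2 * l.length) :=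
          add_le_add (mul_le_mul_of_nonneg_left h1 h5) (mul_le_mul_of_nonneg_left h2 hp0)
      _ = ((1 - p) * Real.exp (Ex p l f) + p * Real.exp (Ex p l (fun S => f (insert e S))))
          * Real.exp (c ^ 2 * l.length) := by
          rw [Real.exp_add, Real.exp_add]; ring
      _ ≤ Real.exp ((1 - p) * Ex p l f + p * Ex p l (fun S => f (insert e S)) + c ^ 2)
          * Real.exp (c ^ 2 * l.length) :=
          mul_le_mul_of_nonneg_right h4 (Real.exp_nonneg _)
      _ = Real.exp ((1 - p) * Ex p l f + p * Ex p l (fun S => f (insert e S))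
          + c ^ 2 * (e :: l).length) := by
          rw [← Real.exp_add, List.length_cons]
          push_cast
          ring_nf

/-- a product of nonincreasing nonnegative functions is nonincreasing and the expectations
multiply to a lower bound -/
theorem Ex_harris_prod {ι : Type} (p : ℝ) (hp0 : 0 ≤ p) (hp1 : p ≤ 1) (l : List E)
    (s : Finset ι) (f : ι → Finset E → ℝ) (hf : ∀ i, Antitone (f i)) (hf0 : ∀ i S, 0 ≤ f i S)
    (c : ℝ) (hc : 0 ≤ c) (hfc : ∀ i, c ≤ Ex p l (f i)) :
    c ^ s.card ≤ Ex p l (fun S => ∏ i ∈ s, f i S) := by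
  classical
  have hanti : ∀ s : Finset ι, Antitone (fun S => ∏ i ∈ s, f i S) := by
    intro s S T hST
    exact Finset.prod_le_prod (fun i _ => hf0 i T) (fun i _ => hf i hST)
  induction s using Finset.induction_on with
  | empty => simp [Ex_const]
  | insert i s hi ih =>
    rw [Finset.card_insert_of_notMem hi, pow_succ]
    have h1 := Ex_harris p hp0 hp1 l (fun S => ∏ i ∈ s, f i S) (f i) (hanti s) (hf i)
    have h2 : (fun S => ∏ i' ∈ insert i s, f i' S) = fun S => (∏ i' ∈ s, f i' S) * f i S := by
      funext S
      rw [Finset.prod_insert hi, mul_comm]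
    rw [h2]
    refine le_trans ?_ h1
    apply mul_le_mul ih (hfc i) hc
    exact (pow_nonneg hc _).trans ih

end Pool.Agent.H.MP_25a9e0_co
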