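import Pool.Agent.H.MP_25a9e0_co.Perc

/-!
Finite cubic graphs given by three involutions, open non backtracking walks and the events that
such walks of a given length exist.
-/

namespace Pool.Agent.H.MP_25a9e0_co

open Finset

/-- a cubic graph whose edges carry three directions -/
structure Cub (V E : Type) where
  nx : V → Fin 3 → V
  ed : V → Fin 3 → E
  st : E → V
  dr : E → Fin 3
  nx_nx : ∀ v i, nx (nx v i) i = v
  ed_nx : ∀ v i, ed (nx v i) i = ed v i
  ed_eq : ∀ v u i j, ed v i = ed u j → i = j ∧ (v = u ∨ v = nx u j)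
  ed_st : ∀ e, ed (st e) (dr e) = e

/-- reduced words -/
def Red : List (Fin 3) → Prop
  | [] => True
  | i :: w => w.head? ≠ some i ∧ Red w

theorem Red_append (w u : List (Fin 3)) : Red (w ++ u) → Red w ∧ Red u := by
  induction w with
  | nil => intro h; exact ⟨trivial, h⟩
  | cons i w ih =>
    intro h
    rw [List.cons_append] at h
    obtain ⟨h1, h2⟩ := h
    refine ⟨⟨?_, (ih h2).1⟩, (ih h2).2⟩
    intro h3
    apply h1
    cases w with
    | nil => simp at h3
    | cons j w => simpa using h3

set_option linter.unusedSectionVars false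
set_option linter.unnecessarySeqFocus false

section
variable {V E : Type} [DecidableEq V] [DecidableEq E] (C : Cub V E)

/-- end of a walk -/
def fn : V → List (Fin 3) → V
  | v, [] => v
  | v, i :: w => fn (C.nx v i) w

theorem fn_append (w u : List (Fin 3)) : ∀ v, fn C v (w ++ u) = fn C (fn C v w) u := by
  induction w with
  | nil => intro v; rfl
  | cons i w ih => intro v; exact ih _

/-- open walks -/
def Opn (O : Finset E) : V → List (Fin 3) → Prop
  | _, [] => True
  | v, i :: w => C.ed v i ∈ O ∧ Opn O (C.nx v i) w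

/-- no two short reduced walks from the same vertex have the same end -/
def Gir (L : ℕ) : Prop := ∀ v w u, Red w → Red u → w.length ≤ L → u.length ≤ L →
  fn C v w = fn C v u → w = u

/-- reachable by an open reduced walk -/
def Rel (O : Finset E) (u v : V) : Prop := ∃ w, Red w ∧ Opn C O u w ∧ fn C u w = v

theorem Rel_refl (O : Finset E) (u : V) : Rel C O u u := ⟨[], trivial, trivial, rfl⟩

theorem Rel_cons (O : Finset E) (u v : V) (j : Fin 3) (hj : C.ed u j ∈ O)
    (h : Rel C O (C.nx u j) v) : Rel C O u v := by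
  obtain ⟨w, h1, h2, h3⟩ := h
  by_cases hw : w.head? = some j
  · cases w with
    | nil => simp at hw
    | cons i w =>
      have : i = j := by simpa using hw
      subst this
      refine ⟨w, h1.2, ?_, ?_⟩
      · have := h2.2
        rwa [C.nx_nx] at this
      · have h4 : fn C (C.nx (C.nx u i) i) w = v := h3
        rwa [C.nx_nx] at h4
  · exact ⟨j :: w, ⟨hw, h1⟩, ⟨hj, h2⟩, h3⟩

theorem Rel_trans_aux (O : Finset E) (w : List (Fin 3)) : ∀ u v z, Opn C O u w → fn C u w = v →
    Rel C O v z → Rel C O u z := by
  induction w with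
  | nil => intro u v z _ h2 h3; have : u = v := h2; rwa [this]
  | cons i w ih =>
    intro u v z h1 h2 h3
    exact Rel_cons C O u z i h1.1 (ih _ v z h1.2 h2 h3)

theorem Rel_trans (O : Finset E) (u v z : V) (h1 : Rel C O u v) (h2 : Rel C O v z) :
    Rel C O u z := by
  obtain ⟨w, _, h4, h5⟩ := h1
  exact Rel_trans_aux C O w u v z h4 h5 h2

theorem Rel_edge (O : Finset E) (u : V) (j : Fin 3) (hj : C.ed u j ∈ O) :
    Rel C O u (C.nx u j) :=
  Rel_cons C O u _ j hj (Rel_refl C O _)

theorem Rel_symm_aux (O : Finset E) (w : List (Fin 3)) : ∀ u v, Opn C O u w → fn C u w = v →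
    Rel C O v u := by
  induction w with
  | nil => intro u v _ h2; have : u = v := h2; rw [this]; exact Rel_refl C O _
  | cons i w ih =>
    intro u v h1 h2
    refine Rel_trans C O _ _ _ (ih _ v h1.2 h2) ?_
    have := Rel_edge C O (C.nx u i) i (by rw [C.ed_nx]; exact h1.1)
    rwa [C.nx_nx] at this

theorem Rel_symm (O : Finset E) (u v : V) (h : Rel C O u v) : Rel C O v u := by
  obtain ⟨w, _, h4, h5⟩ := h
  exact Rel_symm_aux C O w u v h4 h5

theorem Opn_mono {O O' : Finset E} (hO : O ⊆ O') (w : List (Fin 3)) : ∀ u, Opn C O u w →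
    Opn C O' u w := by
  induction w with
  | nil => intro u _; trivial
  | cons i w ih => intro u h; exact ⟨hO h.1, ih _ h.2⟩

theorem Rel_mono {O O' : Finset E} (hO : O ⊆ O') (u v : V) (h : Rel C O u v) : Rel C O' u v := by
  obtain ⟨w, h1, h2, h3⟩ := h
  exact ⟨w, h1, Opn_mono C hO w u h2, h3⟩

/-- when the process dies there is an edge whose ends are joined by earlier open edges -/
theorem died (S : Finset E) (l : List E) : ∀ (φ : V → V) (O : Finset E),
    (∀ u v, φ u = φ v → Rel C O u v) → (∀ e ∈ l, e ∉ O) → l.Nodup → O ⊆ S →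
    sv C.st (fun e => C.nx (C.st e) (C.dr e)) l φ S ≠ 1 →
    ∃ e O', e ∉ O' ∧ O' ⊆ S ∧ Rel C O' (C.st e) (C.nx (C.st e) (C.dr e)) := by
  induction l with
  | nil => intro φ O _ _ _ _ h; exact absurd rfl h
  | cons e l ih =>
    intro φ O hφ hO hl hS h
    rw [List.nodup_cons] at hl
    unfold sv at h
    split_ifs at h with h1 h2
    · exact ⟨e, O, hO e List.mem_cons_self, hS, hφ _ _ h1⟩
    · apply ih _ (insert e O) _ _ hl.2 _ h
      · have hsub : O ⊆ insert e O := Finset.subset_insert e O
        have hab : Rel C (insert e O) (C.st e) (C.nx (C.st e) (C.dr e)) := by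
          apply Rel_edge
          rw [C.ed_st]
          exact Finset.mem_insert_self _ _
        intro u v huv
        unfold mrg at huv
        split_ifs at huv with hu hv hv
        · exact Rel_trans C _ _ _ _ (Rel_mono C hsub _ _ (hφ _ _ hu))
            (Rel_symm C _ _ _ (Rel_mono C hsub _ _ (hφ _ _ hv)))
        · exact Rel_trans C _ _ _ _ (Rel_mono C hsub _ _ (hφ _ _ hu))
            (Rel_trans C _ _ _ _ hab (Rel_mono C hsub _ _ (hφ _ _ huv)))
        · exact Rel_trans C _ _ _ _ (Rel_mono C hsub _ _ (hφ _ _ huv))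
            (Rel_trans C _ _ _ _ (Rel_symm C _ _ _ hab)
              (Rel_symm C _ _ _ (Rel_mono C hsub _ _ (hφ _ _ hv))))
        · exact Rel_mono C hsub _ _ (hφ _ _ huv)
      · intro e' he' h3
        rcases Finset.mem_insert.1 h3 with h4 | h4
        · exact hl.1 (h4 ▸ he')
        · exact hO e' (List.mem_cons_of_mem _ he') h4
      · exact Finset.insert_subset h2 hS
    · exact ih _ O hφ (fun e' he' => hO e' (List.mem_cons_of_mem _ he')) hl.2 hS h

/-- existence of an open non backtracking walk of length `k` that does not start with `i` -/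
noncomputable def X : ℕ → V → Fin 3 → Finset E → ℝ
  | 0, _, _, _ => 1
  | k + 1, v, i, S => 1 -
      (1 - (if C.ed v (i + 1) ∈ S then 1 else 0) * X k (C.nx v (i + 1)) (i + 1) S) *
      (1 - (if C.ed v (i + 2) ∈ S then 1 else 0) * X k (C.nx v (i + 2)) (i + 2) S)

/-- existence of an open non backtracking walk of length `k + 1` that starts with `j` -/
noncomputable def Y (k : ℕ) (v : V) (j : Fin 3) (S : Finset E) : ℝ :=
  (if C.ed v j ∈ S then 1 else 0) * X C k (C.nx v j) j S

theorem X_succ (k : ℕ) (v : V) (i : Fin 3) (S : Finset E) :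
    X C (k + 1) v i S = 1 - (1 - Y C k v (i + 1) S) * (1 - Y C k v (i + 2) S) := rfl

theorem X_or (k : ℕ) : ∀ v i (S : Finset E), X C k v i S = 0 ∨ X C k v i S = 1 := by
  induction k with
  | zero => intro v i S; right; rfl
  | succ k ih =>
    intro v i S
    have hY : ∀ j, Y C k v j S = 0 ∨ Y C k v j S = 1 := by
      intro j
      unfold Y
      split_ifs
      · rw [one_mul]; exact ih _ _ _
      · left; ring
    rw [X_succ]
    rcases hY (i + 1) with h1 | h1 <;> rcases hY (i + 2) with h2 | h2 <;> rw [h1, h2] <;> norm_num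

theorem Y_or (k : ℕ) (v : V) (j : Fin 3) (S : Finset E) : Y C k v j S = 0 ∨ Y C k v j S = 1 := by
  unfold Y
  split_ifs
  · rw [one_mul]; exact X_or C _ _ _ _
  · left; ring

theorem X_nonneg (k : ℕ) (v : V) (i : Fin 3) (S : Finset E) : 0 ≤ X C k v i S := by
  rcases X_or C k v i S with h | h <;> rw [h] <;> norm_num

theorem X_le_one (k : ℕ) (v : V) (i : Fin 3) (S : Finset E) : X C k v i S ≤ 1 := by
  rcases X_or C k v i S with h | h <;> rw [h] <;> norm_num

theorem Y_nonneg (k : ℕ) (v : V) (i : Fin 3) (S : Finset E) : 0 ≤ Y C k v i S := by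
  rcases Y_or C k v i S with h | h <;> rw [h] <;> norm_num

theorem Y_le_one (k : ℕ) (v : V) (i : Fin 3) (S : Finset E) : Y C k v i S ≤ 1 := by
  rcases Y_or C k v i S with h | h <;> rw [h] <;> norm_num

theorem X_mono (k : ℕ) : ∀ v i, Monotone (X C k v i) := by
  induction k with
  | zero => intro v i S T _; exact le_refl _
  | succ k ih =>
    intro v i S T hST
    have hY : ∀ j, Y C k v j S ≤ Y C k v j T := by
      intro j
      unfold Y
      have h1 := ih (C.nx v j) j hST
      have h2 := X_nonneg C k (C.nx v j) j S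
      have h3 := X_nonneg C k (C.nx v j) j T
      by_cases h4 : C.ed v j ∈ S
      · rw [if_pos h4, if_pos (hST h4)]
        linarith
      · rw [if_neg h4]
        split_ifs <;> linarith
    rw [X_succ, X_succ]
    have a1 := hY (i + 1)
    have a2 := hY (i + 2)
    have a3 := Y_le_one C k v (i + 1) T
    have a4 := Y_le_one C k v (i + 2) S
    nlinarith

theorem X_anti (k : ℕ) : ∀ v i (S : Finset E), X C (k + 1) v i S ≤ X C k v i S := by
  induction k with
  | zero => intro v i S; exact X_le_one C 1 v i S
  | succ k ih =>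
    intro v i S
    have hY : ∀ j, Y C (k + 1) v j S ≤ Y C k v j S := by
      intro j
      unfold Y
      have h1 := ih (C.nx v j) j S
      split_ifs <;> linarith
    rw [X_succ C (k + 1), X_succ C k]
    have a1 := hY (i + 1)
    have a2 := hY (i + 2)
    have a3 := Y_le_one C k v (i + 1) S
    have a4 := Y_le_one C (k + 1) v (i + 2) S
    nlinarith

theorem ne_cases (i j : Fin 3) (h : j ≠ i) : j = i + 1 ∨ j = i + 2 := by
  fin_cases i <;> fin_cases j <;> simp_all

theorem X_of_walk (S : Finset E) (k : ℕ) : ∀ v i (w : List (Fin 3)), Red w → Opn C S v w →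
    w.head? ≠ some i → k ≤ w.length → X C k v i S = 1 := by
  induction k with
  | zero => intro v i w _ _ _ _; rfl
  | succ k ih =>
    intro v i w h1 h2 h3 h4
    cases w with
    | nil => simp at h4
    | cons j w =>
      have hji : j ≠ i := by
        intro e; apply h3; simp [e]
      have hY : Y C k v j S = 1 := by
        unfold Y
        rw [if_pos h2.1, one_mul]
        exact ih _ _ w h1.2 h2.2 h1.1 (by simpa using h4)
      rw [X_succ]
      rcases ne_cases i j hji with h | h
      · rw [← h, hY]; ring
      · rw [← h, hY]; ring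

/-- if no vertex starts a long open non backtracking walk, the process survives -/
theorem sv_eq_one (L : ℕ) (hL : 1 ≤ L) (hG : Gir C L) (S : Finset E) (l : List E) (hl : l.Nodup)
    (h : ∀ v i, X C L v i S = 0) : sv C.st (fun e => C.nx (C.st e) (C.dr e)) l id S = 1 := by
  by_contra hne
  obtain ⟨e, O, h1, h2, w, h3, h4, h5⟩ := died C S l id ∅
    (fun u v huv => by have : u = v := huv; rw [this]; exact Rel_refl C _ _)
    (fun e _ => Finset.notMem_empty e) hl (Finset.empty_subset _) hne
  by_cases hw : w.length ≤ L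
  · have h6 : fn C (C.st e) w = fn C (C.st e) [C.dr e] := h5
    have h7 : Red [C.dr e] := ⟨by simp, trivial⟩
    have h8 := hG _ _ _ h3 h7 hw (by simpa using hL) h6
    rw [h8] at h4
    apply h1
    have := h4.1
    rwa [C.ed_st] at this
  · cases w with
    | nil => simp at hw
    | cons j w =>
      have h6 : X C L (C.st e) (j + 1) S = 1 := by
        apply X_of_walk C S L _ _ (j :: w) h3 (Opn_mono C h2 _ _ h4)
        · intro h7
          have : j = j + 1 := by simpa using h7
          revert this
          fin_cases j <;> simp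
        · omega
      rw [h (C.st e) (j + 1)] at h6
      norm_num at h6

/-- the edges the first event looks at -/
def sup : ℕ → V → Fin 3 → Finset E
  | 0, _, _ => ∅
  | k + 1, v, i => insert (C.ed v (i + 1)) (sup k (C.nx v (i + 1)) (i + 1)) ∪
      insert (C.ed v (i + 2)) (sup k (C.nx v (i + 2)) (i + 2))

/-- the edges the second event looks at -/
def AA (k : ℕ) (v : V) (j : Fin 3) : Finset E := insert (C.ed v j) (sup C k (C.nx v j) j)

theorem sup_succ (k : ℕ) (v : V) (i : Fin 3) :
    sup C (k + 1) v i = AA C k v (i + 1) ∪ AA C k v (i + 2) := rfl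

theorem Y_dep_of (k : ℕ) (v : V) (j : Fin 3)
    (h : Dep (sup C k (C.nx v j) j) (X C k (C.nx v j) j)) : Dep (AA C k v j) (Y C k v j) := by
  intro e he S
  unfold AA at he
  rw [Finset.mem_insert, not_or] at he
  unfold Y
  rw [h e he.2 S]
  have : (C.ed v j ∈ insert e S) ↔ C.ed v j ∈ S := by
    simp [Ne.symm he.1]
  simp only [this]

theorem X_dep (k : ℕ) : ∀ v i, Dep (sup C k v i) (X C k v i) := by
  induction k with
  | zero => intro v i e _ S; rfl
  | succ k ih =>
    intro v i e he S
    rw [sup_succ, Finset.mem_union, not_or] at he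
    rw [X_succ, X_succ, Y_dep_of C k v (i + 1) (ih _ _) e he.1 S,
      Y_dep_of C k v (i + 2) (ih _ _) e he.2 S]

theorem Y_dep (k : ℕ) (v : V) (j : Fin 3) : Dep (AA C k v j) (Y C k v j) :=
  Y_dep_of C k v j (X_dep C k _ _)

theorem AA_char (k : ℕ) : ∀ v j e, e ∈ AA C k v j → ∃ w i, e = C.ed (fn C v w) i ∧
    Red (w ++ [i]) ∧ (w ++ [i]).head? = some j ∧ w.length ≤ k := by
  induction k with
  | zero =>
    intro v j e he
    unfold AA sup at he
    have : e = C.ed v j := by simpa using he
    exact ⟨[], j, this, ⟨by simp, trivial⟩, rfl, le_refl _⟩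
  | succ k ih =>
    intro v j e he
    unfold AA at he
    rcases Finset.mem_insert.1 he with h | h
    · exact ⟨[], j, h, ⟨by simp, trivial⟩, rfl, Nat.zero_le _⟩
    · rw [sup_succ] at h
      have key : ∀ j', j' ≠ j → e ∈ AA C k (C.nx v j) j' → ∃ w i, e = C.ed (fn C v w) i ∧
          Red (w ++ [i]) ∧ (w ++ [i]).head? = some j ∧ w.length ≤ k + 1 := by
        intro j' hj' he'
        obtain ⟨w, i, h1, h2, h3, h4⟩ := ih _ _ _ he'
        refine ⟨j :: w, i, h1, ⟨?_, h2⟩, rfl, by simpa using h4⟩
        show (w ++ [i]).head? ≠ some j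
        rw [h3]
        intro h5
        exact hj' (by simpa using h5)
      rcases Finset.mem_union.1 h with h5 | h5
      · exact key (j + 1) (by fin_cases j <;> simp) h5
      · exact key (j + 2) (by fin_cases j <;> decide) h5

theorem AA_disj (L : ℕ) (hG : Gir C L) (k k' : ℕ) (hk : k + 1 ≤ L) (hk' : k' + 1 ≤ L) (v : V)
    (j j' : Fin 3) (hj : j ≠ j') : Disjoint (AA C k v j) (AA C k' v j') := by
  rw [Finset.disjoint_left]
  intro e he he'
  obtain ⟨w, i, h1, h2, h3, h4⟩ := AA_char C k v j e he
  obtain ⟨u, i', g1, g2, g3, g4⟩ := AA_char C k' v j' e he'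
  obtain ⟨h5, h6⟩ := C.ed_eq _ _ _ _ (h1.symm.trans g1)
  subst h5
  rcases h6 with h6 | h6
  · have := hG v w u (Red_append _ _ h2).1 (Red_append _ _ g2).1 (by omega) (by omega) h6
    rw [this] at h3
    rw [h3] at g3
    exact hj (by simpa using g3)
  · have h7 : fn C v w = fn C v (u ++ [i]) := by
      rw [fn_append]; exact h6
    have h8 := hG v w (u ++ [i]) (Red_append _ _ h2).1 g2 (by omega) (by simp; omega) h7
    rw [h8] at h3
    have h9 : ((u ++ [i]) ++ [i]).head? = (u ++ [i]).head? := by
      cases u <;> simp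
    rw [h9, g3] at h3
    exact hj (by simpa using h3.symm)

theorem ed_notMem (L : ℕ) (hG : Gir C L) (k : ℕ) (hk : k + 1 ≤ L) (v : V) (j : Fin 3) :
    C.ed v j ∉ sup C k (C.nx v j) j := by
  intro h
  cases k with
  | zero => exact absurd h (Finset.notMem_empty _)
  | succ k =>
    rw [sup_succ] at h
    have key : ∀ j', j' ≠ j → C.ed v j ∈ AA C k (C.nx v j) j' → False := by
      intro j' hj' he'
      obtain ⟨w, i, h1, h2, h3, h4⟩ := AA_char C k _ _ _ he'
      obtain ⟨h5, h6⟩ := C.ed_eq _ _ _ _ h1
      subst h5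
      have hw := (Red_append _ _ h2).1
      have hred : Red (j :: w) := by
        refine ⟨?_, hw⟩
        intro h7
        cases w with
        | nil => simp at h7
        | cons a w =>
          simp at h7 h3
          exact hj' (h3.symm.trans h7)
      rcases h6 with h6 | h6
      · have h7 : fn C v [] = fn C v (j :: w) := h6
        have := hG v [] (j :: w) trivial hred (by simp) (by simp; omega) h7
        simp at this
      · have h8 : C.nx v j = fn C (C.nx v j) w := by
          have h10 := congrArg (fun z => C.nx z j) h6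
          simp only [C.nx_nx] at h10
          exact h10
        have h9 := hG v [j] (j :: w) ⟨by simp, trivial⟩ hred (by simp; omega) (by simp; omega) h8
        simp at h9
        subst h9
        simp at h3
        exact hj' h3.symm
    rcases Finset.mem_union.1 h with h5 | h5
    · exact key (j + 1) (by fin_cases j <;> simp) h5
    · exact key (j + 2) (by fin_cases j <;> decide) h5

end

end Pool.Agent.H.MP_25a9e0_co
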